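import Pool.Agent.Q57.UG.Geo
import Pool.Agent.Q57.GC.Top

/-!
The asymptotic orders of the sections of `∑ i, μ i (K + Δ i) + j A`, if the `K + Δ i` are given by
functions of the orders of the coordinates `Y`, are computed by finitely many sections.
-/

set_option autoImplicit false
set_option linter.overlappingInstances false
set_option linter.unusedSectionVars false
set_option maxHeartbeats 1000000

open FF MvPolynomial IntermediateField Pool.Agent.W603.LV Pool.Agent.W619.PQ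
open Pool.Agent.W619.TW Pool.Agent.W602.GT Pool.Agent.TH122.AB Pool.Agent.TH756.PN
open Pool.Agent.Y169.CH Pool.Agent.Y169.TH Pool.Agent.Q57.GM Pool.Agent.Q57.FG Pool.Agent.Q57.GG

namespace Pool.Agent.Q57.UG

variable {d p : ℕ} {ι : Type} [Fintype ι] {K : Type} [Field K] [Algebra ℂ K]

/-- the minimal order of a form at the vector fields which are regular at `P` -/
noncomputable def moF (Ω : (Fin (d + 1) → Derivation ℂ K K) → K) (P : Place ℂ K) : ℤ :=
  sInf {k : ℤ | ∃ D : Fin (d + 1) → Derivation ℂ K K, (∀ c, DerReg P (D c)) ∧ Ω D ≠ 0 ∧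
    P.ord (Ω D) = k}

theorem der_mat {Y : Fin (d + 1) → K} (hY : IsTranscendenceBasis ℂ Y)
    {D0 : Fin (d + 1) → Derivation ℂ K K} (hD0 : ∀ i j, D0 i (Y j) = if i = j then 1 else 0)
    (D : Fin (d + 1) → Derivation ℂ K K) : D = fun b => ∑ c, D b (Y c) • D0 c := by
  funext b
  apply der_ext' hY
  intro j
  rw [sum_der, Finset.sum_eq_single j]
  · rw [hD0, if_pos rfl, mul_one]
  · intro c _ hc
    rw [hD0, if_neg hc, mul_zero]
  · intro hj
    exact absurd (Finset.mem_univ _) hj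

theorem pluri_det {Y : Fin (d + 1) → K} (hY : IsTranscendenceBasis ℂ Y)
    {D0 : Fin (d + 1) → Derivation ℂ K K} (hD0 : ∀ i j, D0 i (Y j) = if i = j then 1 else 0)
    {m : ℕ} {η : (Fin (d + 1) → Derivation ℂ K K) → K} (hη : IsPluri m η)
    (D : Fin (d + 1) → Derivation ℂ K K) :
    η D = (Matrix.of fun b c => D b (Y c)).det ^ m * η D0 := by
  have h1 := hη (Matrix.of fun b c => D b (Y c)) D0
  simp only [Matrix.of_apply] at h1
  rw [← der_mat hY hD0 D] at h1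
  exact h1

theorem trdeg_u {Y : Fin (d + 1) → K} (hY : IsTranscendenceBasis ℂ Y) :
    Algebra.trdeg ℂ K = ((d + 1 : ℕ) : Cardinal) := by
  rw [Pool.Agent.W602.GT.trdeg_of_basis hY]

/-- **The frames.** -/
theorem frame_u {Y : Fin (d + 1) → K} (hY : IsTranscendenceBasis ℂ Y)
    (hfd : FiniteDimensional (IntermediateField.adjoin ℂ (Set.range Y)) K)
    {Ω : (Fin (d + 1) → Derivation ℂ K K) → K} (hΩ : IsPluri 1 Ω) (hΩ0 : Ω ≠ 0)
    {P : Place ℂ K} (hP : IsDivisorial P (d + 1)) :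
    (∃ D : Fin (d + 1) → Derivation ℂ K K, (∀ c, DerReg P (D c)) ∧ Ω D ≠ 0 ∧
      P.ord (Ω D) = moF Ω P) ∧
    ∀ D : Fin (d + 1) → Derivation ℂ K K, (∀ c, DerReg P (D c)) → Ω D = 0 ∨
      moF Ω P ≤ P.ord (Ω D) := by
  classical
  obtain ⟨y, E, i0, hy, hEy, hi0, hyreg, hEpres⟩ := Pool.Agent.W619.Y.pFRAME ℂ K (d + 1)
    (trdeg_u hY) (fun y hy => Pool.Agent.TH756.PN.fin_all hfd hy) P hP
  have hEne : Ω E ≠ 0 := by
    intro h0
    apply hΩ0
    funext D
    rw [pluri_det hy hEy hΩ D, h0, mul_zero]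
    rfl
  have hle : ∀ D : Fin (d + 1) → Derivation ℂ K K, (∀ c, DerReg P (D c)) → Ω D = 0 ∨
      P.ord (Ω E) ≤ P.ord (Ω D) := by
    intro D hD
    by_cases h0 : Ω D = 0
    · exact Or.inl h0
    right
    have h1 := pluri_det hy hEy hΩ D
    rw [pow_one] at h1
    have h2 : (Matrix.of fun b c => D b (y c)).det ≠ 0 := by
      intro h3
      rw [h3, zero_mul] at h1
      exact h0 h1
    rw [h1, P.ord_mul h2 hEne]
    have h3 : Ge P 0 (Matrix.of fun b c => D b (y c)).det :=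
      Pool.Agent.W619.PQ.ge_det P _ fun b c => hD b _ (hyreg c)
    have h4 := h3.resolve_left h2
    linarith
  have hleast : IsLeast {k : ℤ | ∃ D : Fin (d + 1) → Derivation ℂ K K,
      (∀ c, DerReg P (D c)) ∧ Ω D ≠ 0 ∧ P.ord (Ω D) = k} (P.ord (Ω E)) := by
    refine ⟨⟨E, hEpres, hEne, rfl⟩, ?_⟩
    rintro k ⟨D, hD, hD0, rfl⟩
    exact (hle D hD).resolve_left hD0
  have hmo : moF Ω P = P.ord (Ω E) := hleast.csInf_eq
  rw [hmo]
  exact ⟨⟨E, hEpres, hEne, rfl⟩, hle⟩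

/-- the section of the generator -/
noncomputable def omU (Y : Fin (d + 1) → K) (Ω : (Fin (d + 1) → Derivation ℂ K K) → K) (G : K)
    (q : ℕ) (g : Fin p →₀ ℕ) (u : Fin (d + 1) → ℤ) (D : Fin (d + 1) → Derivation ℂ K K) : K :=
  mnU Y u ^ q * (Ω D ^ q * G) ^ (∑ i, g i)

theorem omU_pluri {Y : Fin (d + 1) → K} {Ω : (Fin (d + 1) → Derivation ℂ K K) → K}
    (hΩ : IsPluri 1 Ω) (G : K) (q : ℕ) (g : Fin p →₀ ℕ) (u : Fin (d + 1) → ℤ) :
    IsPluri (∑ i, (q • g) i) (omU Y Ω G q g u) := by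
  intro A D
  have h1 := hΩ A D
  rw [pow_one] at h1
  have h2 : ∑ i, (q • g) i = q * ∑ i, g i := by
    rw [Finset.mul_sum]
    exact Finset.sum_congr rfl fun i _ => by rw [Finsupp.smul_apply, smul_eq_mul]
  unfold omU
  rw [h1, h2, mul_pow, mul_pow, mul_pow, mul_pow, pow_mul]
  ring

/-- the approximation of the exponents -/
theorem approx_exp {N0 : ℕ} {g : Fin N0 → Fin p →₀ ℕ} {q : ℕ} (hq : 1 ≤ q) {o : Fin N0 → ℤ}
    {W : ℤ} (C : ℕ) :
    ∃ C' : ℕ, ∀ (μ : Fin p →₀ ℕ) (j : ℕ) (x : ℤ) (e : Fin N0 → ℕ),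
      (∀ i, |∑ b, (e b : ℤ) * g b i - (q * μ i : ℕ)| ≤ C * ((q * j : ℕ) + 1)) →
      ∑ b, (e b : ℤ) * o b ≤ (q * x - (∑ i, μ i : ℕ) * W) + C * ((q * j : ℕ) + 1) →
      (∀ i, |∑ b, ((e b / (q * q) : ℕ) : ℤ) * ((q • g b) i : ℕ) - μ i| ≤ C' * (j + 1)) ∧
      ∑ b, ((e b / (q * q) : ℕ) : ℤ) * (q * o b + (∑ i, g b i : ℕ) * W) ≤ x + C' * (j + 1) := by
  classical
  obtain ⟨Γ, hΓ⟩ : ∃ Γ : ℤ, Γ = ∑ b, ∑ i, (g b i : ℤ) := ⟨_, rfl⟩
  obtain ⟨B, hB⟩ : ∃ B : ℤ, B = ∑ b, |q * o b + (∑ i, g b i : ℕ) * W| := ⟨_, rfl⟩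
  have hΓ0 : 0 ≤ Γ := by
    rw [hΓ]
    exact Finset.sum_nonneg fun _ _ => Finset.sum_nonneg fun _ _ => Int.natCast_nonneg _
  have hB0 : 0 ≤ B := by
    rw [hB]
    exact Finset.sum_nonneg fun _ _ => abs_nonneg _
  obtain ⟨C', hC'⟩ : ∃ C' : ℕ, (C' : ℤ) = q * q * C + q * q * q * Γ + (q * q) * B +
      q * q * (p * |W|) * C := by
    refine ⟨(q * q * C + q * q * q * Γ + (q * q) * B + q * q * (p * |W|) * C : ℤ).toNat,
      Int.toNat_of_nonneg (by positivity)⟩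
  have hqz : (1 : ℤ) ≤ q := by exact_mod_cast hq
  have hqq : (1 : ℤ) ≤ q * q := by nlinarith
  refine ⟨C', fun μ j x e he1 he2 => ?_⟩
  have hmod : ∀ b, ((e b / (q * q) : ℕ) : ℤ) * (q * q) = e b - (e b % (q * q) : ℕ) := by
    intro b
    have h1 := Nat.div_add_mod (e b) (q * q)
    have h2 : ((q * q * (e b / (q * q)) + e b % (q * q) : ℕ) : ℤ) = e b := by exact_mod_cast h1
    push_cast at h2 ⊢
    linarith
  have hr0 : ∀ b, (0 : ℤ) ≤ (e b % (q * q) : ℕ) := fun b => Int.natCast_nonneg _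
  have hr1 : ∀ b, ((e b % (q * q) : ℕ) : ℤ) ≤ q * q := by
    intro b
    have h1 : e b % (q * q) < q * q := Nat.mod_lt _ (by nlinarith)
    have h2 : e b % (q * q) ≤ q * q := h1.le
    exact_mod_cast h2
  have hj : (C : ℤ) * ((q * j : ℕ) + 1) ≤ q * C * (j + 1) := by
    push_cast
    have h1 : (0 : ℤ) ≤ C * (q - 1) := mul_nonneg (by positivity) (by linarith)
    nlinarith
  have hdist : ∀ f : Fin N0 → ℤ, (∑ b, ((e b / (q * q) : ℕ) : ℤ) * f b) * (q * q) =
      ∑ b, (e b : ℤ) * f b - ∑ b, ((e b % (q * q) : ℕ) : ℤ) * f b := by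
    intro f
    rw [Finset.sum_mul, ← Finset.sum_sub_distrib]
    refine Finset.sum_congr rfl fun b _ => ?_
    have h1 := hmod b
    linear_combination (f b) * h1
  have hrest : ∀ f : Fin N0 → ℤ, |∑ b, ((e b % (q * q) : ℕ) : ℤ) * f b| ≤
      (q * q) * ∑ b, |f b| := by
    intro f
    refine (Finset.abs_sum_le_sum_abs _ _).trans ?_
    rw [Finset.mul_sum]
    refine Finset.sum_le_sum fun b _ => ?_
    rw [abs_mul, abs_of_nonneg (hr0 b)]
    exact mul_le_mul_of_nonneg_right (hr1 b) (abs_nonneg _)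
  constructor
  · intro i
    obtain ⟨X, hX⟩ : ∃ X : ℤ, X = ∑ b, ((e b / (q * q) : ℕ) : ℤ) * ((q • g b) i : ℕ) - μ i :=
      ⟨_, rfl⟩
    rw [← hX]
    have h1 := hdist fun b => ((q • g b) i : ℕ)
    have h2 : ∑ b, (e b : ℤ) * (((q • g b) i : ℕ) : ℤ) = q * ∑ b, (e b : ℤ) * g b i := by
      rw [Finset.mul_sum]
      refine Finset.sum_congr rfl fun b _ => ?_
      rw [Finsupp.smul_apply, smul_eq_mul]
      push_cast
      ring
    have h3 : X * (q * q) = q * (∑ b, (e b : ℤ) * g b i - (q * μ i : ℕ)) -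
        ∑ b, ((e b % (q * q) : ℕ) : ℤ) * (((q • g b) i : ℕ) : ℤ) := by
      rw [hX, sub_mul, h1, h2]
      push_cast
      ring
    have h4 : |X * (q * q)| ≤ q * (C * ((q * j : ℕ) + 1)) + (q * q) * (q * Γ) := by
      rw [h3]
      refine (abs_sub _ _).trans (add_le_add ?_ ?_)
      · rw [abs_mul, abs_of_nonneg (by positivity : (0 : ℤ) ≤ q)]
        exact mul_le_mul_of_nonneg_left (he1 i) (by positivity)
      · refine (hrest _).trans (mul_le_mul_of_nonneg_left ?_ (by positivity))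
        rw [hΓ, Finset.mul_sum]
        refine Finset.sum_le_sum fun b _ => ?_
        rw [abs_of_nonneg (Int.natCast_nonneg _), Finsupp.smul_apply, smul_eq_mul]
        push_cast
        refine mul_le_mul_of_nonneg_left ?_ (by positivity)
        exact Finset.single_le_sum (f := fun i => (g b i : ℤ)) (fun _ _ => Int.natCast_nonneg _)
          (Finset.mem_univ i)
    have h5 : |X| ≤ |X * (q * q)| := by
      rw [abs_mul, abs_of_nonneg (by positivity : (0 : ℤ) ≤ (q : ℤ) * q)]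
      exact le_mul_of_one_le_right (abs_nonneg _) hqq
    refine (h5.trans h4).trans ?_
    rw [hC']
    have h6 : (q : ℤ) * (C * ((q * j : ℕ) + 1)) ≤ q * (q * C * (j + 1)) :=
      mul_le_mul_of_nonneg_left hj (by positivity)
    have h7 : (0 : ℤ) ≤ q * q * q * Γ * j := by positivity
    have h8 : (0 : ℤ) ≤ ((q * q) * B + q * q * (p * |W|) * C) * (j + 1) := by positivity
    linarith
  · obtain ⟨X, hX⟩ : ∃ X : ℤ, X = ∑ b, ((e b / (q * q) : ℕ) : ℤ) *
      (q * o b + (∑ i, g b i : ℕ) * W) - x := ⟨_, rfl⟩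
    suffices h : X ≤ C' * (j + 1) by linarith
    have h1 := hdist fun b => q * o b + (∑ i, g b i : ℕ) * W
    have h2 : ∑ b, (e b : ℤ) * (q * o b + (∑ i, g b i : ℕ) * W) =
        q * ∑ b, (e b : ℤ) * o b + W * ∑ i, ∑ b, (e b : ℤ) * g b i := by
      rw [Finset.sum_comm, Finset.mul_sum, Finset.mul_sum, ← Finset.sum_add_distrib]
      refine Finset.sum_congr rfl fun b _ => ?_
      rw [← Finset.mul_sum]
      push_cast
      ring
    have h3 : X * (q * q) = q * (∑ b, (e b : ℤ) * o b - (q * x - (∑ i, μ i : ℕ) * W)) +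
        W * ∑ i, (∑ b, (e b : ℤ) * g b i - (q * μ i : ℕ)) -
        ∑ b, ((e b % (q * q) : ℕ) : ℤ) * (q * o b + (∑ i, g b i : ℕ) * W) := by
      rw [hX, sub_mul, h1, h2, Finset.sum_sub_distrib]
      push_cast
      rw [← Finset.mul_sum]
      ring
    have h4 : W * ∑ i, (∑ b, (e b : ℤ) * g b i - (q * μ i : ℕ)) ≤
        |W| * (p * (C * ((q * j : ℕ) + 1))) := by
      refine (le_abs_self _).trans ?_
      rw [abs_mul]
      refine mul_le_mul_of_nonneg_left ?_ (abs_nonneg _)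
      refine (Finset.abs_sum_le_sum_abs _ _).trans ?_
      refine (Finset.sum_le_sum fun i _ => he1 i).trans (le_of_eq ?_)
      rw [Finset.sum_const, Finset.card_univ, Fintype.card_fin, nsmul_eq_mul]
    have h5 := (abs_le.1 (hrest fun b => q * o b + (∑ i, g b i : ℕ) * W)).1
    rw [← hB] at h5
    have h6 : (q : ℤ) * (∑ b, (e b : ℤ) * o b - (q * x - (∑ i, μ i : ℕ) * W)) ≤
        q * (C * ((q * j : ℕ) + 1)) := mul_le_mul_of_nonneg_left (by linarith) (by positivity)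
    have h7 : X * (q * q) ≤ q * (q * C * (j + 1)) + |W| * (p * (q * C * (j + 1))) +
        (q * q) * B := by
      have h8 : (q : ℤ) * (C * ((q * j : ℕ) + 1)) ≤ q * (q * C * (j + 1)) :=
        mul_le_mul_of_nonneg_left hj (by positivity)
      have h9 : |W| * (p * (C * ((q * j : ℕ) + 1))) ≤ |W| * (p * (q * C * (j + 1))) :=
        mul_le_mul_of_nonneg_left (mul_le_mul_of_nonneg_left hj (by positivity)) (abs_nonneg _)
      linarith
    by_cases hX0 : X ≤ 0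
    · exact hX0.trans (by positivity)
    push Not at hX0
    have h8 : X ≤ X * (q * q) := le_mul_of_one_le_right hX0.le hqq
    refine (h8.trans h7).trans ?_
    rw [hC']
    have h9 : |W| * (p * (q * C * (j + 1))) ≤ q * q * (p * |W|) * C * (j + 1) := by
      have h10 : (0 : ℤ) ≤ |W| * p * C * (j + 1) * q * (q - 1) :=
        mul_nonneg (by positivity) (by linarith)
      nlinarith
    have h10 : (0 : ℤ) ≤ q * q * q * Γ * (j + 1) := by positivity
    have h11 : (0 : ℤ) ≤ (q * q) * B * j := by positivity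
    linarith

/-- the hypotheses on the coefficients -/
structure Data (Y : Fin (d + 1) → K) (t : ι → Fin (d + 1) → ℤ) (a : Fin p → ι → ℚ)
    (φ : Fin p → (Fin (d + 1) → ℤ) → ℚ) : Prop where
  hY : IsTranscendenceBasis ℂ Y
  hfd : FiniteDimensional (IntermediateField.adjoin ℂ (Set.range Y)) K
  ht : ∀ s, t s ≠ 0
  hom : ∀ i v (e : ℕ), 1 ≤ e → φ i (e • v) = e * φ i v
  ha : ∀ i s, φ i (t s) = a i s
  gen : ∀ P : Place ℂ K, IsDivisorial P (d + 1) → ∃ w : ι → ℚ, (∀ s, 0 ≤ w s) ∧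
    (∀ k, (P.ord (Y k) : ℚ) = ∑ s, w s * t s k) ∧ ∀ i, φ i (vec Y P) ≤ ∑ s, w s * a i s

theorem Data.Y0 {Y : Fin (d + 1) → K} {t : ι → Fin (d + 1) → ℤ} {a : Fin p → ι → ℚ}
    {φ : Fin p → (Fin (d + 1) → ℤ) → ℚ} (H : Data Y t a φ) (k : Fin (d + 1)) : Y k ≠ 0 :=
  H.hY.1.ne_zero k

/-- the monomials satisfy the inequalities at all places -/
theorem Data.le {Y : Fin (d + 1) → K} {t : ι → Fin (d + 1) → ℤ} {a : Fin p → ι → ℚ}
    {φ : Fin p → (Fin (d + 1) → ℤ) → ℚ} (H : Data Y t a φ) {g : Fin p →₀ ℕ}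
    {u : Fin (d + 1) → ℤ}
    (hu : ∀ s, ∑ i, (g i : ℚ) * a i s ≤ ((∑ k, t s k * u k : ℤ) : ℚ)) {P : Place ℂ K}
    (hP : IsDivisorial P (d + 1)) :
    ∑ i, (g i : ℚ) * φ i (vec Y P) ≤ (P.ord (mnU Y u) : ℚ) := by
  obtain ⟨w, hw, hwk, hwa⟩ := H.gen P hP
  rw [ord_mnU H.Y0]
  push_cast
  calc ∑ i, (g i : ℚ) * φ i (vec Y P) ≤ ∑ i, (g i : ℚ) * ∑ s, w s * a i s :=
        Finset.sum_le_sum fun i _ => mul_le_mul_of_nonneg_left (hwa i) (by positivity)
    _ = ∑ s, w s * ∑ i, (g i : ℚ) * a i s := by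
        simp only [Finset.mul_sum]
        rw [Finset.sum_comm]
        exact Finset.sum_congr rfl fun _ _ => Finset.sum_congr rfl fun _ _ => by ring
    _ ≤ ∑ s, w s * ((∑ k, t s k * u k : ℤ) : ℚ) :=
        Finset.sum_le_sum fun s _ => mul_le_mul_of_nonneg_left (hu s) (hw s)
    _ = ∑ k, (P.ord (Y k) : ℚ) * u k := by
        simp only [hwk, Int.cast_sum, Int.cast_mul, Finset.mul_sum, Finset.sum_mul]
        rw [Finset.sum_comm]
        exact Finset.sum_congr rfl fun _ _ => Finset.sum_congr rfl fun _ _ => by ring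

/-- **The asymptotic orders for forms.** -/
theorem form_u {Y : Fin (d + 1) → K} {t : ι → Fin (d + 1) → ℤ} {a : Fin p → ι → ℚ}
    {φ : Fin p → (Fin (d + 1) → ℤ) → ℚ} (H : Data Y t a φ) {N0 : ℕ}
    {g : Fin N0 → Fin p →₀ ℕ} {U : Fin N0 → Fin (d + 1) → ℤ} (hg0 : ∀ b, g b ≠ 0)
    (hgU : ∀ b s, ∑ i, (g b i : ℚ) * a i s ≤ ((∑ k, t s k * U b k : ℤ) : ℚ))
    (happ : Approx t a g U) {Ω : (Fin (d + 1) → Derivation ℂ K K) → K} (hΩ : IsPluri 1 Ω)
    (hΩ0 : Ω ≠ 0) {G : K} (hG : G ≠ 0) {q : ℕ} (hq : 1 ≤ q) {δ : Fin p → Place ℂ K → ℚ}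
    (hδ : ∀ i P, IsDivisorial P (d + 1) →
      δ i P = - φ i (vec Y P) - moF Ω P - (P.ord G : ℚ) / q) :
    (∀ b, q • g b ≠ 0 ∧ MSec (d + 1) δ (q • g b) (omU Y Ω G q (g b) (U b))) ∧
    (∀ (P : Place ℂ K) (S : Finset K) (D : Fin (d + 1) → Derivation ℂ K K), ∃ C1 : ℕ,
      ∀ (μ : Fin p →₀ ℕ) (j : ℕ) (η : (Fin (d + 1) → Derivation ℂ K K) → K), μ ≠ 0 →
        ASec (d + 1) δ S μ j η → η D = 0 ∨ ((∀ b, omU Y Ω G q (g b) (U b) D ≠ 0) ∧
          ∃ e : Fin N0 → ℕ,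
            (∀ i, |∑ b, (e b : ℤ) * ((q • g b) i : ℕ) - μ i| ≤ C1 * (j + 1)) ∧
            ∑ b, (e b : ℤ) * P.ord (omU Y Ω G q (g b) (U b) D) ≤ P.ord (η D) +
              C1 * (j + 1))) ∧
    (∃ P : Place ℂ K, Divisorial (d + 1) P) ∧
    ∃ (w : (Fin (d + 1) → Derivation ℂ K K) → K) (u : K)
      (D0 : Fin (d + 1) → Derivation ℂ K K), u ≠ 0 ∧
      (∀ b, omU Y Ω G q (g b) (U b) D0 ≠ 0) ∧
      ∀ (m : ℕ) (η : (Fin (d + 1) → Derivation ℂ K K) → K), IsPluri m η →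
        ∀ D, η D * u ^ m = w D ^ m * η D0 := by
  classical
  have hqq : (0 : ℚ) < q := by exact_mod_cast hq
  obtain ⟨D0, hD0'⟩ := Pool.Agent.W602.GT.exists_dual H.hY
  have hD0 : ∀ i j, D0 i (Y j) = if i = j then 1 else 0 := by
    intro i j
    have h1 := congrFun (congrFun hD0' i) j
    rw [Matrix.of_apply, Matrix.one_apply] at h1
    exact h1
  have hpl : ∀ {m : ℕ} {η : (Fin (d + 1) → Derivation ℂ K K) → K}, IsPluri m η → ∀ D,
      η D = (Matrix.of fun b c => D b (Y c)).det ^ m * η D0 := fun hη D =>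
    pluri_det H.hY hD0 hη D
  have hΩD0 : Ω D0 ≠ 0 := by
    intro h0
    apply hΩ0
    funext D
    rw [hpl hΩ D, h0, mul_zero]
    rfl
  have hne : ∀ D, Ω D ≠ 0 → ∀ b, omU Y Ω G q (g b) (U b) D ≠ 0 := by
    intro D hD b
    unfold omU
    exact mul_ne_zero (pow_ne_zero _ (mnU_ne H.Y0 _))
      (pow_ne_zero _ (mul_ne_zero (pow_ne_zero _ hD) hG))
  have hord : ∀ (D : Fin (d + 1) → Derivation ℂ K K), Ω D ≠ 0 → ∀ (P : Place ℂ K) b,
      P.ord (omU Y Ω G q (g b) (U b) D) = q * P.ord (mnU Y (U b)) +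
        (∑ i, g b i : ℕ) * (q * P.ord (Ω D) + P.ord G) := by
    intro D hD P b
    unfold omU
    rw [P.ord_mul (pow_ne_zero _ (mnU_ne H.Y0 _))
      (pow_ne_zero _ (mul_ne_zero (pow_ne_zero _ hD) hG)), P.ord_pow, P.ord_pow,
      P.ord_mul (pow_ne_zero _ hD) hG, P.ord_pow]
  refine ⟨fun b => ⟨?_, omU_pluri hΩ G q (g b) (U b), fun P hP D hD => ?_⟩, fun P S D => ?_,
    ?_, fun D => (Matrix.of fun b c => D b (Y c)).det, 1, D0, one_ne_zero, hne D0 hΩD0,
    fun m η hη D => by rw [one_pow, mul_one]; exact hpl hη D⟩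
  · intro h0
    apply hg0 b
    ext i
    have h1 := DFunLike.congr_fun h0 i
    rw [Finsupp.smul_apply, smul_eq_mul] at h1
    rcases Nat.mul_eq_zero.1 h1 with h2 | h2
    · omega
    · exact h2
  · -- sections
    by_cases hD0 : Ω D = 0
    · left
      unfold omU
      have h1 := Pool.Agent.Q57.GG.ne_zero_sum (hg0 b)
      rw [hD0, zero_pow (by omega), zero_mul, zero_pow (by omega), mul_zero]
    right
    rw [hord D hD0 P b]
    have h1 := H.le (hgU b) hP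
    have h2 := ((frame_u H.hY H.hfd hΩ hΩ0 hP).2 D hD).resolve_left hD0
    have h3 : - ∑ i, (((q • g b) i : ℕ) : ℚ) * δ i P = q * ∑ i, (g b i : ℚ) * φ i (vec Y P) +
        (∑ i, (g b i : ℚ)) * (q * moF Ω P + P.ord G) := by
      rw [Finset.mul_sum, Finset.sum_mul, ← Finset.sum_add_distrib, ← Finset.sum_neg_distrib]
      refine Finset.sum_congr rfl fun i _ => ?_
      rw [hδ i P hP, Finsupp.smul_apply, smul_eq_mul]
      push_cast
      field_simp
      ring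
    rw [h3]
    push_cast
    have h4 : (moF Ω P : ℚ) ≤ P.ord (Ω D) := by exact_mod_cast h2
    have h5 : (0 : ℚ) ≤ ∑ i, (g b i : ℚ) := Finset.sum_nonneg fun _ _ => by positivity
    have h6 := mul_le_mul_of_nonneg_left h1 hqq.le
    have h7 : (∑ i, (g b i : ℚ)) * (q * moF Ω P + P.ord G) ≤
        (∑ i, (g b i : ℚ)) * (q * P.ord (Ω D) + P.ord G) :=
      mul_le_mul_of_nonneg_left (by nlinarith) h5
    linarith
  · -- the orders
    by_cases hΩD : Ω D = 0
    · refine ⟨0, fun μ j η hμ hη => Or.inl ?_⟩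
      have h1 := hpl hΩ D
      rw [pow_one, hΩD] at h1
      have h2 : (Matrix.of fun b c => D b (Y c)).det = 0 :=
        (mul_eq_zero.1 h1.symm).resolve_right hΩD0
      rw [hpl hη.1 D, h2, zero_pow (by have := Pool.Agent.Q57.GG.ne_zero_sum hμ; omega), zero_mul]
    obtain ⟨C, hC⟩ := geo_u H.hY H.hfd H.ht happ H.hom H.ha P S
    obtain ⟨C', hC'⟩ := approx_exp (g := g) hq (o := fun b => P.ord (mnU Y (U b)))
      (W := q * P.ord (Ω D) + P.ord G) C
    refine ⟨C', fun μ j η hμ hη => ?_⟩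
    by_cases hηD : η D = 0
    · exact Or.inl hηD
    refine Or.inr ⟨hne D hΩD, ?_⟩
    obtain ⟨m, hm⟩ : ∃ m : ℕ, m = ∑ i, μ i := ⟨_, rfl⟩
    have hηp : IsPluri m η := by
      rw [hm]
      exact hη.1
    have hηD0 : η D0 ≠ 0 := by
      intro h0
      apply hηD
      rw [hpl hηp D, h0, mul_zero]
    -- the function
    obtain ⟨h, hh⟩ : ∃ h, h = η D0 ^ q / (Ω D0 ^ q * G) ^ m := ⟨_, rfl⟩
    have hw0 : ∀ D', Ω D' ≠ 0 → Ω D' ^ q * G ≠ 0 := fun D' h' =>
      mul_ne_zero (pow_ne_zero _ h') hG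
    have hh0 : h ≠ 0 := by
      rw [hh]
      exact div_ne_zero (pow_ne_zero _ hηD0) (pow_ne_zero _ (hw0 _ hΩD0))
    have hηh : ∀ D', Ω D' ≠ 0 → η D' ≠ 0 ∧ η D' ^ q = h * (Ω D' ^ q * G) ^ m := by
      intro D' hD'
      have h1 := hpl hΩ D'
      rw [pow_one] at h1
      have h2 : (Matrix.of fun b c => D' b (Y c)).det ≠ 0 := by
        intro h3
        rw [h3, zero_mul] at h1
        exact hD' h1
      have h3 := hpl hηp D'
      refine ⟨?_, ?_⟩
      · rw [h3]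
        exact mul_ne_zero (pow_ne_zero _ h2) hηD0
      · rw [hh, h3, h1, div_mul_eq_mul_div, eq_div_iff (pow_ne_zero _ (hw0 _ hΩD0))]
        ring
    have hordh : ∀ D', Ω D' ≠ 0 → ∀ P : Place ℂ K,
        (q : ℤ) * P.ord (η D') = P.ord h + m * (q * P.ord (Ω D') + P.ord G) := by
      intro D' hD' P
      obtain ⟨h1, h2⟩ := hηh D' hD'
      have h3 := congrArg P.ord h2
      rw [P.ord_pow, P.ord_mul hh0 (pow_ne_zero _ (hw0 _ hD')), P.ord_pow,
        P.ord_mul (pow_ne_zero _ hD') hG, P.ord_pow] at h3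
      exact h3
    have hsec : SecU Y (fun v => ∑ i, ((q * μ i : ℕ) : ℚ) * φ i v) (pw S (q * j)) h := by
      intro P' hP'
      obtain ⟨⟨D', hD'reg, hD'0, hD'mo⟩, -⟩ := frame_u H.hY H.hfd hΩ hΩ0 hP'
      right
      obtain ⟨s, hs, hs0, hle⟩ := (hη.2 P' hP' D' hD'reg).resolve_left (hηh D' hD'0).1
      refine ⟨s ^ (q * j), mem_pw.2 ⟨s, hs, rfl⟩, pow_ne_zero _ hs0, ?_⟩
      have h1 := hordh D' hD'0 P'
      have h2 : ((q : ℤ) : ℚ) * P'.ord (η D') = P'.ord h + m * (q * moF Ω P' + P'.ord G) := by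
        rw [hD'mo] at h1
        exact_mod_cast h1
      rw [P'.ord_pow]
      have h3 := mul_le_mul_of_nonneg_left hle hqq.le
      have h4 : (q : ℚ) * ((j : ℚ) * P'.ord s - ∑ i, (μ i : ℚ) * δ i P') =
          ((q * j : ℕ) : ℚ) * P'.ord s + ∑ i, ((q * μ i : ℕ) : ℚ) * φ i (vec Y P') +
            m * (q * moF Ω P' + P'.ord G) := by
        have h5 : ∑ i, ((q * μ i : ℕ) : ℚ) * φ i (vec Y P') + m * (q * moF Ω P' + P'.ord G) =
            - (q * ∑ i, (μ i : ℚ) * δ i P') := by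
          rw [hm]
          push_cast
          rw [Finset.sum_mul, ← Finset.sum_add_distrib, Finset.mul_sum, ← Finset.sum_neg_distrib]
          refine Finset.sum_congr rfl fun i _ => ?_
          rw [hδ i P' hP']
          field_simp
          ring
        push_cast at h5 ⊢
        linarith
      rw [h4] at h3
      push_cast at h2 h3 ⊢
      linarith
    obtain ⟨e, he1, he2⟩ := hC (fun i => q * μ i) (q * j) h hh0 hsec
    have h1 := hordh D hΩD P
    obtain ⟨h2, h3⟩ := hC' μ j (P.ord (η D)) e he1 (by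
      rw [← hm]
      linarith)
    refine ⟨fun b => e b / (q * q), h2, ?_⟩
    refine le_trans (le_of_eq ?_) h3
    exact Finset.sum_congr rfl fun b _ => by rw [hord D hΩD P b]
  · -- a divisorial place
    obtain ⟨P, e, hP, -, -⟩ := exists_vec H.hY H.hfd (lam := Pi.single 0 1)
      ⟨Finsupp.single 0 1, 0, by
        unfold zwt
        rw [Finset.sum_eq_single 0, Finset.sum_eq_single 0]
        · simp
        · intro b _ _
          simp
        · intro h
          exact absurd (Finset.mem_univ _) h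
        · intro b _ hb
          rw [Pi.single_eq_of_ne hb, zero_mul]
        · intro h
          exact absurd (Finset.mem_univ _) h⟩
    exact ⟨P, hP⟩

end Pool.Agent.Q57.UG
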