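import Pool.Agent.Q57.GG.App
import Pool.Agent.Y169.TH.Kod

/-!
The lattice points of a rational polyhedral cone, for several divisors.
-/

set_option autoImplicit false
set_option linter.unusedSectionVars false
set_option maxHeartbeats 1000000

open Pool.Agent.Q57.GM Pool.Agent.Q57.GG Pool.Agent.Y169.TH

namespace Pool.Agent.Q57.UG

variable {d p : ℕ} {ι : Type} [Fintype ι]

/-- the inequalities -/
def consU (t : ι → Fin (d + 1) → ℤ) (L : ℕ) (q : Fin p → ι → ℤ) :
    ((Fin p → ℤ) × (Fin (d + 1) → ℤ)) →+ (ι ⊕ Fin p → ℤ) :=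
  AddMonoidHom.mk' (fun γ => Sum.elim
    (fun s => L * ∑ k, t s k * γ.2 k - ∑ i, q i s * γ.1 i) fun i => γ.1 i) (by
      intro x y
      funext s
      rcases s with s | i
      · simp only [Sum.elim_inl, Pi.add_apply, Prod.fst_add, Prod.snd_add, mul_add,
          Finset.sum_add_distrib]
        ring
      · rfl)

theorem consU_inl (t : ι → Fin (d + 1) → ℤ) (L : ℕ) (q : Fin p → ι → ℤ)
    (γ : (Fin p → ℤ) × (Fin (d + 1) → ℤ)) (s : ι) :
    consU t L q γ (Sum.inl s) = L * ∑ k, t s k * γ.2 k - ∑ i, q i s * γ.1 i := rfl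

theorem consU_inr (t : ι → Fin (d + 1) → ℤ) (L : ℕ) (q : Fin p → ι → ℤ)
    (γ : (Fin p → ℤ) × (Fin (d + 1) → ℤ)) (i : Fin p) :
    consU t L q γ (Sum.inr i) = γ.1 i := rfl

theorem consU_inj {t : ι → Fin (d + 1) → ℤ} {L : ℕ} (hL : 0 < L) (q : Fin p → ι → ℤ)
    (hspan : ∀ u : Fin (d + 1) → ℤ, (∀ s, 0 ≤ ∑ k, t s k * u k) → u = 0) :
    Function.Injective (consU t L q) := by
  rw [injective_iff_map_eq_zero]
  rintro ⟨m, u⟩ h
  have h1 : m = 0 := by
    funext i
    have := congrFun h (Sum.inr i)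
    rwa [consU_inr] at this
  subst h1
  have h2 : u = 0 := by
    apply hspan
    intro s
    have h3 := congrFun h (Sum.inl s)
    rw [consU_inl] at h3
    simp only [Pi.zero_apply, mul_zero, Finset.sum_const_zero, sub_zero] at h3
    have h4 : (L : ℤ) ≠ 0 := by exact_mod_cast hL.ne'
    exact ((mul_eq_zero.1 h3).resolve_left h4).ge
  rw [h2]
  rfl

/-- the functionals of the approximation -/
def fnU (ℓ : Fin (d + 1) → ℤ) :
    Option (Fin p) → (((Fin p → ℤ) × (Fin (d + 1) → ℤ)) →+ ℤ)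
  | none => AddMonoidHom.mk' (fun γ => ∑ k, ℓ k * γ.2 k) (by
      intro x y
      simp only [Prod.snd_add, Pi.add_apply, mul_add, Finset.sum_add_distrib])
  | some i => AddMonoidHom.mk' (fun γ => γ.1 i) (by
      intro x y
      rfl)

theorem fnU_none (ℓ : Fin (d + 1) → ℤ) (γ : (Fin p → ℤ) × (Fin (d + 1) → ℤ)) :
    fnU ℓ none γ = ∑ k, ℓ k * γ.2 k := rfl

theorem fnU_some (ℓ : Fin (d + 1) → ℤ) (γ : (Fin p → ℤ) × (Fin (d + 1) → ℤ)) (i : Fin p) :
    fnU ℓ (some i) γ = γ.1 i := rfl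

/-- the property of the generators of the cone -/
def Approx {N0 : ℕ} (t : ι → Fin (d + 1) → ℤ) (a : Fin p → ι → ℚ) (g : Fin N0 → Fin p →₀ ℕ)
    (U : Fin N0 → Fin (d + 1) → ℤ) : Prop :=
  ∀ (c : ℕ) (ℓ : Fin (d + 1) → ℤ), ∃ C : ℕ, ∀ (μ : Fin p → ℕ) (u : Fin (d + 1) → ℤ) (j : ℕ),
    (∀ s, ∑ i, (μ i : ℚ) * a i s - c * (j + 1) ≤ ((∑ k, t s k * u k : ℤ) : ℚ)) →
      ∃ e : Fin N0 → ℕ, (∀ i, |∑ b, (e b : ℤ) * g b i - μ i| ≤ C * (j + 1)) ∧
        |∑ b, (e b : ℤ) * ∑ k, ℓ k * U b k - ∑ k, ℓ k * u k| ≤ C * (j + 1)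

/-- **The generators of the cone.** -/
theorem exists_gen (t : ι → Fin (d + 1) → ℤ) (a : Fin p → ι → ℚ)
    (hspan : ∀ u : Fin (d + 1) → ℤ, (∀ s, 0 ≤ ∑ k, t s k * u k) → u = 0) :
    ∃ (N0 : ℕ) (g : Fin N0 → Fin p →₀ ℕ) (U : Fin N0 → Fin (d + 1) → ℤ),
      (∀ b, g b ≠ 0) ∧
      (∀ b s, ∑ i, (g b i : ℚ) * a i s ≤ ((∑ k, t s k * U b k : ℤ) : ℚ)) ∧
      Approx t a g U := by
  classical
  obtain ⟨L, hL, hden⟩ := exists_den fun s : Fin p × ι => a s.1 s.2
  choose q' hq' using hden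
  obtain ⟨q, hq⟩ : ∃ q : Fin p → ι → ℤ, q = fun i s => q' (i, s) := ⟨_, rfl⟩
  have hqs : ∀ i s, (L : ℚ) * a i s = q i s := fun i s => by
    rw [hq]
    exact hq' (i, s)
  have hinj := consU_inj hL q hspan
  obtain ⟨G, hG1, hG2⟩ := gordan (consU t L q) hinj
  let eG : {g // g ∈ G} ≃ Fin (Fintype.card {g // g ∈ G}) := Fintype.equivFin _
  obtain ⟨g, hg⟩ : ∃ g : Fin (Fintype.card {g // g ∈ G}) → Fin p →₀ ℕ,
    g = fun b => Finsupp.equivFunOnFinite.symm fun i => ((eG.symm b).1.1 i).toNat := ⟨_, rfl⟩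
  have hgi : ∀ b i, ((g b i : ℕ) : ℤ) = (eG.symm b).1.1 i := by
    intro b i
    rw [hg]
    change ((((eG.symm b).1.1 i).toNat : ℕ) : ℤ) = _
    refine Int.toNat_of_nonneg ?_
    have h1 := (hG1 _ (eG.symm b).2).2 (Sum.inr i)
    rwa [consU_inr] at h1
  have hLq : (0 : ℚ) < L := by exact_mod_cast hL
  have hqL : ∀ (m : Fin p → ℤ) (s : ι), ((∑ i, q i s * m i : ℤ) : ℚ) =
      L * ∑ i, (m i : ℚ) * a i s := by
    intro m s
    push_cast
    rw [Finset.mul_sum]
    refine Finset.sum_congr rfl fun i _ => ?_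
    rw [← hqs]
    ring
  refine ⟨_, g, fun b => (eG.symm b).1.2, fun b h0 => ?_, fun b s => ?_, fun c ℓ => ?_⟩
  · have h1 : (eG.symm b).1.1 = 0 := by
      funext i
      rw [← hgi b i, h0]
      rfl
    refine (hG1 _ (eG.symm b).2).1 (Prod.ext h1 (hspan _ fun s => ?_))
    have h2 := (hG1 _ (eG.symm b).2).2 (Sum.inl s)
    rw [consU_inl, h1] at h2
    simp only [Pi.zero_apply, mul_zero, Finset.sum_const_zero, sub_zero] at h2
    have h3 : (0 : ℤ) < L := by exact_mod_cast hL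
    exact nonneg_of_mul_nonneg_right h2 h3
  · have h1 := (hG1 _ (eG.symm b).2).2 (Sum.inl s)
    rw [consU_inl] at h1
    have h2 : ((∑ i, q i s * (eG.symm b).1.1 i : ℤ) : ℚ) ≤
        ((L * ∑ k, t s k * (eG.symm b).1.2 k : ℤ) : ℚ) := by
      exact_mod_cast sub_nonneg.1 h1
    rw [hqL] at h2
    have h3 : ∑ i, (((eG.symm b).1.1 i : ℤ) : ℚ) * a i s = ∑ i, (g b i : ℚ) * a i s := by
      refine Finset.sum_congr rfl fun i _ => ?_
      rw [← hgi]
      push_cast
      rfl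
    rw [h3, Int.cast_mul, Int.cast_natCast] at h2
    exact le_of_mul_le_mul_left h2 hLq
  · obtain ⟨C, hC⟩ := approx (consU t L q) hinj
      (Sum.elim (fun _ => (L : ℤ) * c) fun _ => 0) (fnU ℓ)
    refine ⟨C, fun μ u j hs => ?_⟩
    obtain ⟨γ0, hγ0, hγ0'⟩ := hC (fun i => (μ i : ℤ), u) (j + 1) (by
      intro s
      rcases s with s | i
      · rw [consU_inl, Sum.elim_inl]
        have h1 := mul_le_mul_of_nonneg_left (hs s) hLq.le
        have h2 := hqL (fun i => (μ i : ℤ)) s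
        have h3 : (((- ((L : ℤ) * c * ((j + 1 : ℕ) : ℤ)) : ℤ)) : ℚ) ≤
            ((L * ∑ k, t s k * u k - ∑ i, q i s * (μ i : ℤ) : ℤ) : ℚ) := by
          rw [Int.cast_sub, h2]
          push_cast at h1 ⊢
          linarith
        exact_mod_cast h3
      · rw [consU_inr, Sum.elim_inr, zero_mul, neg_zero]
        exact Int.natCast_nonneg _)
    obtain ⟨e', he'⟩ := closure_comb G (hG2 γ0 hγ0)
    have hsumG : ∀ f : ((Fin p → ℤ) × (Fin (d + 1) → ℤ)) →+ ℤ,
        ∑ b, ((e' (eG.symm b).1 : ℕ) : ℤ) * f (eG.symm b).1 = f γ0 := by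
      intro f
      conv_rhs => rw [he', map_sum]
      rw [← Finset.sum_coe_sort G, ← Equiv.sum_comp eG.symm]
      exact Finset.sum_congr rfl fun b _ => by rw [map_nsmul, nsmul_eq_mul]
    refine ⟨fun b => e' (eG.symm b).1, fun i => ?_, ?_⟩
    · have h1 := hγ0' (some i)
      rw [fnU_some, fnU_some, abs_sub_comm] at h1
      have h2 := hsumG (fnU ℓ (some i))
      simp only [fnU_some] at h2
      have h3 : ∑ b, ((e' (eG.symm b).1 : ℕ) : ℤ) * ((g b i : ℕ) : ℤ) = γ0.1 i := by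
        rw [← h2]
        exact Finset.sum_congr rfl fun b _ => by rw [hgi]
      rw [h3]
      refine h1.trans (le_of_eq ?_)
      push_cast
      rfl
    · have h1 := hγ0' none
      rw [fnU_none (γ := ((fun i => (μ i : ℤ)), u)), abs_sub_comm] at h1
      have h2 := hsumG (fnU ℓ none)
      rw [← h2] at h1
      refine le_trans (le_of_eq ?_) (h1.trans (le_of_eq ?_))
      · rfl
      · push_cast
        rfl

/-- primitive vectors -/
theorem exists_prim {t : Fin (d + 1) → ℤ} (ht : t ≠ 0) :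
    ∃ (lam : Fin (d + 1) → ℤ) (n : ℕ), 1 ≤ n ∧ t = n • lam ∧
      ∃ a b : Fin (d + 1) →₀ ℕ, zwt lam a = zwt lam b + 1 := by
  classical
  obtain ⟨z, hz⟩ := (IsPrincipalIdealRing.principal (Ideal.span (Set.range t)))
  have hmem : ∀ k, ∃ y, t k = y * z := by
    intro k
    have h1 : t k ∈ Ideal.span (Set.range t) := Ideal.subset_span ⟨k, rfl⟩
    rw [hz] at h1
    obtain ⟨y, hy⟩ := Submodule.mem_span_singleton.1 h1
    exact ⟨y, by rw [← hy, smul_eq_mul]⟩
  choose y hy using hmem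
  have hz0 : z ≠ 0 := by
    rintro rfl
    apply ht
    funext k
    rw [hy, mul_zero]
    rfl
  have hzm : z ∈ Ideal.span (Set.range t) := by
    rw [hz]
    exact Submodule.mem_span_singleton_self z
  obtain ⟨c, hc⟩ := Ideal.mem_span_range_iff_exists_fun.1 hzm
  have hone : ∑ k, c k * y k = 1 := by
    have h1 : (∑ k, c k * y k) * z = 1 * z := by
      rw [Finset.sum_mul, one_mul]
      refine Eq.trans ?_ hc
      exact Finset.sum_congr rfl fun k _ => by rw [hy k]; ring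
    exact mul_right_cancel₀ hz0 h1
  have hsgn : (z.sign : ℤ) * z.sign = 1 := by
    rcases lt_or_gt_of_ne hz0 with h | h
    · rw [Int.sign_eq_neg_one_of_neg h]
      norm_num
    · rw [Int.sign_eq_one_of_pos h]
      norm_num
  refine ⟨fun k => z.sign * y k, z.natAbs, Int.natAbs_pos.2 hz0, ?_,
    Finsupp.equivFunOnFinite.symm fun k => (z.sign * c k).toNat,
    Finsupp.equivFunOnFinite.symm fun k => (-(z.sign * c k)).toNat, ?_⟩
  · funext k
    rw [Pi.smul_apply, nsmul_eq_mul, hy]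
    have h1 : (z.natAbs : ℤ) * z.sign = z := by
      rw [mul_comm]
      exact Int.sign_mul_natAbs z
    linear_combination - (y k) * h1
  · have h1 : zwt (fun k => z.sign * y k)
        (Finsupp.equivFunOnFinite.symm fun k => (z.sign * c k).toNat) -
        zwt (fun k => z.sign * y k)
        (Finsupp.equivFunOnFinite.symm fun k => (-(z.sign * c k)).toNat) = 1 := by
      unfold zwt
      rw [← Finset.sum_sub_distrib, ← hone]
      refine Finset.sum_congr rfl fun k _ => ?_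
      rw [Finsupp.coe_equivFunOnFinite_symm, Finsupp.coe_equivFunOnFinite_symm, ← mul_sub]
      have h2 : (((z.sign * c k).toNat : ℤ) - ((-(z.sign * c k)).toNat : ℤ)) = z.sign * c k :=
        Int.toNat_sub_toNat_neg _
      rw [h2]
      linear_combination (c k * y k) * hsgn
    linarith

end Pool.Agent.Q57.UG
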