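import Pool.Agent.Q57.UG.Null
import Pool.Agent.Q57.UG.Form

/-!
The toroidal divisors on the covers of products of projective varieties `V i`, over the zero sets of
`dim V i + 1` forms without common zeros.
-/

set_option autoImplicit false
set_option linter.overlappingInstances false
set_option linter.unusedSectionVars false
set_option maxHeartbeats 1000000

open FF MvPolynomial Pool.Agent.W603.LV Pool.Agent.W619.PQ
open Pool.Agent.W602.GT Pool.Agent.TH122.AB Pool.Agent.Q57.TP Pool.Agent.Q57.FG Pool.Agent.Q57.GG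

namespace Pool.Agent.Q57.UG

/-- the index of the hypersurfaces -/
abbrev Hyp {r : ℕ} (n : Fin r → ℕ) := (i : Fin r) × Fin (n i + 1)

/-- the index of the coordinates -/
abbrev Coo {r : ℕ} (n : Fin r → ℕ) := (i : Fin r) × Fin (n i)

variable {r p : ℕ} {n : Fin r → ℕ}

/-- the vectors of the faces: every block has a zero entry -/
def Face (v : Hyp n → ℕ) : Prop := ∀ i, ∃ k, v ⟨i, k⟩ = 0

/-- the orders of the ratios -/
def Lv (dg : Hyp n → ℕ) (v : Hyp n → ℕ) (b : Coo n) : ℤ :=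
  dg ⟨b.1, 0⟩ * v ⟨b.1, b.2.succ⟩ - dg ⟨b.1, b.2.succ⟩ * v ⟨b.1, 0⟩

theorem Face.smul {v : Hyp n → ℕ} (h : Face v) (k : ℕ) : Face (k • v) := by
  intro i
  obtain ⟨l, hl⟩ := h i
  exact ⟨l, by rw [Pi.smul_apply, hl, smul_zero]⟩

theorem Lv_smul (dg v : Hyp n → ℕ) (k : ℕ) (b : Coo n) : Lv dg (k • v) b = k * Lv dg v b := by
  unfold Lv
  simp only [Pi.smul_apply, smul_eq_mul]
  push_cast
  ring

theorem face_zero : Face (0 : Hyp n → ℕ) := fun _ => ⟨0, rfl⟩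

/-- **Uniqueness.** -/
theorem Lv_inj {dg : Hyp n → ℕ} (hd : ∀ b, 1 ≤ dg b) {v v' : Hyp n → ℕ} (hv : Face v)
    (hv' : Face v') (h : ∀ b, Lv dg v b = Lv dg v' b) : v = v' := by
  have key : ∀ {v v' : Hyp n → ℕ}, Face v' → (∀ b, Lv dg v b = Lv dg v' b) → ∀ i,
      v' ⟨i, 0⟩ ≤ v ⟨i, 0⟩ := by
    intro v v' hv' h i
    by_contra hcon
    push Not at hcon
    obtain ⟨k, hk⟩ := hv' i
    rcases Fin.eq_zero_or_eq_succ k with rfl | ⟨l, rfl⟩
    · omega
    · have h1 := h ⟨i, l⟩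
      unfold Lv at h1
      dsimp only at h1
      rw [hk, Nat.cast_zero, mul_zero, zero_sub] at h1
      have h2 : (0 : ℤ) ≤ (dg ⟨i, 0⟩ : ℤ) * v ⟨i, l.succ⟩ := by positivity
      have h3 : (1 : ℤ) ≤ dg ⟨i, l.succ⟩ := by exact_mod_cast hd _
      have h4 : (v ⟨i, 0⟩ : ℤ) + 1 ≤ v' ⟨i, 0⟩ := by exact_mod_cast hcon
      nlinarith
  have h0 : ∀ i, v ⟨i, 0⟩ = v' ⟨i, 0⟩ := fun i =>
    le_antisymm (key hv (fun b => (h b).symm) i) (key hv' h i)
  funext b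
  obtain ⟨i, k⟩ := b
  rcases Fin.eq_zero_or_eq_succ k with rfl | ⟨l, rfl⟩
  · exact h0 i
  · have h1 := h ⟨i, l⟩
    unfold Lv at h1
    dsimp only at h1
    rw [h0 i] at h1
    have h3 : (dg ⟨i, 0⟩ : ℤ) ≠ 0 := by
      have := hd ⟨i, 0⟩
      omega
    have h4 : (dg ⟨i, 0⟩ : ℤ) * v ⟨i, l.succ⟩ = dg ⟨i, 0⟩ * v' ⟨i, l.succ⟩ := by linarith
    exact_mod_cast mul_left_cancel₀ h3 h4

/-- homogeneous and at most piecewise linear functions on the faces -/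
structure PL (ψ : Fin p → (Hyp n → ℕ) → ℚ) (T : Finset (Hyp n → ℕ)) : Prop where
  hom : ∀ i v (k : ℕ), 1 ≤ k → Face v → ψ i (k • v) = k * ψ i v
  face : ∀ s ∈ T, Face s ∧ s ≠ 0
  gen : ∀ v, Face v → ∃ w : (Hyp n → ℕ) → ℚ, (∀ s, 0 ≤ w s) ∧
    (∀ b, (v b : ℚ) = ∑ s ∈ T, w s * s b) ∧ ∀ i, ψ i v ≤ ∑ s ∈ T, w s * ψ i s

/-- the linear part -/
def lin (dg : Hyp n → ℕ) (κ : Fin r → ℤ) (v : Hyp n → ℚ) : ℚ :=
  ∑ b, v b + ∑ i, (κ i : ℚ) * v ⟨i, 0⟩ / dg ⟨i, 0⟩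

theorem lin_smul (dg : Hyp n → ℕ) (κ : Fin r → ℤ) (v : Hyp n → ℕ) (k : ℕ) :
    lin dg κ (fun b => ((k • v) b : ℕ)) = k * lin dg κ fun b => (v b : ℚ) := by
  unfold lin
  rw [mul_add, Finset.mul_sum, Finset.mul_sum]
  congr 1
  · refine Finset.sum_congr rfl fun b _ => ?_
    simp only [Pi.smul_apply, smul_eq_mul]
    push_cast
    rfl
  · refine Finset.sum_congr rfl fun i _ => ?_
    simp only [Pi.smul_apply, smul_eq_mul]
    push_cast
    ring

theorem lin_sum (dg : Hyp n → ℕ) (κ : Fin r → ℤ) (T : Finset (Hyp n → ℕ))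
    (w : (Hyp n → ℕ) → ℚ) (v : Hyp n → ℚ) (hv : ∀ b, v b = ∑ s ∈ T, w s * s b) :
    lin dg κ v = ∑ s ∈ T, w s * lin dg κ fun b => (s b : ℚ) := by
  unfold lin
  simp only [mul_add, Finset.sum_add_distrib, Finset.mul_sum]
  congr 1
  · rw [Finset.sum_comm]
    exact Finset.sum_congr rfl fun b _ => hv b
  · rw [Finset.sum_comm]
    refine Finset.sum_congr rfl fun i _ => ?_
    rw [hv, Finset.mul_sum, Finset.sum_div]
    exact Finset.sum_congr rfl fun s _ => by ring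

section

variable {d : ℕ} (e : Coo n ≃ Fin (d + 1)) (dg : Hyp n → ℕ) (κ : Fin r → ℤ)

open scoped Classical in
/-- the function of the orders of the ratios -/
noncomputable def phi (f : (Hyp n → ℕ) → ℚ) (y : Fin (d + 1) → ℤ) : ℚ :=
  if h : ∃ kv : ℕ × (Hyp n → ℕ), 1 ≤ kv.1 ∧ Face kv.2 ∧ ∀ b, Lv dg kv.2 b = kv.1 * y (e b) then
    (f h.choose.2 - lin dg κ fun b => (h.choose.2 b : ℚ)) / h.choose.1 else 0

theorem phi_eq {dg : Hyp n → ℕ} (hd : ∀ b, 1 ≤ dg b) {f : (Hyp n → ℕ) → ℚ}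
    (hf : ∀ v (k : ℕ), 1 ≤ k → Face v → f (k • v) = k * f v) {y : Fin (d + 1) → ℤ} {k : ℕ}
    {v : Hyp n → ℕ} (hk : 1 ≤ k) (hv : Face v) (h : ∀ b, Lv dg v b = k * y (e b)) :
    phi e dg κ f y = (f v - lin dg κ fun b => (v b : ℚ)) / k := by
  classical
  have hex : ∃ kv : ℕ × (Hyp n → ℕ), 1 ≤ kv.1 ∧ Face kv.2 ∧
      ∀ b, Lv dg kv.2 b = kv.1 * y (e b) := ⟨(k, v), hk, hv, h⟩
  unfold phi
  rw [dif_pos hex]
  obtain ⟨h1, h2, h3⟩ := hex.choose_spec
  obtain ⟨k', hk'⟩ : ∃ k', k' = hex.choose.1 := ⟨_, rfl⟩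
  obtain ⟨v', hv'⟩ : ∃ v', v' = hex.choose.2 := ⟨_, rfl⟩
  rw [← hk'] at h1 h3 ⊢
  rw [← hv'] at h2 h3 ⊢
  have h4 : k • v' = k' • v := by
    refine Lv_inj hd (h2.smul k) (hv.smul k') fun b => ?_
    rw [Lv_smul, Lv_smul, h3, h]
    ring
  have h5 : (k : ℚ) * f v' = k' * f v := by
    rw [← hf v' k hk h2, ← hf v k' h1 hv, h4]
  have h6 : (k : ℚ) * (lin dg κ fun b => (v' b : ℚ)) = k' * lin dg κ fun b => (v b : ℚ) := by
    rw [← lin_smul, ← lin_smul, h4]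
  have hk0 : (k : ℚ) ≠ 0 := by
    have : k ≠ 0 := by omega
    exact_mod_cast this
  have hk0' : (k' : ℚ) ≠ 0 := by
    have : k' ≠ 0 := by omega
    exact_mod_cast this
  rw [div_eq_div_iff hk0' hk0]
  linear_combination h5 - h6

theorem phi_hom {dg : Hyp n → ℕ} (hd : ∀ b, 1 ≤ dg b) {f : (Hyp n → ℕ) → ℚ}
    (hf : ∀ v (k : ℕ), 1 ≤ k → Face v → f (k • v) = k * f v) (y : Fin (d + 1) → ℤ) (m : ℕ)
    (hm : 1 ≤ m) : phi e dg κ f (m • y) = m * phi e dg κ f y := by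
  classical
  by_cases hex : ∃ kv : ℕ × (Hyp n → ℕ), 1 ≤ kv.1 ∧ Face kv.2 ∧
      ∀ b, Lv dg kv.2 b = kv.1 * y (e b)
  · obtain ⟨⟨k, v⟩, hk, hv, h⟩ := hex
    rw [phi_eq e κ hd hf hk hv h, phi_eq e κ hd hf (y := m • y) hk (hv.smul m) fun b => by
      rw [Lv_smul, h, Pi.smul_apply, nsmul_eq_mul]
      ring, hf v m hm hv, lin_smul]
    ring
  · have hex' : ¬ ∃ kv : ℕ × (Hyp n → ℕ), 1 ≤ kv.1 ∧ Face kv.2 ∧
        ∀ b, Lv dg kv.2 b = kv.1 * (m • y) (e b) := by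
      rintro ⟨⟨k, v⟩, hk, hv, h⟩
      refine hex ⟨(k * m, v), Nat.mul_pos hk hm, hv, fun b => ?_⟩
      rw [h, Pi.smul_apply, nsmul_eq_mul]
      push_cast
      ring
    unfold phi
    rw [dif_neg hex, dif_neg hex', mul_zero]

/-- the test vectors -/
def tv (T : Finset (Hyp n → ℕ)) (s : T) (k : Fin (d + 1)) : ℤ := Lv dg s.1 (e.symm k)

theorem tv_ne {dg : Hyp n → ℕ} (hd : ∀ b, 1 ≤ dg b) {ψ : Fin p → (Hyp n → ℕ) → ℚ}
    {T : Finset (Hyp n → ℕ)} (hψ : PL ψ T) (s : T) : tv e dg T s ≠ 0 := by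
  intro h0
  refine (hψ.face s.1 s.2).2 (Lv_inj hd (hψ.face s.1 s.2).1 face_zero fun b => ?_)
  have h1 := congrFun h0 (e b)
  unfold tv at h1
  rw [e.symm_apply_apply, Pi.zero_apply] at h1
  rw [h1]
  unfold Lv
  simp

theorem phi_tv {dg : Hyp n → ℕ} (hd : ∀ b, 1 ≤ dg b) {ψ : Fin p → (Hyp n → ℕ) → ℚ}
    {T : Finset (Hyp n → ℕ)} (hψ : PL ψ T) (i : Fin p) (s : T) :
    phi e dg κ (ψ i) (tv e dg T s) = ψ i s.1 - lin dg κ fun b => (s.1 b : ℚ) := by
  rw [phi_eq e κ hd (fun v k hk hv => hψ.hom i v k hk hv) (k := 1) (v := s.1) le_rfl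
    (hψ.face s.1 s.2).1 fun b => by
      unfold tv
      rw [e.symm_apply_apply, Nat.cast_one, one_mul]]
  rw [Nat.cast_one, div_one]

/-- the cone of the test vectors is the whole space -/
theorem tv_span {dg : Hyp n → ℕ} (hd : ∀ b, 1 ≤ dg b) {ψ : Fin p → (Hyp n → ℕ) → ℚ}
    {T : Finset (Hyp n → ℕ)} (hψ : PL ψ T) (u : Fin (d + 1) → ℤ)
    (hu : ∀ s, 0 ≤ ∑ k, tv e dg T s k * u k) : u = 0 := by
  classical
  have key : ∀ v : Hyp n → ℕ, Face v → 0 ≤ ∑ b, Lv dg v b * u (e b) := by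
    intro v hv
    obtain ⟨w, hw, hwv, -⟩ := hψ.gen v hv
    have h1 : ((∑ b, Lv dg v b * u (e b) : ℤ) : ℚ) =
        ∑ s : T, w s.1 * ((∑ k, tv e dg T s k * u k : ℤ) : ℚ) := by
      have h2 : ∀ s : T, ∑ k, tv e dg T s k * u k = ∑ b, Lv dg s.1 b * u (e b) := by
        intro s
        rw [← Equiv.sum_comp e]
        refine Finset.sum_congr rfl fun b _ => ?_
        unfold tv
        rw [e.symm_apply_apply]
      simp only [h2]
      rw [Finset.sum_coe_sort T fun s => w s * ((∑ b, Lv dg s b * u (e b) : ℤ) : ℚ)]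
      push_cast
      simp only [Finset.mul_sum]
      rw [Finset.sum_comm]
      refine Finset.sum_congr rfl fun b _ => ?_
      have h3 : ((Lv dg v b : ℤ) : ℚ) = ∑ s ∈ T, w s * ((Lv dg s b : ℤ) : ℚ) := by
        unfold Lv
        push_cast
        rw [hwv, hwv, Finset.mul_sum, Finset.mul_sum, ← Finset.sum_sub_distrib]
        exact Finset.sum_congr rfl fun s _ => by ring
      rw [h3, Finset.sum_mul]
      exact Finset.sum_congr rfl fun s _ => by ring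
    have h2 : (0 : ℚ) ≤ ((∑ b, Lv dg v b * u (e b) : ℤ) : ℚ) := by
      rw [h1]
      exact Finset.sum_nonneg fun s _ => mul_nonneg (hw _) (by exact_mod_cast hu s)
    exact_mod_cast h2
  have hface : ∀ (b : Coo n) (k : Fin (n b.1 + 1)), Face (Pi.single ⟨b.1, k⟩ 1 : Hyp n → ℕ) := by
    intro b k j
    by_cases hj : j = b.1
    · subst hj
      have h : Nontrivial (Fin (n b.1 + 1)) := by
        refine ⟨⟨0, Fin.last _, fun h0 => ?_⟩⟩
        have h1 := congrArg Fin.val h0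
        have h2 := b.2.2
        simp at h1
        omega
      obtain ⟨l, hl⟩ := exists_ne k
      refine ⟨l, ?_⟩
      rw [Pi.single_eq_of_ne]
      intro h0
      exact hl (eq_of_heq (Sigma.mk.inj h0).2)
    · refine ⟨0, ?_⟩
      rw [Pi.single_eq_of_ne]
      intro h0
      exact hj (Sigma.mk.inj h0).1
  have hdz : ∀ b, (1 : ℤ) ≤ dg b := fun b => by exact_mod_cast hd b
  have hnn : ∀ b : Coo n, 0 ≤ u (e b) := by
    intro b
    have h1 := key _ (hface b b.2.succ)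
    rw [Finset.sum_eq_single b] at h1
    · unfold Lv at h1
      rw [Pi.single_eq_same, Pi.single_eq_of_ne] at h1
      · simp only [Nat.cast_one, mul_one, Nat.cast_zero, mul_zero, sub_zero] at h1
        exact nonneg_of_mul_nonneg_right h1 (by have := hdz ⟨b.1, 0⟩; linarith)
      · intro h0
        exact absurd (eq_of_heq (Sigma.mk.inj h0).2) (Fin.succ_ne_zero _).symm
    · intro b' _ hb'
      unfold Lv
      rw [Pi.single_eq_of_ne, Pi.single_eq_of_ne]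
      · simp
      · intro h0
        exact absurd h0 (by
          obtain ⟨i', k'⟩ := b'
          obtain ⟨i, k⟩ := b
          intro h1
          obtain ⟨h2, h3⟩ := Sigma.mk.inj h1
          dsimp only at h2
          subst h2
          exact absurd (eq_of_heq h3) (Fin.succ_ne_zero _).symm)
      · intro h0
        apply hb'
        obtain ⟨i', k'⟩ := b'
        obtain ⟨i, k⟩ := b
        obtain ⟨h2, h3⟩ := Sigma.mk.inj h0
        dsimp only at h2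
        subst h2
        have h5 : k'.succ = k.succ := eq_of_heq h3
        rw [Fin.succ_injective _ h5]
    · intro h
      exact absurd (Finset.mem_univ _) h
  funext k
  obtain ⟨b, rfl⟩ := e.surjective k
  rw [Pi.zero_apply]
  have h1 := key _ (hface b 0)
  have hle : ∀ b' : Coo n, Lv dg (Pi.single ⟨b.1, 0⟩ 1 : Hyp n → ℕ) b' * u (e b') ≤ 0 := by
    intro b'
    have h2 : Lv dg (Pi.single ⟨b.1, 0⟩ 1 : Hyp n → ℕ) b' ≤ 0 := by
      unfold Lv
      have h3 : (Pi.single ⟨b.1, 0⟩ 1 : Hyp n → ℕ) ⟨b'.1, b'.2.succ⟩ = 0 := by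
        rw [Pi.single_eq_of_ne]
        intro h0
        obtain ⟨i', k'⟩ := b'
        obtain ⟨i, k⟩ := b
        obtain ⟨h4, h5⟩ := Sigma.mk.inj h0
        dsimp only at h4
        subst h4
        exact absurd (eq_of_heq h5) (Fin.succ_ne_zero _)
      rw [h3, Nat.cast_zero, mul_zero, zero_sub]
      have : (0 : ℤ) ≤ (dg ⟨b'.1, b'.2.succ⟩ : ℤ) *
        ((Pi.single ⟨b.1, 0⟩ 1 : Hyp n → ℕ) ⟨b'.1, 0⟩ : ℕ) := by positivity
      linarith
    exact mul_nonpos_of_nonpos_of_nonneg h2 (hnn b')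
  have h2 := (Finset.sum_eq_zero_iff_of_nonpos fun b' _ => hle b').1
    (le_antisymm (Finset.sum_nonpos fun b' _ => hle b') h1) b (Finset.mem_univ b)
  refine (mul_eq_zero.1 h2).resolve_left ?_
  unfold Lv
  rw [Pi.single_eq_same, Pi.single_eq_of_ne]
  · have := hdz ⟨b.1, b.2.succ⟩
    simp only [Nat.cast_one, mul_one, Nat.cast_zero, mul_zero, zero_sub]
    omega
  · intro h0
    exact absurd (eq_of_heq (Sigma.mk.inj h0).2) (Fin.succ_ne_zero _)

end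

end Pool.Agent.Q57.UG
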