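import Pool.Agent.Q57.UG.Fam

/-!
The set-up: the coordinates in which the divisors are given by functions of the orders.
-/

set_option autoImplicit false
set_option linter.overlappingInstances false
set_option linter.unusedSectionVars false
set_option maxHeartbeats 1000000

open FF MvPolynomial Pool.Agent.W603.LV Pool.Agent.W619.PQ
open Pool.Agent.W602.GT Pool.Agent.TH122.AB Pool.Agent.Q57.TP Pool.Agent.Q57.FG Pool.Agent.Q57.GG

namespace Pool.Agent.Q57.UG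

variable {r p N : ℕ} {n M : Fin r → ℕ} {K : Type} [Field K] [Algebra ℂ K]

/-- the ratios of the forms -/
noncomputable def rat (F : ∀ b : Hyp n, MvPolynomial (Fin (M b.1 + 1)) ℂ) (dg : Hyp n → ℕ)
    (x : ∀ i, Fin (M i + 1) → K) (b : Coo n) : K :=
  aeval (x b.1) (F ⟨b.1, b.2.succ⟩) ^ dg ⟨b.1, 0⟩ /
    aeval (x b.1) (F ⟨b.1, 0⟩) ^ dg ⟨b.1, b.2.succ⟩

/-- the multiplicities of the hypersurfaces -/
noncomputable def mulU (F : ∀ b : Hyp n, MvPolynomial (Fin (M b.1 + 1)) ℂ) (dg : Hyp n → ℕ)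
    (x : ∀ i, Fin (M i + 1) → K) (P : Place ℂ K) (b : Hyp n) : ℕ :=
  (P.ord (aeval (x b.1) (F b)) - dg b * minO (x b.1) P).toNat

/-- the forms have no common zeros -/
def NoZ (F : ∀ b : Hyp n, MvPolynomial (Fin (M b.1 + 1)) ℂ) (x : ∀ i, Fin (M i + 1) → K) : Prop :=
  ∀ i, ∀ y : Fin (M i + 1) → ℂ, y ≠ 0 →
    (∀ (G : MvPolynomial (Fin (M i + 1)) ℂ) (m : ℕ), G.IsHomogeneous m → aeval (x i) G = 0 →
      eval y G = 0) → ∃ k, eval y (F ⟨i, k⟩) ≠ 0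

/-- the minimal order of a form at the vector fields which are regular at `P` -/
noncomputable def moG (Ω : (Fin N → Derivation ℂ K K) → K) (P : Place ℂ K) : ℤ :=
  sInf {k : ℤ | ∃ D : Fin N → Derivation ℂ K K, (∀ c, DerReg P (D c)) ∧ Ω D ≠ 0 ∧
    P.ord (Ω D) = k}

/-- the log discrepancy -/
noncomputable def lDU (F : ∀ b : Hyp n, MvPolynomial (Fin (M b.1 + 1)) ℂ) (dg : Hyp n → ℕ)
    (κ : Fin r → ℤ) (x : ∀ i, Fin (M i + 1) → K) (Ω : (Fin N → Derivation ℂ K K) → K)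
    (P : Place ℂ K) : ℤ :=
  moG Ω P + 1 - ∑ b, (mulU F dg x P b : ℤ) + ∑ i, κ i * minO (x i) P

/-- finitely generated fields are finite over the field generated by a transcendence basis -/
theorem fin_ess [Algebra.EssFiniteType ℂ K] {d : ℕ} {Y : Fin d → K}
    (hY : IsTranscendenceBasis ℂ Y) :
    FiniteDimensional (IntermediateField.adjoin ℂ (Set.range Y)) K := by
  classical
  obtain ⟨S, hS⟩ := IntermediateField.fg_top ℂ K
  have halg : Algebra.IsAlgebraic (IntermediateField.adjoin ℂ (Set.range Y)) K :=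
    hY.isAlgebraic_field
  refine (fin_of_gen (IntermediateField.adjoin ℂ (Set.range Y)) (S := (S : Set K))
    S.finite_toSet (fun L _ hSL => ?_)
    (fun z _ => (Algebra.IsAlgebraic.isAlgebraic z).isIntegral)).1
  rw [eq_top_iff, ← hS, IntermediateField.adjoin_le_iff]
  exact hSL

section

variable {F : ∀ b : Hyp n, MvPolynomial (Fin (M b.1 + 1)) ℂ} {dg : Hyp n → ℕ}
  {x : ∀ i, Fin (M i + 1) → K}

theorem F_ne_of (hn : ∀ i, 1 ≤ n i) (hd : ∀ b, 1 ≤ dg b)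
    (hbas : IsTranscendenceBasis ℂ (rat F dg x)) (b : Hyp n) : aeval (x b.1) (F b) ≠ 0 := by
  obtain ⟨i, k⟩ := b
  rcases Fin.eq_zero_or_eq_succ k with rfl | ⟨l, rfl⟩
  · intro h0
    have h1 := hbas.1.ne_zero (⟨i, ⟨0, hn i⟩⟩ : Coo n)
    apply h1
    unfold rat
    dsimp only at h0 ⊢
    rw [h0, zero_pow (by have := hd ⟨i, Fin.succ ⟨0, hn i⟩⟩; omega), div_zero]
  · intro h0
    have h1 := hbas.1.ne_zero (⟨i, l⟩ : Coo n)
    apply h1
    unfold rat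
    dsimp only at h0 ⊢
    rw [h0, zero_pow (by have := hd ⟨i, 0⟩; omega), zero_div]

/-- the multiplicities -/
theorem ord_F (hF : ∀ b, (F b).IsHomogeneous (dg b)) (hF0 : ∀ b : Hyp n, aeval (x b.1) (F b) ≠ 0)
    (P : Place ℂ K) (b : Hyp n) :
    P.ord (aeval (x b.1) (F b)) = dg b * minO (x b.1) P + mulU F dg x P b := by
  have h1 := (ge_hom (x b.1) P (hF b)).resolve_left (hF0 b)
  unfold mulU
  rw [Int.toNat_of_nonneg (by linarith)]
  ring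

theorem mul_face (hx : ∀ i j, x i j ≠ 0) (hF : ∀ b, (F b).IsHomogeneous (dg b))
    (hF0 : ∀ b : Hyp n, aeval (x b.1) (F b) ≠ 0) (hno : NoZ F x) (P : Place ℂ K) :
    Face (mulU F dg x P) := by
  intro i
  obtain ⟨k, hk⟩ := exists_min (hx i) (F := fun k => F ⟨i, k⟩) (d := fun k => dg ⟨i, k⟩)
    (fun k => hF ⟨i, k⟩) (fun k => hF0 ⟨i, k⟩) (hno i) P
  refine ⟨k, ?_⟩
  unfold mulU
  dsimp only at hk ⊢
  rw [hk, sub_self]
  rfl

theorem ord_rat (hF : ∀ b, (F b).IsHomogeneous (dg b))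
    (hF0 : ∀ b : Hyp n, aeval (x b.1) (F b) ≠ 0) (P : Place ℂ K) (b : Coo n) :
    P.ord (rat F dg x b) = Lv dg (mulU F dg x P) b := by
  have h1 := hF0 ⟨b.1, b.2.succ⟩
  have h2 := hF0 ⟨b.1, 0⟩
  have h3 := ord_F hF hF0 P ⟨b.1, b.2.succ⟩
  have h4 := ord_F hF hF0 P ⟨b.1, 0⟩
  dsimp only at h1 h2 h3 h4
  unfold rat Lv
  rw [P.ord_div (pow_ne_zero _ h1) (pow_ne_zero _ h2), P.ord_pow, P.ord_pow, h3, h4]
  ring

end

/-- the exponent -/
def qq (dg : Hyp n → ℕ) : ℕ := ∏ i, dg ⟨i, 0⟩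

theorem qq_div {dg : Hyp n → ℕ} (hd : ∀ b, 1 ≤ dg b) (i : Fin r) :
    1 ≤ qq dg ∧ ((qq dg / dg ⟨i, 0⟩ : ℕ) : ℚ) / qq dg = 1 / dg ⟨i, 0⟩ := by
  have h0 : 0 < qq dg := Finset.prod_pos fun i _ => hd ⟨i, 0⟩
  have h1 : dg ⟨i, 0⟩ ∣ qq dg := Finset.dvd_prod_of_mem (fun i => dg ⟨i, 0⟩) (Finset.mem_univ i)
  have h2 : (0 : ℚ) < dg ⟨i, 0⟩ := by exact_mod_cast hd ⟨i, 0⟩
  have h3 : (0 : ℚ) < qq dg := by exact_mod_cast h0
  refine ⟨h0, ?_⟩
  rw [Nat.cast_div h1 (ne_of_gt h2)]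
  field_simp

/-- **The set-up.** -/
theorem setup_u {d : ℕ} (e : Coo n ≃ Fin (d + 1)) (hn : ∀ i, 1 ≤ n i) {dg : Hyp n → ℕ}
    (hd : ∀ b, 1 ≤ dg b) (κ : Fin r → ℤ) {ψ : Fin p → (Hyp n → ℕ) → ℚ}
    {T : Finset (Hyp n → ℕ)} (hψ : PL ψ T) [Algebra.EssFiniteType ℂ K]
    {F : ∀ b : Hyp n, MvPolynomial (Fin (M b.1 + 1)) ℂ} (hF : ∀ b, (F b).IsHomogeneous (dg b))
    {x : ∀ i, Fin (M i + 1) → K} (hx : ∀ i j, x i j ≠ 0) (hno : NoZ F x)
    (hbas : IsTranscendenceBasis ℂ (rat F dg x)) :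
    Data (fun k => rat F dg x (e.symm k)) (tv e dg T)
      (fun i (s : T) => ψ i s.1 - lin dg κ fun b => (s.1 b : ℚ))
      (fun i => phi e dg κ (ψ i)) ∧
    ∃ G : K, G ≠ 0 ∧ ∀ (Ω : (Fin (d + 1) → Derivation ℂ K K) → K) (i : Fin p) (P : Place ℂ K),
      1 - ψ i (mulU F dg x P) - lDU F dg κ x Ω P =
        - phi e dg κ (ψ i) (vec (fun k => rat F dg x (e.symm k)) P) - moF Ω P -
          (P.ord G : ℚ) / qq dg := by
  classical
  have hF0 := F_ne_of hn hd hbas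
  have hY : IsTranscendenceBasis ℂ fun k => rat F dg x (e.symm k) := hbas.comp_equiv e.symm
  have hvec : ∀ P : Place ℂ K, ∀ b, Lv dg (mulU F dg x P) b =
      (1 : ℕ) * vec (fun k => rat F dg x (e.symm k)) P (e b) := by
    intro P b
    unfold vec
    dsimp only
    rw [e.symm_apply_apply, ord_rat hF hF0, Nat.cast_one, one_mul]
  have hphi : ∀ i (P : Place ℂ K), phi e dg κ (ψ i) (vec (fun k => rat F dg x (e.symm k)) P) =
      ψ i (mulU F dg x P) - lin dg κ fun b => (mulU F dg x P b : ℚ) := by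
    intro i P
    rw [phi_eq e κ hd (fun v k hk hv => hψ.hom i v k hk hv) le_rfl
      (mul_face hx hF hF0 hno P) (hvec P), Nat.cast_one, div_one]
  refine ⟨⟨hY, fin_ess hY, tv_ne e hd hψ, fun i v m hm =>
    phi_hom e κ hd (fun v k hk hv => hψ.hom i v k hk hv) v m hm, phi_tv e κ hd hψ,
    fun P _ => ?_⟩, ∏ i, aeval (x i) (F ⟨i, 0⟩) ^ (κ i * (qq dg / dg ⟨i, 0⟩ : ℕ)), ?_,
    fun Ω i P => ?_⟩
  · obtain ⟨w, hw, hwv, hwψ⟩ := hψ.gen _ (mul_face hx hF hF0 hno P)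
    refine ⟨fun s => w s.1, fun s => hw _, fun k => ?_, fun i => ?_⟩
    · obtain ⟨b, rfl⟩ := e.surjective k
      have h1 := hvec P b
      unfold vec at h1
      rw [Nat.cast_one, one_mul] at h1
      rw [← h1]
      unfold tv
      rw [e.symm_apply_apply, Finset.sum_coe_sort T fun s => w s * ((Lv dg s b : ℤ) : ℚ)]
      unfold Lv
      push_cast
      rw [hwv, hwv, Finset.mul_sum, Finset.mul_sum, ← Finset.sum_sub_distrib]
      exact Finset.sum_congr rfl fun s _ => by ring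
    · rw [hphi, lin_sum dg κ T w _ hwv,
        Finset.sum_coe_sort T fun s => w s * (ψ i s - lin dg κ fun b => (s b : ℚ))]
      simp only [mul_sub, Finset.sum_sub_distrib]
      linarith [hwψ i]
  · exact Finset.prod_ne_zero_iff.2 fun i _ => zpow_ne_zero _ (hF0 ⟨i, 0⟩)
  · rw [hphi, ord_prod' P Finset.univ _ fun i _ => zpow_ne_zero _ (hF0 ⟨i, 0⟩)]
    have h1 : ((∑ i, P.ord (aeval (x i) (F ⟨i, 0⟩) ^ (κ i * (qq dg / dg ⟨i, 0⟩ : ℕ))) : ℤ) : ℚ) /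
        qq dg = ∑ i, (κ i : ℚ) * minO (x i) P +
          ∑ i, (κ i : ℚ) * mulU F dg x P ⟨i, 0⟩ / dg ⟨i, 0⟩ := by
      rw [Int.cast_sum, Finset.sum_div, ← Finset.sum_add_distrib]
      refine Finset.sum_congr rfl fun i _ => ?_
      obtain ⟨-, h2⟩ := qq_div hd i
      rw [P.ord_zpow, ord_F hF hF0 P ⟨i, 0⟩]
      have h3 : (0 : ℚ) < dg ⟨i, 0⟩ := by exact_mod_cast hd ⟨i, 0⟩
      push_cast
      calc (κ i : ℚ) * ((qq dg / dg ⟨i, 0⟩ : ℕ) : ℚ) * (dg ⟨i, 0⟩ * minO (x i) P +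
            mulU F dg x P ⟨i, 0⟩) / qq dg =
          (κ i : ℚ) * (dg ⟨i, 0⟩ * minO (x i) P + mulU F dg x P ⟨i, 0⟩) *
            (((qq dg / dg ⟨i, 0⟩ : ℕ) : ℚ) / qq dg) := by ring
        _ = _ := by
          rw [h2]
          field_simp
    rw [h1]
    unfold lDU lin
    have h2 : moG Ω P = moF Ω P := rfl
    rw [h2]
    push_cast
    ring

/-- **The main theorem.** -/
theorem main_u (hn : ∀ i, 1 ≤ n i) (hN1 : 1 ≤ N) (hN : N = ∑ i, n i) {dg : Hyp n → ℕ}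
    (hd : ∀ b, 1 ≤ dg b) (κ : Fin r → ℤ) {ψ : Fin p → (Hyp n → ℕ) → ℚ}
    (hψ : ∃ T, PL ψ T) :
    ∃ (N0 : ℕ) (g : Fin N0 → Fin p →₀ ℕ), (∀ b, g b ≠ 0) ∧
      ∀ (K : Type) [Field K] [Algebra ℂ K] [Algebra.EssFiniteType ℂ K] (M : Fin r → ℕ)
        (F : ∀ b : Hyp n, MvPolynomial (Fin (M b.1 + 1)) ℂ) (x : ∀ i, Fin (M i + 1) → K)
        (Ω : (Fin N → Derivation ℂ K K) → K) (δ : Fin p → Place ℂ K → ℚ),
        (∀ b, (F b).IsHomogeneous (dg b)) → (∀ i j, x i j ≠ 0) → NoZ F x →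
        IsTranscendenceBasis ℂ (rat F dg x) → IsPluri 1 Ω → Ω ≠ 0 →
        (∀ i P, δ i P = 1 - ψ i (mulU F dg x P) - lDU F dg κ x Ω P) →
        ∃ ω : Fin N0 → (Fin N → Derivation ℂ K K) → K,
          (∀ b, g b ≠ 0 ∧ MSec N δ (g b) (ω b)) ∧
          (∀ (P : Place ℂ K) (S : Finset K) (D : Fin N → Derivation ℂ K K), ∃ C1 : ℕ,
            ∀ (μ : Fin p →₀ ℕ) (j : ℕ) (η : (Fin N → Derivation ℂ K K) → K), μ ≠ 0 →
              ASec N δ S μ j η → η D = 0 ∨ ((∀ b, ω b D ≠ 0) ∧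
                ∃ e : Fin N0 → ℕ,
                  (∀ i, |∑ b, (e b : ℤ) * g b i - μ i| ≤ C1 * (j + 1)) ∧
                  ∑ b, (e b : ℤ) * P.ord (ω b D) ≤ P.ord (η D) + C1 * (j + 1))) ∧
          (∃ P : Place ℂ K, Divisorial N P) ∧
          ∃ (w : (Fin N → Derivation ℂ K K) → K) (u : K) (D0 : Fin N → Derivation ℂ K K),
            u ≠ 0 ∧ (∀ b, ω b D0 ≠ 0) ∧
            ∀ (m : ℕ) (η : (Fin N → Derivation ℂ K K) → K), IsPluri m η →
              ∀ D, η D * u ^ m = w D ^ m * η D0 := by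
  classical
  obtain ⟨T, hψ⟩ := hψ
  obtain ⟨d, rfl⟩ : ∃ d, N = d + 1 := ⟨N - 1, by omega⟩
  let e : Coo n ≃ Fin (d + 1) := finSigmaFinEquiv.trans (finCongr (by omega))
  obtain ⟨N0, g, U, hg0, hgU, happ⟩ := exists_gen (tv e dg T)
    (fun i (s : T) => ψ i s.1 - lin dg κ fun b => (s.1 b : ℚ)) (tv_span e hd hψ)
  have hq : 1 ≤ qq dg := by
    have h0 : 0 < qq dg := Finset.prod_pos fun i _ => hd ⟨i, 0⟩
    exact h0
  refine ⟨N0, fun b => qq dg • g b, fun b h0 => ?_, ?_⟩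
  · apply hg0 b
    ext i
    have h1 := DFunLike.congr_fun h0 i
    rw [Finsupp.smul_apply, smul_eq_mul] at h1
    rcases Nat.mul_eq_zero.1 h1 with h2 | h2
    · omega
    · exact h2
  · intro K _ _ _ M F x Ω δ hF hx hno hbas hΩ hΩ0 hδ
    obtain ⟨H, G, hG, hGδ⟩ := setup_u (p := p) e hn hd κ hψ hF hx hno hbas
    exact ⟨_, form_u H hg0 hgU happ hΩ hΩ0 hG hq fun i P _ => by rw [hδ, hGδ]⟩

end Pool.Agent.Q57.UG
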