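import Pool.Agent.Q57.UG.Gen2
import Pool.Agent.Q57.UG.Setup
import Pool.Agent.Q57.FG.FgA

/-!
The finite generation of the multigraded ring.
-/

set_option autoImplicit false
set_option linter.overlappingInstances false
set_option linter.unusedSectionVars false
set_option maxHeartbeats 1000000

open FF MvPolynomial Pool.Agent.W603.LV Pool.Agent.W619.PQ
open Pool.Agent.W602.GT Pool.Agent.TH122.AB Pool.Agent.Q57.TP Pool.Agent.Q57.FG Pool.Agent.Q57.GG
open Pool.Agent.Y169.CH Pool.Agent.Y169.CH.Cvr Pool.Agent.Q57.GM Pool.Agent.Y169.TH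

namespace Pool.Agent.Q57.UG

variable {d p : ℕ} {ι : Type} [Fintype ι] {K : Type} [Field K] [Algebra ℂ K]

/-- the element of a lattice point -/
noncomputable def gmU (Y : Fin (d + 1) → K) (Ω : (Fin (d + 1) → Derivation ℂ K K) → K) (G : K)
    (q : ℕ) (z : K) (ρ : Fin p →₀ ℕ) (γ : (Fin p → ℤ) × (Fin (d + 1) → ℤ)) :
    (Fin (d + 1) → Derivation ℂ K K) → MvPolynomial (Fin p) K :=
  hom (q • toN γ.1 + ρ) fun D =>
    mnU Y γ.2 * z * (Ω D ^ q * G) ^ (∑ i, toN γ.1 i) * Ω D ^ (∑ i, ρ i)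

theorem mnU_add {Y : Fin (d + 1) → K} (hY : ∀ k, Y k ≠ 0) (u u' : Fin (d + 1) → ℤ) :
    mnU Y (u + u') = mnU Y u * mnU Y u' := by
  unfold mnU
  rw [← Finset.prod_mul_distrib]
  exact Finset.prod_congr rfl fun k _ => by rw [Pi.add_apply, zpow_add₀ (hY k)]

theorem gmU_mul {Y : Fin (d + 1) → K} (hY : ∀ k, Y k ≠ 0)
    (Ω : (Fin (d + 1) → Derivation ℂ K K) → K) (G : K) (q : ℕ)
    {γ γ' : (Fin p → ℤ) × (Fin (d + 1) → ℤ)} (h : ∀ i, 0 ≤ γ.1 i)
    (h' : ∀ i, 0 ≤ γ'.1 i) (z z' : K) (ρ ρ' : Fin p →₀ ℕ) :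
    gmU Y Ω G q (z * z') (ρ + ρ') (γ + γ') = gmU Y Ω G q z ρ γ * gmU Y Ω G q z' ρ' γ' := by
  funext D
  unfold gmU hom
  rw [Pi.mul_apply, monomial_mul, Prod.fst_add, toN_add h h', Prod.snd_add, mnU_add hY]
  have h0 : q • (toN γ.1 + toN γ'.1) + (ρ + ρ') = q • toN γ.1 + ρ + (q • toN γ'.1 + ρ') := by
    rw [smul_add]
    abel
  rw [h0]
  congr 1
  have h1 : ∑ i, (toN γ.1 + toN γ'.1) i = ∑ i, toN γ.1 i + ∑ i, toN γ'.1 i := by
    rw [← Finset.sum_add_distrib]
    rfl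
  have h2 : ∑ i, (ρ + ρ') i = ∑ i, ρ i + ∑ i, ρ' i := by
    rw [← Finset.sum_add_distrib]
    rfl
  dsimp only
  rw [h1, h2, pow_add, pow_add]
  ring

theorem gmU_zero (Y : Fin (d + 1) → K) (Ω : (Fin (d + 1) → Derivation ℂ K K) → K) (G : K)
    (q : ℕ) : gmU (p := p) Y Ω G q 1 0 0 = 1 := by
  funext D
  unfold gmU hom
  rw [Prod.fst_zero, toN_zero, Prod.snd_zero, smul_zero, add_zero]
  have h1 : mnU Y (0 : Fin (d + 1) → ℤ) = 1 := by
    unfold mnU
    simp
  have h2 : ∑ i, (0 : Fin p →₀ ℕ) i = 0 := by simp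
  dsimp only
  rw [h1, h2, pow_zero, pow_zero, mul_one, mul_one, mul_one]
  rfl

/-- the numerical data: a lattice and generators of the semigroup -/
theorem exists_latt (t : ι → Fin (d + 1) → ℤ) (a : Fin p → ι → ℚ)
    (hspan : ∀ u : Fin (d + 1) → ℤ, (∀ s, 0 ≤ ∑ k, t s k * u k) → u = 0) (q : ℕ) :
    ∃ (L : ℕ) (qi : Fin p → ι → ℤ) (G0 : Finset ((Fin p → ℤ) × (Fin (d + 1) → ℤ))) (T : ℕ),
      0 < L ∧ (∀ i s, (L : ℚ) * (q * a i s) = qi i s) ∧
      (∀ g ∈ G0, g ≠ 0 ∧ ∀ s, 0 ≤ consU t L qi g s) ∧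
      (∀ γ, (∀ s, 0 ≤ consU t L qi γ s) →
        γ ∈ AddSubmonoid.closure (G0 : Set ((Fin p → ℤ) × (Fin (d + 1) → ℤ)))) ∧
      ∀ g ∈ G0, ∑ i, (q • toN g.1) i ≤ T := by
  classical
  obtain ⟨L, hL, hden⟩ := exists_den fun s : Fin p × ι => a s.1 s.2
  choose q' hq' using hden
  obtain ⟨qi, hqi⟩ : ∃ qi : Fin p → ι → ℤ, qi = fun i s => q * q' (i, s) := ⟨_, rfl⟩
  have hqs : ∀ i s, (L : ℚ) * (q * a i s) = qi i s := fun i s => by
    rw [hqi]
    have h1 := hq' (i, s)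
    dsimp only at h1 ⊢
    push_cast
    rw [← h1]
    ring
  obtain ⟨G0, hG1, hG2⟩ := gordan (consU t L qi) (consU_inj hL qi hspan)
  exact ⟨L, qi, G0, ∑ g ∈ G0, ∑ i, (q • toN g.1) i, hL, hqs, hG1, hG2, fun g hg =>
    Finset.single_le_sum (f := fun g : (Fin p → ℤ) × (Fin (d + 1) → ℤ) =>
      ∑ i, (q • toN g.1) i) (fun _ _ => Nat.zero_le _) hg⟩

/-- **The finite generation.** -/
theorem fg_u {Y : Fin (d + 1) → K} {t : ι → Fin (d + 1) → ℤ} {a : Fin p → ι → ℚ}
    {φ : Fin p → (Fin (d + 1) → ℤ) → ℚ} (H : Data Y t a φ)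
    {q : ℕ} {L : ℕ} {qi : Fin p → ι → ℤ} {G0 : Finset ((Fin p → ℤ) × (Fin (d + 1) → ℤ))} {T : ℕ}
    (hL : 0 < L) (hqs : ∀ i s, (L : ℚ) * (q * a i s) = qi i s)
    (hG1 : ∀ g ∈ G0, g ≠ 0 ∧ ∀ s, 0 ≤ consU t L qi g s)
    (hG2 : ∀ γ, (∀ s, 0 ≤ consU t L qi γ s) →
        γ ∈ AddSubmonoid.closure (G0 : Set ((Fin p → ℤ) × (Fin (d + 1) → ℤ))))
    (hT : ∀ g ∈ G0, ∑ i, (q • toN g.1) i ≤ T)
    {Ω : (Fin (d + 1) → Derivation ℂ K K) → K} (hΩ : IsPluri 1 Ω)
    (hΩ0 : Ω ≠ 0) {G : K} (hG : G ≠ 0) (hq : 1 ≤ q) {δ : Fin p → Place ℂ K → ℚ}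
    (hδ : ∀ i P, IsDivisorial P (d + 1) →
      δ i P = - φ i (vec Y P) - moF Ω P - (P.ord G : ℚ) / q) :
    ∃ (D0 : Fin (d + 1) → Derivation ℂ K K)
      (GG FF' : Finset ((Fin (d + 1) → Derivation ℂ K K) → MvPolynomial (Fin p) K)),
      (∀ (m : ℕ) (ω : (Fin (d + 1) → Derivation ℂ K K) → K), IsPluri m ω → ω D0 = 0 → ω = 0) ∧
      (∀ g ∈ GG, ∃ μ ω, ∑ i, μ i ≤ T ∧ MSec (d + 1) δ μ ω ∧ g = hom μ ω) ∧
      ∀ (μ : Fin p →₀ ℕ) (ω : (Fin (d + 1) → Derivation ℂ K K) → K), MSec (d + 1) δ μ ω →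
        hom μ ω ∈ Submodule.span
          (Algebra.adjoin ℂ (GG : Set ((Fin (d + 1) → Derivation ℂ K K) → MvPolynomial (Fin p) K)))
          (FF' : Set ((Fin (d + 1) → Derivation ℂ K K) → MvPolynomial (Fin p) K)) := by
  classical
  have hqq : (0 : ℚ) < q := by exact_mod_cast hq
  obtain ⟨D0, hD0'⟩ := Pool.Agent.W602.GT.exists_dual H.hY
  have hD0 : ∀ i j, D0 i (Y j) = if i = j then 1 else 0 := by
    intro i j
    have h1 := congrFun (congrFun hD0' i) j
    rw [Matrix.of_apply, Matrix.one_apply] at h1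
    exact h1
  have hpl : ∀ {m : ℕ} {η : (Fin (d + 1) → Derivation ℂ K K) → K}, IsPluri m η → ∀ D,
      η D = (Matrix.of fun b c => D b (Y c)).det ^ m * η D0 := fun hη D =>
    pluri_det H.hY hD0 hη D
  have hΩD0 : Ω D0 ≠ 0 := by
    intro h0
    apply hΩ0
    funext D
    rw [hpl hΩ D, h0, mul_zero]
    rfl
  have hLq : (0 : ℚ) < L := by exact_mod_cast hL
  -- the structure
  choose lam n hn htl hlam using fun s => exists_prim (H.ht s)
  obtain ⟨N0, β, Q, c1, hQ, hstr⟩ := sec_u H.hY H.hfd lam hlam {1, G ^ p}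
  obtain ⟨nn, hnn⟩ : ∃ nn : ℕ, nn = ∑ s, n s := ⟨_, rfl⟩
  have hnle : ∀ s, n s ≤ nn := by
    intro s
    rw [hnn]
    exact Finset.single_le_sum (f := fun s => n s) (fun _ _ => Nat.zero_le _) (Finset.mem_univ s)
  obtain ⟨A, hA⟩ := exists_nat_ge (∑ s, ∑ i, |a i s|)
  have hAs : ∀ s, ∑ i, |a i s| ≤ A := fun s =>
    (Finset.single_le_sum (f := fun s => ∑ i, |a i s|)
      (fun s _ => Finset.sum_nonneg fun i _ => abs_nonneg _) (Finset.mem_univ s)).trans hA
  obtain ⟨c2, hc2⟩ : ∃ c2 : ℕ, c2 = nn * (c1 * 2) + q * A := ⟨_, rfl⟩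
  obtain ⟨cs, hcs⟩ : ∃ cs : ι ⊕ Fin p → ℤ,
    cs = Sum.elim (fun _ => (L : ℤ) * c2) fun _ => 0 := ⟨_, rfl⟩
  obtain ⟨F0, hF1, hF2⟩ := dickson (consU t L qi) cs
    {γ | ∀ s, - cs s ≤ consU t L qi γ s} fun γ hγ => hγ
  have hFnn : ∀ f ∈ F0, ∀ i, 0 ≤ f.1 i := by
    intro f hf i
    have h1 := hF1 f hf (Sum.inr i)
    rw [consU_inr, hcs] at h1
    simpa using h1
  -- the remainders
  obtain ⟨RR, hRR⟩ : ∃ RR : Finset (Fin p →₀ ℕ), ∀ ρ, (∀ i, ρ i < q) → ρ ∈ RR := by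
    refine ⟨(Fintype.piFinset fun _ : Fin p => Finset.range q).image
      Finsupp.equivFunOnFinite.symm, fun ρ hρ => ?_⟩
    refine Finset.mem_image.2 ⟨fun i => ρ i, ?_, ?_⟩
    · rw [Fintype.mem_piFinset]
      exact fun i => Finset.mem_range.2 (hρ i)
    · ext i
      rfl
  -- the generators
  obtain ⟨GG, hGG⟩ : ∃ GG : Finset ((Fin (d + 1) → Derivation ℂ K K) → MvPolynomial (Fin p) K),
    GG = G0.image (gmU Y Ω G q 1 0) := ⟨_, rfl⟩
  obtain ⟨FF', hFF⟩ : ∃ FF' : Finset ((Fin (d + 1) → Derivation ℂ K K) → MvPolynomial (Fin p) K),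
    FF' = ((F0 ×ˢ (Finset.univ : Finset (Fin N0))) ×ˢ RR).image
      fun x => gmU Y Ω G q (β x.1.2 / Q ^ 2) x.2 x.1.1 := ⟨_, rfl⟩
  have hSmem : ∀ γ, (∀ s, 0 ≤ consU t L qi γ s) → gmU Y Ω G q 1 0 γ ∈ Algebra.adjoin ℂ (GG :
      Set ((Fin (d + 1) → Derivation ℂ K K) → MvPolynomial (Fin p) K)) := by
    have key : ∀ γ ∈ AddSubmonoid.closure (G0 : Set ((Fin p → ℤ) × (Fin (d + 1) → ℤ))),
        (∀ i, 0 ≤ γ.1 i) ∧ gmU Y Ω G q 1 0 γ ∈ Algebra.adjoin ℂ (GG :
        Set ((Fin (d + 1) → Derivation ℂ K K) → MvPolynomial (Fin p) K)) := by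
      intro γ hγ
      induction hγ using AddSubmonoid.closure_induction with
      | mem g hg =>
        refine ⟨fun i => (hG1 g hg).2 (Sum.inr i), Algebra.subset_adjoin ?_⟩
        rw [hGG]
        exact Finset.mem_coe.2 (Finset.mem_image_of_mem _ hg)
      | zero =>
        refine ⟨fun i => le_rfl, ?_⟩
        rw [gmU_zero]
        exact Subalgebra.one_mem _
      | add x y _ _ hx hy =>
        refine ⟨fun i => add_nonneg (hx.1 i) (hy.1 i), ?_⟩
        have h1 := gmU_mul H.Y0 Ω G q hx.1 hy.1 1 1 0 0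
        rw [mul_one, add_zero] at h1
        rw [h1]
        exact Subalgebra.mul_mem _ hx.2 hy.2
    exact fun γ hγ => (key γ (hG2 γ hγ)).2
  have hspanM : ∀ γ, (∀ s, - cs s ≤ consU t L qi γ s) → ∀ i, ∀ ρ ∈ RR,
      gmU Y Ω G q (β i / Q ^ 2) ρ γ ∈
      Submodule.span (Algebra.adjoin ℂ (GG : Set ((Fin (d + 1) → Derivation ℂ K K) →
        MvPolynomial (Fin p) K))) (FF' : Set ((Fin (d + 1) → Derivation ℂ K K) →
        MvPolynomial (Fin p) K)) := by
    intro γ hγ i ρ hρ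
    obtain ⟨f, hf, hfγ⟩ := hF2 γ hγ
    have h1 := gmU_mul H.Y0 Ω G q (γ := γ - f) (γ' := f) (fun i => hfγ (Sum.inr i))
      (hFnn f hf) 1 (β i / Q ^ 2) 0 ρ
    rw [sub_add_cancel, one_mul, zero_add] at h1
    rw [h1]
    have h2 : gmU Y Ω G q (β i / Q ^ 2) ρ f ∈ Submodule.span (Algebra.adjoin ℂ (GG :
        Set ((Fin (d + 1) → Derivation ℂ K K) → MvPolynomial (Fin p) K)))
        (FF' : Set ((Fin (d + 1) → Derivation ℂ K K) → MvPolynomial (Fin p) K)) := by
      refine Submodule.subset_span ?_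
      rw [hFF]
      exact Finset.mem_coe.2 (Finset.mem_image.2 ⟨((f, i), ρ), Finset.mem_product.2
        ⟨Finset.mem_product.2 ⟨hf, Finset.mem_univ i⟩, hρ⟩, rfl⟩)
    exact Submodule.smul_mem _ (⟨gmU Y Ω G q 1 0 (γ - f), hSmem _ hfγ⟩ : Algebra.adjoin ℂ (GG :
        Set ((Fin (d + 1) → Derivation ℂ K K) → MvPolynomial (Fin p) K))) h2
  refine ⟨D0, GG, FF', fun m ω hω h0 => ?_, fun g hg => ?_, fun μ ω hω => ?_⟩
  · funext D
    rw [hpl hω D, h0, mul_zero]
    rfl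
  · -- the generators are sections
    rw [hGG] at hg
    obtain ⟨γ, hγ, rfl⟩ := Finset.mem_image.1 hg
    have hcon := (hG1 γ hγ).2
    have hnn : ∀ i, 0 ≤ γ.1 i := fun i => hcon (Sum.inr i)
    refine ⟨q • toN γ.1, _, hT γ hγ, ?_, by unfold gmU; rw [add_zero]⟩
    have hu : ∀ s, ∑ i, (((q • toN γ.1 : Fin p →₀ ℕ) i : ℕ) : ℚ) * a i s ≤
        ((∑ k, t s k * γ.2 k : ℤ) : ℚ) := by
      intro s
      have h1 := hcon (Sum.inl s)
      rw [consU_inl] at h1
      have h2 : ((∑ i, qi i s * γ.1 i : ℤ) : ℚ) ≤ ((L * ∑ k, t s k * γ.2 k : ℤ) : ℚ) := by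
        exact_mod_cast sub_nonneg.1 h1
      have h3 : ((∑ i, qi i s * γ.1 i : ℤ) : ℚ) =
          L * ∑ i, (((q • toN γ.1 : Fin p →₀ ℕ) i : ℕ) : ℚ) * a i s := by
        rw [Int.cast_sum, Finset.mul_sum]
        refine Finset.sum_congr rfl fun i _ => ?_
        have h4 : ((toN γ.1 i : ℕ) : ℚ) = γ.1 i := by exact_mod_cast toN_coe hnn i
        rw [Finsupp.smul_apply, smul_eq_mul, Int.cast_mul, ← hqs, Nat.cast_mul, h4]
        ring
      rw [h3, Int.cast_mul, Int.cast_natCast] at h2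
      exact le_of_mul_le_mul_left h2 hLq
    obtain ⟨g, hg⟩ : ∃ g : Fin p →₀ ℕ, g = toN γ.1 := ⟨_, rfl⟩
    rw [← hg] at hu ⊢
    have hsum : ∑ i, (q • g) i = q * ∑ i, g i := by
      rw [Finset.mul_sum]
      exact Finset.sum_congr rfl fun i _ => by rw [Finsupp.smul_apply, smul_eq_mul]
    have hz : ∑ i, (0 : Fin p →₀ ℕ) i = 0 := by simp
    refine ⟨fun B D => ?_, fun P hP D hD => ?_⟩
    · have h1 := hΩ B D
      rw [pow_one] at h1
      dsimp only
      rw [h1, hsum, hz, pow_zero, pow_zero, mul_pow, mul_pow, mul_pow, pow_mul, mul_pow]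
      ring
    · by_cases hD0 : Ω D = 0
      · by_cases hg0 : ∑ i, g i = 0
        · -- degree zero
          right
          have hgi : ∀ i, g i = 0 := fun i => by
            have := Finset.sum_eq_zero_iff.1 hg0 i (Finset.mem_univ i)
            exact this
          have h1 := H.le hu hP
          dsimp only
          rw [hg0, hz, pow_zero, pow_zero, mul_one, mul_one, mul_one]
          have h2 : ∀ i, (((q • g) i : ℕ) : ℚ) = 0 := by
            intro i
            rw [Finsupp.smul_apply, hgi, smul_zero]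
            rfl
          simp only [h2, zero_mul, Finset.sum_const_zero, neg_zero] at h1 ⊢
          exact h1
        · left
          dsimp only
          rw [hD0, zero_pow (by omega), zero_mul, zero_pow hg0, mul_zero, zero_mul]
      · right
        have h1 := H.le hu hP
        have h2 := ((frame_u H.hY H.hfd hΩ hΩ0 hP).2 D hD).resolve_left hD0
        dsimp only
        rw [hz, pow_zero, mul_one, mul_one, P.ord_mul (mnU_ne H.Y0 _)
          (pow_ne_zero _ (mul_ne_zero (pow_ne_zero _ hD0) hG)), P.ord_pow,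
          P.ord_mul (pow_ne_zero _ hD0) hG, P.ord_pow]
        have h3 : - ∑ i, (((q • g) i : ℕ) : ℚ) * δ i P =
            ∑ i, (((q • g) i : ℕ) : ℚ) * φ i (vec Y P) +
            (∑ i, (g i : ℚ)) * (q * moF Ω P + P.ord G) := by
          rw [Finset.sum_mul, ← Finset.sum_add_distrib, ← Finset.sum_neg_distrib]
          refine Finset.sum_congr rfl fun i _ => ?_
          rw [hδ i P hP, Finsupp.smul_apply, smul_eq_mul]
          push_cast
          field_simp
          ring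
        rw [h3]
        obtain ⟨S1, hS1⟩ : ∃ S1 : ℚ, S1 = ∑ i, (((q • g) i : ℕ) : ℚ) * φ i (vec Y P) := ⟨_, rfl⟩
        rw [← hS1] at h1 ⊢
        push_cast
        have h4 : (moF Ω P : ℚ) ≤ P.ord (Ω D) := by exact_mod_cast h2
        have h5 : (0 : ℚ) ≤ ∑ i, (g i : ℚ) := Finset.sum_nonneg fun _ _ => by positivity
        have h7 : (∑ i, (g i : ℚ)) * (q * moF Ω P + P.ord G) ≤
            (∑ i, (g i : ℚ)) * (q * P.ord (Ω D) + P.ord G) :=
          mul_le_mul_of_nonneg_left (by nlinarith) h5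
        linarith
  · -- the sections are in the module
    obtain ⟨ν, hν⟩ : ∃ ν : Fin p →₀ ℕ, ν = Finsupp.equivFunOnFinite.symm fun i => μ i / q :=
      ⟨_, rfl⟩
    obtain ⟨ρ, hρ⟩ : ∃ ρ : Fin p →₀ ℕ, ρ = Finsupp.equivFunOnFinite.symm fun i => μ i % q :=
      ⟨_, rfl⟩
    have hνi : ∀ i, ν i = μ i / q := fun i => by rw [hν]; rfl
    have hρi : ∀ i, ρ i = μ i % q := fun i => by rw [hρ]; rfl
    have hμ : μ = q • ν + ρ := by
      ext i
      rw [Finsupp.add_apply, Finsupp.smul_apply, smul_eq_mul, hνi, hρi]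
      exact (Nat.div_add_mod (μ i) q).symm
    have hρq : ∀ i, ρ i < q := fun i => by
      rw [hρi]
      exact Nat.mod_lt _ hq
    have hρmem := hRR ρ hρq
    obtain ⟨mν, hmν⟩ : ∃ mν : ℕ, mν = ∑ i, ν i := ⟨_, rfl⟩
    obtain ⟨mρ, hmρ⟩ : ∃ mρ : ℕ, mρ = ∑ i, ρ i := ⟨_, rfl⟩
    have hmμ : ∑ i, μ i = q * mν + mρ := by
      rw [hmν, hmρ, Finset.mul_sum, ← Finset.sum_add_distrib]
      refine Finset.sum_congr rfl fun i _ => ?_
      rw [hνi, hρi]
      exact (Nat.div_add_mod (μ i) q).symm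
    have hmρp : (mρ : ℚ) / q ≤ p := by
      rw [div_le_iff₀ hqq, hmρ]
      have h1 : ∑ i, ρ i ≤ ∑ _i : Fin p, q := Finset.sum_le_sum fun i _ => (hρq i).le
      rw [Finset.sum_const, Finset.card_univ, Fintype.card_fin, smul_eq_mul] at h1
      exact_mod_cast h1
    obtain ⟨X, hX⟩ : ∃ X, X = Ω D0 ^ (q * mν + mρ) * G ^ mν := ⟨_, rfl⟩
    have hX0 : X ≠ 0 := by
      rw [hX]
      exact mul_ne_zero (pow_ne_zero _ hΩD0) (pow_ne_zero _ hG)
    have hωp : IsPluri (q * mν + mρ) ω := by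
      rw [← hmμ]
      exact hω.1
    have hωD : ∀ D, ω D = (ω D0 / X) * (Ω D ^ (q * mν + mρ) * G ^ mν) := by
      intro D
      have h1 := hpl hΩ D
      rw [pow_one] at h1
      have h4 : Ω D ^ (q * mν + mρ) * G ^ mν =
          (Matrix.of fun b c => D b (Y c)).det ^ (q * mν + mρ) * X := by
        rw [h1, hX]
        ring
      rw [h4, hpl hωp D, div_mul_eq_mul_div, eq_div_iff hX0]
      ring
    have hsec : SecU Y (fun v => ∑ i, (μ i : ℚ) * φ i v) (pw {1, G ^ p} 1) (ω D0 / X) := by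
      rw [pw_one]
      intro P' hP'
      obtain ⟨⟨D', hD'reg, hD'0, hD'mo⟩, -⟩ := frame_u H.hY H.hfd hΩ hΩ0 hP'
      by_cases hω0 : ω D0 = 0
      · left
        rw [hω0, zero_div]
      right
      have hf0 : ω D0 / X ≠ 0 := div_ne_zero hω0 hX0
      have h4 : ω D' ≠ 0 := by
        rw [hωD]
        exact mul_ne_zero hf0 (mul_ne_zero (pow_ne_zero _ hD'0) (pow_ne_zero _ hG))
      have hle := (hω.2 P' hP' D' hD'reg).resolve_left h4
      have h5 : (P'.ord (ω D') : ℚ) = P'.ord (ω D0 / X) + ((q * mν + mρ) * moF Ω P' +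
          mν * P'.ord G) := by
        rw [hωD D', P'.ord_mul hf0 (mul_ne_zero (pow_ne_zero _ hD'0) (pow_ne_zero _ hG)),
          P'.ord_mul (pow_ne_zero _ hD'0) (pow_ne_zero _ hG), P'.ord_pow, P'.ord_pow, hD'mo]
        push_cast
        ring
      have h6 : - ∑ i, ((μ i : ℕ) : ℚ) * δ i P' = ∑ i, (μ i : ℚ) * φ i (vec Y P') +
          (q * mν + mρ) * moF Ω P' + (mν + mρ / q) * P'.ord G := by
        have h7 : ∀ i, ((μ i : ℕ) : ℚ) * δ i P' = - ((μ i : ℚ) * φ i (vec Y P')) -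
            (μ i : ℚ) * (moF Ω P' + (P'.ord G : ℚ) / q) := by
          intro i
          rw [hδ i P' hP']
          ring
        have h8 : (∑ i, (μ i : ℚ)) = q * mν + mρ := by
          have h9 : ((∑ i, μ i : ℕ) : ℚ) = ((q * mν + mρ : ℕ) : ℚ) := by rw [hmμ]
          push_cast at h9
          exact h9
        rw [Finset.sum_congr rfl fun i _ => h7 i, Finset.sum_sub_distrib, Finset.sum_neg_distrib,
          ← Finset.sum_mul, h8]
        field_simp
        ring
      have h9 : (0 : ℚ) ≤ (mρ : ℚ) / q := by positivity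
      by_cases hG' : 0 ≤ P'.ord G
      · refine ⟨1, by simp, one_ne_zero, ?_⟩
        rw [P'.ord_one]
        have h11 : (0 : ℚ) ≤ ((mρ : ℚ) / q) * P'.ord G :=
          mul_nonneg h9 (by exact_mod_cast hG')
        push_cast
        linarith
      · push Not at hG'
        refine ⟨G ^ p, by simp, pow_ne_zero _ hG, ?_⟩
        rw [P'.ord_pow]
        have h11 : (p : ℚ) * (P'.ord G : ℚ) ≤ ((mρ : ℚ) / q) * P'.ord G := by
          have h12 : (P'.ord G : ℚ) ≤ 0 := by exact_mod_cast hG'.le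
          nlinarith
        push_cast
        linarith
    obtain ⟨M, R, hR, hRs⟩ := hstr _ (fun v e he => by
      rw [Finset.mul_sum]
      exact Finset.sum_congr rfl fun i _ => by rw [H.hom i v e he]; ring) 1 (ω D0 / X) hsec
    have hprod0 : (∏ k, Y k) ^ M ≠ 0 :=
      pow_ne_zero _ (Finset.prod_ne_zero_iff.2 fun k _ => H.Y0 k)
    obtain ⟨μ', hμ'⟩ : ∃ μ' : Fin p → ℤ, μ' = fun i => ((ν i : ℕ) : ℤ) := ⟨_, rfl⟩
    have hμN : toN μ' = ν := by
      rw [hμ']
      exact toN_cast ν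
    have h1 : ω D0 / X = ∑ i, ∑ a ∈ (R i).support,
        (coeff a (R i)) • (mnU Y (fun k => (a k : ℤ) - M) * (β i / Q ^ 2)) := by
      have h2 : ω D0 / X = (∑ i, aeval Y (R i) * β i) / (∏ k, Y k) ^ M / Q ^ 2 := by
        rw [eq_div_iff (pow_ne_zero _ hQ), eq_div_iff hprod0, ← hR]
        ring
      rw [h2, Finset.sum_div, Finset.sum_div]
      refine Finset.sum_congr rfl fun i _ => ?_
      have h3 : aeval Y (R i) = ∑ a ∈ (R i).support, algebraMap ℂ K (coeff a (R i)) *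
          ∏ k, Y k ^ a k := by
        rw [MvPolynomial.aeval_def, MvPolynomial.eval₂_eq']
      rw [h3, Finset.sum_mul, Finset.sum_div, Finset.sum_div]
      refine Finset.sum_congr rfl fun a _ => ?_
      have h4 : mnU Y (fun k => (a k : ℤ) - M) = (∏ k, Y k ^ a k) / (∏ k, Y k) ^ M := by
        unfold mnU
        rw [← Finset.prod_pow, ← Finset.prod_div_distrib]
        exact Finset.prod_congr rfl fun k _ => by
          rw [zpow_sub₀ (H.Y0 k), zpow_natCast, zpow_natCast]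
      rw [h4, Algebra.smul_def]
      field_simp
    have hexp : hom μ ω = ∑ i, ∑ a ∈ (R i).support,
        coeff a (R i) • gmU Y Ω G q (β i / Q ^ 2) ρ (μ', fun k => (a k : ℤ) - M) := by
      funext D
      simp only [Finset.sum_apply, Pi.smul_apply]
      unfold gmU hom
      simp only [hμN, ← hmν, ← hmρ, ← hμ]
      have h2 : ∀ (z : K) (r : ℂ), r • (monomial μ z : MvPolynomial (Fin p) K) =
          monomial μ (r • z) := fun z r => by rw [smul_monomial]
      simp only [h2]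
      rw [Finset.sum_congr rfl fun i _ => (map_sum (monomial μ) _ _).symm, ← map_sum]
      congr 1
      rw [hωD D, h1, Finset.sum_mul]
      refine Finset.sum_congr rfl fun i _ => ?_
      rw [Finset.sum_mul]
      refine Finset.sum_congr rfl fun a _ => ?_
      rw [smul_mul_assoc]
      congr 1
      rw [mul_pow, ← pow_mul, pow_add]
      ring
    rw [hexp]
    refine Submodule.sum_mem _ fun i _ => Submodule.sum_mem _ fun a' ha => ?_
    have hmem := hspanM (μ', fun k => (a' k : ℤ) - M) ?_ i ρ hρmem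
    · have h1 : coeff a' (R i) • gmU Y Ω G q (β i / Q ^ 2) ρ (μ', fun k => (a' k : ℤ) - M) =
          (algebraMap ℂ (Algebra.adjoin ℂ (GG : Set ((Fin (d + 1) → Derivation ℂ K K) →
            MvPolynomial (Fin p) K))) (coeff a' (R i))) •
            gmU Y Ω G q (β i / Q ^ 2) ρ (μ', fun k => (a' k : ℤ) - M) :=
        (algebraMap_smul _ _ _).symm
      rw [h1]
      exact Submodule.smul_mem _ _ hmem
    -- the constraints
    intro s
    rcases s with s | i'
    · rw [consU_inl, hcs, Sum.elim_inl]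
      dsimp only
      have h5 := hRs i a' ha s
      have h6 : ∑ k, t s k * ((a' k : ℤ) - M) = n s * ∑ k, lam s k * ((a' k : ℤ) - M) := by
        rw [Finset.mul_sum]
        refine Finset.sum_congr rfl fun k _ => ?_
        have h3 : t s k = n s * lam s k := by
          have h4 := congrFun (htl s) k
          rwa [Pi.smul_apply, nsmul_eq_mul] at h4
        rw [h3]
        ring
      have hφs : (n s : ℚ) * ∑ i, (μ i : ℚ) * φ i (lam s) = ∑ i, (μ i : ℚ) * a i s := by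
        rw [Finset.mul_sum]
        refine Finset.sum_congr rfl fun i _ => ?_
        have h7 : φ i (t s) = n s * φ i (lam s) := by
          conv_lhs => rw [htl s]
          rw [H.hom i _ _ (hn s)]
        rw [← H.ha i s, h7]
        ring
      obtain ⟨W, hW⟩ : ∃ W : ℤ, W = ∑ k, lam s k * ((a' k : ℤ) - M) := ⟨_, rfl⟩
      rw [← hW] at h5 h6
      rw [h6]
      have h3 : (0 : ℚ) ≤ n s := by positivity
      have h4 := mul_le_mul_of_nonneg_left h5 h3
      have h7 : (n s : ℚ) ≤ nn := by exact_mod_cast hnle s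
      have h8 : (n s : ℚ) * (c1 * 2) ≤ nn * (c1 * 2) :=
        mul_le_mul_of_nonneg_right h7 (by positivity)
      have h9 : ∑ i, (μ i : ℚ) * a i s = q * ∑ i, (ν i : ℚ) * a i s + ∑ i, (ρ i : ℚ) * a i s := by
        rw [Finset.mul_sum, ← Finset.sum_add_distrib]
        refine Finset.sum_congr rfl fun i _ => ?_
        have h10 : (μ i : ℚ) = q * ν i + ρ i := by
          have h11 : μ i = q * ν i + ρ i := by
            rw [hνi, hρi]
            exact (Nat.div_add_mod (μ i) q).symm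
          exact_mod_cast h11
        rw [h10]
        ring
      have h10 : - ((q : ℚ) * A) ≤ ∑ i, (ρ i : ℚ) * a i s := by
        have h11 : (q : ℚ) * ∑ i, |a i s| ≤ q * A := mul_le_mul_of_nonneg_left (hAs s) hqq.le
        have h12 : - ((q : ℚ) * ∑ i, |a i s|) ≤ ∑ i, (ρ i : ℚ) * a i s := by
          rw [Finset.mul_sum, ← Finset.sum_neg_distrib]
          refine Finset.sum_le_sum fun i _ => ?_
          have h13 : (ρ i : ℚ) ≤ q := by exact_mod_cast (hρq i).le
          have h14 : (0 : ℚ) ≤ ρ i := by positivity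
          have h15 := neg_abs_le (a i s)
          have h16 : (ρ i : ℚ) * |a i s| ≤ q * |a i s| :=
            mul_le_mul_of_nonneg_right h13 (abs_nonneg _)
          nlinarith
        linarith
      have h11 : ((∑ i, qi i s * μ' i : ℤ) : ℚ) = L * (q * ∑ i, (ν i : ℚ) * a i s) := by
        push_cast
        rw [Finset.mul_sum, Finset.mul_sum]
        refine Finset.sum_congr rfl fun i _ => ?_
        rw [← hqs, hμ']
        push_cast
        ring
      have h12 : (q : ℚ) * ∑ i, (ν i : ℚ) * a i s - c2 ≤ ((n s * W : ℤ) : ℚ) := by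
        rw [hc2]
        push_cast at h4 ⊢
        rw [mul_sub, hφs, h9] at h4
        linarith
      have h13 := mul_le_mul_of_nonneg_left h12 hLq.le
      have h14 : ((- ((L : ℤ) * c2) : ℤ) : ℚ) ≤
          ((L * (n s * W) - ∑ i, qi i s * μ' i : ℤ) : ℚ) := by
        rw [Int.cast_sub, h11]
        push_cast at h13 ⊢
        linarith
      exact_mod_cast h14
    · rw [consU_inr, hcs, Sum.elim_inr, neg_zero, hμ']
      positivity

end Pool.Agent.Q57.UG
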