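import Pool.Agent.Q57.UG.Fg

/-!
The finite generation, with a bound for the degrees of the elements over which the ring is integral.
-/

set_option autoImplicit false
set_option linter.overlappingInstances false
set_option linter.unusedSectionVars false
set_option maxHeartbeats 1000000

open FF MvPolynomial Pool.Agent.W603.LV Pool.Agent.W619.PQ
open Pool.Agent.W602.GT Pool.Agent.TH122.AB Pool.Agent.Q57.TP Pool.Agent.Q57.FG Pool.Agent.Q57.GG
open Pool.Agent.Q57.GM Pool.Agent.Q57.GC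

namespace Pool.Agent.Q57.UG

/-- a subalgebra between a finitely generated algebra and a finitely generated module over it is
integral -/
theorem integral_of_span {k W : Type} [Field k] [CommRing W] [Algebra k W] (G F : Finset W)
    (R : Subalgebra k W) (hG : ∀ g ∈ G, g ∈ R)
    (hR : ∀ p ∈ R, p ∈ Submodule.span (Algebra.adjoin k (G : Set W)) (F : Set W)) (x : W)
    (hx : x ∈ R) : IsIntegral (Algebra.adjoin k (G : Set W)) x := by
  classical
  have hSR : Algebra.adjoin k (G : Set W) ≤ R := Algebra.adjoin_le hG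
  have hft : Algebra.FiniteType k (Algebra.adjoin k (G : Set W)) :=
    (Subalgebra.fg_iff_finiteType _).1 (Subalgebra.fg_adjoin_finset G)
  have hno : IsNoetherianRing (Algebra.adjoin k (G : Set W)) :=
    Algebra.FiniteType.isNoetherianRing k _
  let R' : Subalgebra (Algebra.adjoin k (G : Set W)) W :=
    { carrier := R
      add_mem' := fun ha hb => R.add_mem ha hb
      mul_mem' := fun ha hb => R.mul_mem ha hb
      algebraMap_mem' := fun c => hSR c.2 }
  have hle : Subalgebra.toSubmodule R' ≤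
      Submodule.span (Algebra.adjoin k (G : Set W)) (F : Set W) := fun p hp => hR p hp
  have hN : IsNoetherian (Algebra.adjoin k (G : Set W))
      (Submodule.span (Algebra.adjoin k (G : Set W)) (F : Set W)) :=
    isNoetherian_span_of_finite _ F.finite_toSet
  exact IsIntegral.of_mem_of_fg R' (isNoetherian_submodule.1 hN _ hle) x hx

variable {r p N : ℕ} {n : Fin r → ℕ}

/-- **The top theorem for the finite generation.** -/
theorem top_fg (hn : ∀ i, 1 ≤ n i) (hN1 : 1 ≤ N) (hN : N = ∑ i, n i) {dg : Hyp n → ℕ}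
    (hd : ∀ b, 1 ≤ dg b) (κ : Fin r → ℤ) {ψ : Fin p → (Hyp n → ℕ) → ℚ}
    (hψ : ∃ T, PL ψ T) :
    ∃ T : ℕ, ∀ (K : Type) [Field K] [Algebra ℂ K] [Algebra.EssFiniteType ℂ K] (M : Fin r → ℕ)
        (F : ∀ b : Hyp n, MvPolynomial (Fin (M b.1 + 1)) ℂ) (x : ∀ i, Fin (M i + 1) → K)
        (Ω : (Fin N → Derivation ℂ K K) → K) (δ : Fin p → Place ℂ K → ℚ),
        (∀ b, (F b).IsHomogeneous (dg b)) → (∀ i j, x i j ≠ 0) → NoZ F x →
        IsTranscendenceBasis ℂ (rat F dg x) → IsPluri 1 Ω → Ω ≠ 0 →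
        (∀ i P, δ i P = 1 - ψ i (mulU F dg x P) - lDU F dg κ x Ω P) →
        (secRing N δ).FG ∧ ∀ f ∈ secRing N δ, IsIntegral (Algebra.adjoin ℂ
          {g : (Fin N → Derivation ℂ K K) → MvPolynomial (Fin p) K |
            ∃ μ ω, ∑ i, μ i ≤ T ∧ MSec N δ μ ω ∧ g = hom μ ω}) f := by
  classical
  obtain ⟨T1, hψ⟩ := hψ
  obtain ⟨d, rfl⟩ : ∃ d, N = d + 1 := ⟨N - 1, by omega⟩
  let e : Coo n ≃ Fin (d + 1) := finSigmaFinEquiv.trans (finCongr (by omega))
  have hspan : ∀ u : Fin (d + 1) → ℤ, (∀ s, 0 ≤ ∑ k, tv e dg T1 s k * u k) → u = 0 :=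
    tv_span e hd hψ
  obtain ⟨L, qi, G0, T, hL, hqs, hG1, hG2, hT⟩ := exists_latt (tv e dg T1)
    (fun i (s : T1) => ψ i s.1 - lin dg κ fun b => (s.1 b : ℚ)) hspan (qq dg)
  refine ⟨T, ?_⟩
  intro K _ _ _ M F x Ω δ hF hx hno hbas hΩ hΩ0 hδ
  obtain ⟨H, G, hG, hGδ⟩ := setup_u (p := p) e hn hd κ hψ hF hx hno hbas
  have hq : 1 ≤ qq dg := by
    have h0 : 0 < qq dg := Finset.prod_pos fun i _ => hd ⟨i, 0⟩
    exact h0
  obtain ⟨D0, GG, FF', hD0, hGG, hspan'⟩ := fg_u H hL hqs hG1 hG2 hT hΩ hΩ0 hG hq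
    (δ := δ) fun i P _ => by rw [hδ, hGδ]
  have hGm : ∀ g ∈ GG, g ∈ secRing (d + 1) δ := by
    intro g hg
    obtain ⟨μ, ω, -, hω, rfl⟩ := hGG g hg
    exact hom_mem hω
  have hmem : ∀ f ∈ secRing (d + 1) δ, f ∈ Submodule.span
      (Algebra.adjoin ℂ (GG : Set ((Fin (d + 1) → Derivation ℂ K K) → MvPolynomial (Fin p) K)))
      (FF' : Set ((Fin (d + 1) → Derivation ℂ K K) → MvPolynomial (Fin p) K)) := by
    intro f hf
    have h1 : f = ∑ μ ∈ (f D0).support, hom μ fun D => coeff μ (f D) := by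
      funext D
      rw [Finset.sum_apply]
      unfold hom
      have h2 : ∀ μ, μ ∉ (f D0).support → coeff μ (f D) = 0 := by
        intro μ hμ
        rw [notMem_support_iff] at hμ
        exact congrFun (hD0 _ _ (hf μ).1 hμ) D
      conv_lhs => rw [(f D).as_sum]
      refine Finset.sum_subset ?_ fun μ _ hμ => ?_
      · intro μ hμ
        by_contra hcon
        rw [mem_support_iff] at hμ
        exact hμ (h2 μ hcon)
      · rw [notMem_support_iff.1 hμ, monomial_zero]
    rw [h1]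
    exact Submodule.sum_mem _ fun μ _ => hspan' μ _ (hf μ)
  refine ⟨fg_of_span GG FF' _ hGm hmem, fun f hf => ?_⟩
  have h1 := integral_of_span GG FF' _ hGm hmem f hf
  have hle : Algebra.adjoin ℂ (GG : Set ((Fin (d + 1) → Derivation ℂ K K) →
      MvPolynomial (Fin p) K)) ≤ Algebra.adjoin ℂ
          {g : (Fin (d + 1) → Derivation ℂ K K) → MvPolynomial (Fin p) K |
            ∃ μ ω, ∑ i, μ i ≤ T ∧ MSec (d + 1) δ μ ω ∧ g = hom μ ω} :=
    Algebra.adjoin_mono fun g hg => hGG g hg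
  obtain ⟨P, hP, hPx⟩ := h1
  refine ⟨P.map (Subalgebra.inclusion hle).toRingHom, hP.map _, ?_⟩
  rw [Polynomial.eval₂_map]
  exact hPx

end Pool.Agent.Q57.UG
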