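import Pool.Agent.Q57.UG.Cone

/-!
The lattice points of a rational polyhedral cone, for several divisors.
-/

set_option autoImplicit false
set_option linter.unusedSectionVars false
set_option maxHeartbeats 1000000

open Pool.Agent.Q57.GM Pool.Agent.Q57.GG Pool.Agent.Y169.TH

namespace Pool.Agent.Q57.UG

variable {d p : ℕ} {ι : Type} [Fintype ι]

/-- **The generators of the cone.** -/
theorem exists_gen2 (t : ι → Fin (d + 1) → ℤ) (a : Fin p → ι → ℚ)
    (hspan : ∀ u : Fin (d + 1) → ℤ, (∀ s, 0 ≤ ∑ k, t s k * u k) → u = 0) :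
    ∃ (N0 : ℕ) (g : Fin N0 → Fin p →₀ ℕ) (U : Fin N0 → Fin (d + 1) → ℤ),
      (∀ b, g b ≠ 0) ∧
      (∀ b s, ∑ i, (g b i : ℚ) * a i s ≤ ((∑ k, t s k * U b k : ℤ) : ℚ)) ∧
      Approx t a g U ∧
      ∀ (μ : Fin p → ℕ) (u : Fin (d + 1) → ℤ),
        (∀ s, ∑ i, (μ i : ℚ) * a i s ≤ ((∑ k, t s k * u k : ℤ) : ℚ)) →
          ∃ e : Fin N0 → ℕ, (∀ i, ∑ b, e b * g b i = μ i) ∧
            ∀ k, ∑ b, (e b : ℤ) * U b k = u k := by
  classical
  obtain ⟨L, hL, hden⟩ := exists_den fun s : Fin p × ι => a s.1 s.2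
  choose q' hq' using hden
  obtain ⟨q, hq⟩ : ∃ q : Fin p → ι → ℤ, q = fun i s => q' (i, s) := ⟨_, rfl⟩
  have hqs : ∀ i s, (L : ℚ) * a i s = q i s := fun i s => by
    rw [hq]
    exact hq' (i, s)
  have hinj := consU_inj hL q hspan
  obtain ⟨G, hG1, hG2⟩ := gordan (consU t L q) hinj
  let eG : {g // g ∈ G} ≃ Fin (Fintype.card {g // g ∈ G}) := Fintype.equivFin _
  obtain ⟨g, hg⟩ : ∃ g : Fin (Fintype.card {g // g ∈ G}) → Fin p →₀ ℕ,
    g = fun b => Finsupp.equivFunOnFinite.symm fun i => ((eG.symm b).1.1 i).toNat := ⟨_, rfl⟩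
  have hgi : ∀ b i, ((g b i : ℕ) : ℤ) = (eG.symm b).1.1 i := by
    intro b i
    rw [hg]
    change ((((eG.symm b).1.1 i).toNat : ℕ) : ℤ) = _
    refine Int.toNat_of_nonneg ?_
    have h1 := (hG1 _ (eG.symm b).2).2 (Sum.inr i)
    rwa [consU_inr] at h1
  have hLq : (0 : ℚ) < L := by exact_mod_cast hL
  have hqL : ∀ (m : Fin p → ℤ) (s : ι), ((∑ i, q i s * m i : ℤ) : ℚ) =
      L * ∑ i, (m i : ℚ) * a i s := by
    intro m s
    push_cast
    rw [Finset.mul_sum]
    refine Finset.sum_congr rfl fun i _ => ?_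
    rw [← hqs]
    ring
  have hsumG0 : ∀ γ0 (e' : ((Fin p → ℤ) × (Fin (d + 1) → ℤ)) → ℕ), γ0 = ∑ g ∈ G, e' g • g →
      ∀ f : ((Fin p → ℤ) × (Fin (d + 1) → ℤ)) →+ ℤ,
      ∑ b, ((e' (eG.symm b).1 : ℕ) : ℤ) * f (eG.symm b).1 = f γ0 := by
    intro γ0 e' he' f
    conv_rhs => rw [he', map_sum]
    rw [← Finset.sum_coe_sort G, ← Equiv.sum_comp eG.symm]
    exact Finset.sum_congr rfl fun b _ => by rw [map_nsmul, nsmul_eq_mul]
  refine ⟨_, g, fun b => (eG.symm b).1.2, fun b h0 => ?_, fun b s => ?_, fun c ℓ => ?_,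
    fun μ u hs => ?_⟩
  · have h1 : (eG.symm b).1.1 = 0 := by
      funext i
      rw [← hgi b i, h0]
      rfl
    refine (hG1 _ (eG.symm b).2).1 (Prod.ext h1 (hspan _ fun s => ?_))
    have h2 := (hG1 _ (eG.symm b).2).2 (Sum.inl s)
    rw [consU_inl, h1] at h2
    simp only [Pi.zero_apply, mul_zero, Finset.sum_const_zero, sub_zero] at h2
    have h3 : (0 : ℤ) < L := by exact_mod_cast hL
    exact nonneg_of_mul_nonneg_right h2 h3
  · have h1 := (hG1 _ (eG.symm b).2).2 (Sum.inl s)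
    rw [consU_inl] at h1
    have h2 : ((∑ i, q i s * (eG.symm b).1.1 i : ℤ) : ℚ) ≤
        ((L * ∑ k, t s k * (eG.symm b).1.2 k : ℤ) : ℚ) := by
      exact_mod_cast sub_nonneg.1 h1
    rw [hqL] at h2
    have h3 : ∑ i, (((eG.symm b).1.1 i : ℤ) : ℚ) * a i s = ∑ i, (g b i : ℚ) * a i s := by
      refine Finset.sum_congr rfl fun i _ => ?_
      rw [← hgi]
      push_cast
      rfl
    rw [h3, Int.cast_mul, Int.cast_natCast] at h2
    exact le_of_mul_le_mul_left h2 hLq
  · obtain ⟨C, hC⟩ := approx (consU t L q) hinj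
      (Sum.elim (fun _ => (L : ℤ) * c) fun _ => 0) (fnU ℓ)
    refine ⟨C, fun μ u j hs => ?_⟩
    obtain ⟨γ0, hγ0, hγ0'⟩ := hC (fun i => (μ i : ℤ), u) (j + 1) (by
      intro s
      rcases s with s | i
      · rw [consU_inl, Sum.elim_inl]
        have h1 := mul_le_mul_of_nonneg_left (hs s) hLq.le
        have h2 := hqL (fun i => (μ i : ℤ)) s
        have h3 : (((- ((L : ℤ) * c * ((j + 1 : ℕ) : ℤ)) : ℤ)) : ℚ) ≤
            ((L * ∑ k, t s k * u k - ∑ i, q i s * (μ i : ℤ) : ℤ) : ℚ) := by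
          rw [Int.cast_sub, h2]
          push_cast at h1 ⊢
          linarith
        exact_mod_cast h3
      · rw [consU_inr, Sum.elim_inr, zero_mul, neg_zero]
        exact Int.natCast_nonneg _)
    obtain ⟨e', he'⟩ := closure_comb G (hG2 γ0 hγ0)
    have hsumG : ∀ f : ((Fin p → ℤ) × (Fin (d + 1) → ℤ)) →+ ℤ,
        ∑ b, ((e' (eG.symm b).1 : ℕ) : ℤ) * f (eG.symm b).1 = f γ0 := by
      intro f
      conv_rhs => rw [he', map_sum]
      rw [← Finset.sum_coe_sort G, ← Equiv.sum_comp eG.symm]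
      exact Finset.sum_congr rfl fun b _ => by rw [map_nsmul, nsmul_eq_mul]
    refine ⟨fun b => e' (eG.symm b).1, fun i => ?_, ?_⟩
    · have h1 := hγ0' (some i)
      rw [fnU_some, fnU_some, abs_sub_comm] at h1
      have h2 := hsumG (fnU ℓ (some i))
      simp only [fnU_some] at h2
      have h3 : ∑ b, ((e' (eG.symm b).1 : ℕ) : ℤ) * ((g b i : ℕ) : ℤ) = γ0.1 i := by
        rw [← h2]
        exact Finset.sum_congr rfl fun b _ => by rw [hgi]
      rw [h3]
      refine h1.trans (le_of_eq ?_)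
      push_cast
      rfl
    · have h1 := hγ0' none
      rw [fnU_none (γ := ((fun i => (μ i : ℤ)), u)), abs_sub_comm] at h1
      have h2 := hsumG (fnU ℓ none)
      rw [← h2] at h1
      refine le_trans (le_of_eq ?_) (h1.trans (le_of_eq ?_))
      · rfl
      · push_cast
        rfl
  · obtain ⟨e', he'⟩ := closure_comb G (hG2 (fun i => (μ i : ℤ), u) (by
      intro s
      rcases s with s | i
      · rw [consU_inl]
        have h1 := mul_le_mul_of_nonneg_left (hs s) hLq.le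
        have h2 := hqL (fun i => (μ i : ℤ)) s
        have h3 : (0 : ℚ) ≤
            ((L * ∑ k, t s k * u k - ∑ i, q i s * (μ i : ℤ) : ℤ) : ℚ) := by
          rw [Int.cast_sub, h2]
          push_cast at h1 ⊢
          linarith
        exact_mod_cast h3
      · rw [consU_inr]
        exact Int.natCast_nonneg _))
    have h0 := hsumG0 _ e' he'
    refine ⟨fun b => e' (eG.symm b).1, fun i => ?_, fun k => ?_⟩
    · have h2 := h0 (fnU (0 : Fin (d + 1) → ℤ) (some i))
      simp only [fnU_some] at h2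
      have h3 : ∑ b, ((e' (eG.symm b).1 : ℕ) : ℤ) * ((g b i : ℕ) : ℤ) = μ i := by
        rw [← h2]
        exact Finset.sum_congr rfl fun b _ => by rw [hgi]
      exact_mod_cast h3
    · have h2 := h0 (fnU (Pi.single k 1 : Fin (d + 1) → ℤ) none)
      simp only [fnU_none] at h2
      have h3 : ∀ v : Fin (d + 1) → ℤ, ∑ j, (Pi.single k 1 : Fin (d + 1) → ℤ) j * v j = v k := by
        intro v
        rw [Finset.sum_eq_single k]
        · rw [Pi.single_eq_same, one_mul]
        · intro j _ hj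
          rw [Pi.single_eq_of_ne hj, zero_mul]
        · intro h
          exact absurd (Finset.mem_univ _) h
      simp only [h3] at h2
      exact h2

end Pool.Agent.Q57.UG
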