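import Pool.Agent.Q57.UG.Str
import Pool.Agent.Q57.FT.Sec

/-!
The structure of the functions whose orders are bounded by a function of the orders of the
coordinates `Y`, a transcendence basis.
-/

set_option autoImplicit false
set_option linter.overlappingInstances false
set_option linter.unusedSectionVars false
set_option maxHeartbeats 1000000

open FF MvPolynomial IntermediateField Pool.Agent.W603.LV Pool.Agent.W619.PQ
open Pool.Agent.W619.TW Pool.Agent.W602.GT Pool.Agent.TH122.AB Pool.Agent.TH756.PN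
open Pool.Agent.Y169.CH Pool.Agent.Y169.TH

namespace Pool.Agent.Q57.UG

variable {d : ℕ} {K : Type} [Field K] [Algebra ℂ K]

/-- the orders of the coordinates -/
def vec (Y : Fin (d + 1) → K) (P : Place ℂ K) : Fin (d + 1) → ℤ := fun k => P.ord (Y k)

/-- functions whose order at `P` is at least `φ` of the orders of the coordinates -/
def SecU (Y : Fin (d + 1) → K) (φ : (Fin (d + 1) → ℤ) → ℚ) (S' : Finset K) (f : K) : Prop :=
  ∀ P : Place ℂ K, IsDivisorial P (d + 1) → f = 0 ∨ ∃ s ∈ S', s ≠ 0 ∧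
    (P.ord s : ℚ) + φ (vec Y P) ≤ P.ord f

theorem hom_zero {φ : (Fin (d + 1) → ℤ) → ℚ}
    (hφ : ∀ v (e : ℕ), 1 ≤ e → φ (e • v) = e * φ v) : φ 0 = 0 := by
  have h1 := hφ 0 2 (by norm_num)
  rw [smul_zero] at h1
  push_cast at h1
  linarith

theorem exists_ne_of_one {lam : Fin (d + 1) → ℤ}
    (h : ∃ a b : Fin (d + 1) →₀ ℕ, zwt lam a = zwt lam b + 1) : ∃ b, lam b ≠ 0 := by
  by_contra hcon
  push Not at hcon
  obtain ⟨a, b, hab⟩ := h
  unfold zwt at hab
  simp only [hcon, zero_mul, Finset.sum_const_zero] at hab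
  omega

section

variable {K0 : Type} [Field K0] [Algebra ℂ K0] [Algebra K0 K] [IsScalarTower ℂ K0 K]
  [FiniteDimensional K0 K]

/-- the places of the irreducible polynomials -/
theorem adic_u {Y : Fin (d + 1) → K} {φ : (Fin (d + 1) → ℤ) → ℚ}
    (hφ : ∀ v (e : ℕ), 1 ≤ e → φ (e • v) = e * φ v) {M : ℕ}
    (hM : ∀ k : Fin (d + 1), - (M : ℚ) ≤ φ (Pi.single k 1))
    {X : Fin (d + 1) → K0} (hX : Gens (k := ℂ) X)
    (hXY : ∀ j, algebraMap K0 K (X j) = Y j) {p : MvPolynomial (Fin (d + 1)) ℂ}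
    (hp : Irreducible p) {v : Place ℂ K0}
    (hv : ∀ P, P ≠ 0 → 0 ≤ v.ord (aeval X P) ∧ (v.ord (aeval X P) = 0 ↔ ¬ p ∣ P))
    {P : Place ℂ K} {e : ℕ} (h : Over P v e) {S' : Finset K} {f : K}
    (hf : SecU Y φ S' f) :
    f = 0 ∨ ∃ s ∈ S', s ≠ 0 ∧ P.ord s ≤ P.ord (f * (∏ k, Y k) ^ M) := by
  classical
  by_cases hz : f = 0
  · exact Or.inl hz
  obtain ⟨s, hs, hs0, hle⟩ := (hf P (div_adic hX hp hv h)).resolve_left hz
  refine Or.inr ⟨s, hs, hs0, ?_⟩
  have hY0 : ∀ k, Y k ≠ 0 := by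
    intro k
    rw [← hXY]
    have h1 := hX.ne (X_ne_zero (R := ℂ) k)
    rw [aeval_X] at h1
    simpa using h1
  have hPY : ∀ k, P.ord (Y k) = e * v.ord (X k) := by
    intro k
    rw [← hXY, h.2]
  have hv' : ∀ k, 0 ≤ v.ord (X k) ∧ (v.ord (X k) = 0 ↔ ¬ p ∣ MvPolynomial.X k) := by
    intro k
    have h1 := hv (MvPolynomial.X k) (X_ne_zero _)
    rwa [aeval_X] at h1
  have hprod : P.ord ((∏ k, Y k) ^ M) = M * ∑ k, P.ord (Y k) := by
    rw [P.ord_pow, ord_prod' P Finset.univ _ fun k _ => hY0 k]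
  rw [P.ord_mul hz (pow_ne_zero _ (Finset.prod_ne_zero_iff.2 fun k _ => hY0 k)), hprod]
  have hkey : (0 : ℚ) ≤ φ (vec Y P) + M * ∑ k, (P.ord (Y k) : ℚ) := by
    by_cases hdvd : ∃ k, p ∣ MvPolynomial.X k
    · obtain ⟨k, hk⟩ := hdvd
      have hother : ∀ l, l ≠ k → v.ord (X l) = 0 := by
        intro l hl
        rw [(hv' l).2]
        intro hpl
        have h1 : Associated p (MvPolynomial.X k : MvPolynomial (Fin (d + 1)) ℂ) :=
          hp.associated_of_dvd (MvPolynomial.X_prime (R := ℂ) (i := k)).irreducible hk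
        have h2 : (MvPolynomial.X k : MvPolynomial (Fin (d + 1)) ℂ) ∣ MvPolynomial.X l :=
          h1.symm.dvd.trans hpl
        have h3 := (MvPolynomial.X_dvd_X (R := ℂ)).1 h2
        exact hl h3.symm
      obtain ⟨n, hn⟩ : ∃ n : ℕ, P.ord (Y k) = n :=
        ⟨(P.ord (Y k)).toNat, (Int.toNat_of_nonneg (by
          rw [hPY]
          exact mul_nonneg (by positivity) (hv' k).1)).symm⟩
      have hn1 : 1 ≤ n := by
        have h1 : v.ord (X k) ≠ 0 := by
          rw [Ne, (hv' k).2]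
          exact fun h => h hk
        have h2 : P.ord (Y k) ≠ 0 := by
          rw [hPY]
          exact mul_ne_zero (by have := h.1; omega) h1
        rw [hn] at h2
        omega
      have hvec : vec Y P = n • Pi.single k (1 : ℤ) := by
        funext l
        change P.ord (Y l) = (n • (Pi.single k (1 : ℤ) : Fin (d + 1) → ℤ)) l
        rw [Pi.smul_apply]
        by_cases hl : l = k
        · rw [hl, hn, Pi.single_eq_same, nsmul_eq_mul, mul_one]
        · rw [Pi.single_eq_of_ne hl, smul_zero, hPY, hother l hl, mul_zero]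
      have hsum : ∑ l, (P.ord (Y l) : ℚ) = n := by
        rw [Finset.sum_eq_single k]
        · rw [hn]
          rfl
        · intro l _ hl
          rw [hPY, hother l hl, mul_zero]
          rfl
        · intro h
          exact absurd (Finset.mem_univ _) h
      rw [hsum, hvec, hφ _ n hn1]
      have h1 := hM k
      have h2 : (0 : ℚ) ≤ n * (φ (Pi.single k 1) + M) := mul_nonneg (by positivity) (by linarith)
      linarith
    · push Not at hdvd
      have hvec : vec Y P = 0 := by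
        funext l
        change P.ord (Y l) = 0
        rw [hPY, ((hv' l).2).2 (hdvd l), mul_zero]
      have hsum : ∑ l, (P.ord (Y l) : ℚ) = 0 := by
        refine Finset.sum_eq_zero fun l _ => ?_
        have h1 := congrFun hvec l
        have h2 : P.ord (Y l) = 0 := h1
        rw [h2]
        rfl
      rw [hsum, hvec, hom_zero hφ]
      simp
  have h5 : (P.ord s : ℚ) ≤ ((P.ord f + M * ∑ k, P.ord (Y k) : ℤ) : ℚ) := by
    push_cast
    linarith
  exact_mod_cast h5

/-- the test places -/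
theorem test_u {Y : Fin (d + 1) → K} {φ : (Fin (d + 1) → ℤ) → ℚ}
    (hφ : ∀ v (e : ℕ), 1 ≤ e → φ (e • v) = e * φ v)
    {X : Fin (d + 1) → K0} (hX : Gens (k := ℂ) X)
    (hXY : ∀ j, algebraMap K0 K (X j) = Y j) {lam : Fin (d + 1) → ℤ}
    {b : Fin (d + 1)} (hb : lam b ≠ 0) {v : Place ℂ K0}
    (hv : ∀ P : MvPolynomial (Fin (d + 1)) ℂ, P ≠ 0 → v.ord (aeval X P) = zord lam P)
    {P : Place ℂ K} {e : ℕ} (h : Over P v e) {S' : Finset K} {f : K}
    (hf : SecU Y φ S' f) :
    (∀ k, P.ord (Y k) = e * lam k) ∧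
      (f = 0 ∨ ∃ s ∈ S', s ≠ 0 ∧ (P.ord s : ℚ) + e * φ lam ≤ P.ord f) := by
  classical
  have hord : ∀ k, P.ord (Y k) = e * lam k := by
    intro k
    have h3 := hv (MvPolynomial.X k) (X_ne_zero _)
    rw [aeval_X, zord_X] at h3
    rw [← hXY, h.2, h3]
  refine ⟨hord, ?_⟩
  by_cases hz : f = 0
  · exact Or.inl hz
  obtain ⟨s, hs, hs0, hle⟩ := (hf P (div_zmono hX lam hb hv h)).resolve_left hz
  refine Or.inr ⟨s, hs, hs0, ?_⟩
  have hvec : vec Y P = e • lam := by
    funext k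
    change P.ord (Y k) = (e • lam) k
    rw [hord, Pi.smul_apply, nsmul_eq_mul]
  rw [hvec, hφ _ e h.1] at hle
  exact hle

end

/-- **The structure of the sections.** -/
theorem sec_u {Y : Fin (d + 1) → K} (hY : IsTranscendenceBasis ℂ Y)
    (hfd : FiniteDimensional (IntermediateField.adjoin ℂ (Set.range Y)) K)
    {ι : Type} [Fintype ι] (lam : ι → Fin (d + 1) → ℤ)
    (hlam : ∀ s, ∃ a b : Fin (d + 1) →₀ ℕ, zwt (lam s) a = zwt (lam s) b + 1) (S : Finset K) :
    ∃ (N0 : ℕ) (β : Fin N0 → K) (Q : K) (c1 : ℕ), Q ≠ 0 ∧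
      ∀ φ : (Fin (d + 1) → ℤ) → ℚ, (∀ v (e : ℕ), 1 ≤ e → φ (e • v) = e * φ v) →
      ∀ (j : ℕ) (f : K), SecU Y φ (pw S j) f →
      ∃ (M : ℕ) (R : Fin N0 → MvPolynomial (Fin (d + 1)) ℂ),
        f * (∏ k, Y k) ^ M * Q ^ (j + 1) = ∑ i, aeval Y (R i) * β i ∧
        ∀ i, ∀ a ∈ (R i).support, ∀ s,
          φ (lam s) - c1 * (j + 1) ≤ ((∑ k, lam s k * ((a k : ℤ) - M) : ℤ) : ℚ) := by
  classical
  obtain ⟨K', iF, iA, iK, hT, G0, G, fG0, fG, hGG, a1, a2, a3, a4, b1, b2, b3, b4, Y', X', hY', hX',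
    hYK, hXZ, hbX⟩ := exists_closure2 hY hY le_rfl hfd
  have hbY : IsTranscendenceBasis ℂ fun j => (Y' j : K') := by
    have h1 : (fun j => (Y' j : K')) = fun j => (X' j : K') := by
      funext j
      have h2 : (Y' j : K') = algebraMap K K' (Y j) := by
        rw [← hYK, ← IsScalarTower.algebraMap_apply (fixedField G0) K K']
        rfl
      have h3 : (X' j : K') = algebraMap K K' (Y j) := by
        rw [← hXZ, ← IsScalarTower.algebraMap_apply (fixedField G) K K']
        rfl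
      rw [h2, h3]
    rw [h1]
    exact hbX
  have hY0 : ∀ k, Y k ≠ 0 := fun k => hY.1.ne_zero k
  have hprod0 : (∏ k, Y k) ≠ 0 := Finset.prod_ne_zero_iff.2 fun k _ => hY0 k
  have hYK' : ∀ j, (Y' j : K') = algebraMap K K' (Y j) := by
    intro j
    rw [← hYK, ← IsScalarTower.algebraMap_apply (fixedField G0) K K']
    rfl
  have hYfun : (fun j => (Y' j : K')) = fun j => algebraMap K K' (Y j) := funext hYK'
  -- the test places
  choose vs hvs using fun s => exists_zmono hY' (lam s) (hlam s)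
  choose ws es Is hws hIsc hIs using fun s => exists_inertia G0 (vs s)
  obtain ⟨N0, b', Q, c1, hQ0, hC⟩ := one_str G0 hY' hbY lam hvs hws
    (S.image (algebraMap K K'))
  -- the constants of `S`
  obtain ⟨c2, hc2'⟩ : ∃ c2 : ℕ, ∀ t, ∀ g ∈ G0, ∀ s ∈ S, -(c2 : ℤ) ≤
      (ws t).ord (g (algebraMap K K' s)) := by
    have hfin : (⋃ t, Set.image2 (fun (g : K' ≃ₐ[ℂ] K') (s : K) => (ws t).ord
        (g (algebraMap K K' s))) (G0 : Set (K' ≃ₐ[ℂ] K')) (S : Set K)).Finite :=
      Set.finite_iUnion fun t => Set.Finite.image2 _ (Set.toFinite _) (Set.toFinite _)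
    obtain ⟨M0, hM0⟩ := hfin.bddBelow
    refine ⟨M0.natAbs, fun t g hg s hs => ?_⟩
    have h1 := hM0 (Set.mem_iUnion.2 ⟨t, Set.mem_image2_of_mem hg hs⟩)
    have h2 : -(M0.natAbs : ℤ) ≤ M0 := by omega
    exact h2.trans h1
  -- the projection to `K`
  obtain ⟨π, hπ⟩ := (IsScalarTower.toAlgHom (fixedField G0) K K').toLinearMap.exists_leftInverse_of_injective
    (LinearMap.ker_eq_bot.2 (algebraMap K K').injective)
  have hπ' : ∀ z : K, π (algebraMap K K' z) = z := fun z => LinearMap.congr_fun hπ z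
  have hYae : ∀ P : MvPolynomial (Fin (d + 1)) ℂ, aeval Y P =
      algebraMap (fixedField G0) K (aeval Y' P) := by
    intro P
    have h3 : Y = fun j => algebraMap (fixedField G0) K (Y' j) := funext fun j => (hYK j).symm
    rw [h3]
    exact MvPolynomial.aeval_algebraMap_apply K Y' P
  refine ⟨N0, fun i => π (b' i), aeval Y Q, c1 + c2, ?_, fun φ hφ j f hsec => ?_⟩
  · rw [hYae, Ne, map_eq_zero]
    exact hY'.ne hQ0
  obtain ⟨M, hM⟩ : ∃ M : ℕ, ∀ k : Fin (d + 1), - (M : ℚ) ≤ φ (Pi.single k 1) := by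
    obtain ⟨M, hM⟩ := exists_nat_ge (∑ k : Fin (d + 1), |φ (Pi.single k 1)|)
    refine ⟨M, fun k => ?_⟩
    have h1 := Finset.single_le_sum (f := fun k : Fin (d + 1) => |φ (Pi.single k 1)|)
      (fun _ _ => abs_nonneg _) (Finset.mem_univ k)
    have h2 := neg_abs_le (φ (Pi.single k 1))
    linarith
  obtain ⟨f', hf'⟩ : ∃ f', f' = f * (∏ k, Y k) ^ M := ⟨_, rfl⟩
  have hf'0 : f = 0 → f' = 0 := fun h => by rw [hf', h, zero_mul]
  -- from `K` to `K'`
  have hS' : ∀ s' ∈ pw S j, algebraMap K K' s' ∈ pw (S.image (algebraMap K K')) j := by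
    intro s' hs'
    obtain ⟨s, hs, rfl⟩ := mem_pw.1 hs'
    rw [map_pow]
    exact mem_pw.2 ⟨_, Finset.mem_image_of_mem _ hs, rfl⟩
  have hfine : Fine G0 Y' (pw (S.image (algebraMap K K')) j) (algebraMap K K' f') := by
    -- the places of the irreducible polynomials
    intro p hp v hvp hv
    obtain ⟨w, e, I, hwv, hcard, hI⟩ := exists_inertia G0 v
    refine ⟨w, e, hwv, fun g hg => ?_⟩
    obtain ⟨P, e1, e2, h1, h2, he⟩ := exists_restr (K := K) (over_comp hwv hg)
    rcases adic_u hφ hM hY' hYK hp hv h2 hsec with h3 | ⟨s', hs', hs0, hle⟩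
    · left
      rw [hf'0 h3, map_zero]
    · right
      refine ⟨algebraMap K K' s', hS' s' hs', by simpa using hs0, ?_⟩
      rw [← Place.comp_ord, ← Place.comp_ord, h1.2, h1.2, hf']
      exact mul_le_mul_of_nonneg_left hle (by positivity)
  have htest : ∀ s, ∀ g ∈ G0, Ge (ws s)
      (⌈(es s : ℚ) * (φ (lam s) + M * ∑ k, (lam s k : ℚ))⌉ - c2 * j)
      (g (algebraMap K K' f')) := by
    -- the test places
    intro s g hg
    obtain ⟨P, e1, e2, h1, h2, he⟩ := exists_restr (K := K) (over_comp (hws s) hg)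
    obtain ⟨b, hb⟩ := exists_ne_of_one (hlam s)
    obtain ⟨hord, htu⟩ := test_u hφ hY' hYK hb (hvs s) h2 hsec
    by_cases hz : f = 0
    · left
      rw [hf'0 hz, map_zero, map_zero]
    obtain ⟨s', hs', hs0, hle⟩ := htu.resolve_left hz
    right
    obtain ⟨s0, hs, rfl⟩ := mem_pw.1 hs'
    have h4 := hc2' s g hg s0 hs
    rw [← Place.comp_ord, h1.2] at h4
    rw [← Place.comp_ord, h1.2]
    rw [P.ord_pow] at hle
    have h5 : P.ord f' = P.ord f + M * ∑ k, (e2 * lam s k : ℤ) := by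
      rw [hf', P.ord_mul hz (pow_ne_zero _ hprod0), P.ord_pow,
        ord_prod' P Finset.univ _ fun k _ => hY0 k]
      congr 2
      exact Finset.sum_congr rfl fun k _ => hord k
    rw [← Finset.mul_sum] at h5
    obtain ⟨L, hL⟩ : ∃ L : ℤ, L = ∑ k, lam s k := ⟨_, rfl⟩
    have hLq : ∑ k, (lam s k : ℚ) = L := by
      rw [hL]
      push_cast
      rfl
    rw [← hL] at h5
    rw [hLq, h5]
    have he1 : (0 : ℚ) ≤ e1 := by positivity
    have h6 := mul_le_mul_of_nonneg_left hle he1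
    have h7 : (j : ℤ) * (-(c2 : ℤ)) ≤ j * (e1 * P.ord s0) :=
      mul_le_mul_of_nonneg_left h4 (by positivity)
    have h7' : (j : ℚ) * (-(c2 : ℚ)) ≤ j * (e1 * P.ord s0) := by exact_mod_cast h7
    have h12 : ⌈(es s : ℚ) * (φ (lam s) + M * L)⌉ ≤
        (e1 : ℤ) * (P.ord f + M * (e2 * L)) + c2 * j := by
      rw [Int.ceil_le, he]
      push_cast at h6 h7' ⊢
      nlinarith
    linarith
  obtain ⟨R, hR, hRs⟩ := hC j _ (algebraMap K K' f') hfine htest
  refine ⟨M, R, ?_, fun i a ha s => ?_⟩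
  · have h1 := congrArg π hR
    have h2 : algebraMap K K' f' * aeval (fun j => (Y' j : K')) Q ^ (j + 1) =
        algebraMap K K' (f' * aeval Y Q ^ (j + 1)) := by
      rw [map_mul, map_pow, hYfun]
      congr 2
      exact MvPolynomial.aeval_algebraMap_apply K' Y Q
    rw [h2, hπ'] at h1
    rw [← hf', h1, map_sum]
    refine Finset.sum_congr rfl fun i _ => ?_
    have h3 : ((aeval Y' (R i) : fixedField G0) : K') * b' i =
        (aeval Y' (R i) : fixedField G0) • b' i := by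
      rw [Algebra.smul_def]
      rfl
    rw [h3, map_smul, Algebra.smul_def, hYae]
  · have h1 := hRs i a ha s
    obtain ⟨L, hL⟩ : ∃ L : ℤ, L = ∑ k, lam s k := ⟨_, rfl⟩
    have hLq : ∑ k, (lam s k : ℚ) = L := by
      rw [hL]
      push_cast
      rfl
    rw [hLq] at h1
    have h2 : ∑ k, lam s k * ((a k : ℤ) - M) = zwt (lam s) a - M * L := by
      rw [hL]
      unfold zwt
      rw [Finset.mul_sum, ← Finset.sum_sub_distrib]
      exact Finset.sum_congr rfl fun k _ => by ring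
    rw [h2]
    obtain ⟨W, hW⟩ : ∃ W : ℤ, W = zwt (lam s) a := ⟨_, rfl⟩
    rw [← hW] at h1 ⊢
    have h3 : ⌈(es s : ℚ) * (φ (lam s) + M * L)⌉ ≤ es s * W + c2 * j + c1 * (j + 1) := by
      linarith
    rw [Int.ceil_le] at h3
    push_cast at h3 ⊢
    have hes : (1 : ℚ) ≤ es s := by exact_mod_cast (hws s).1
    have h4 : (es s : ℚ) * (φ (lam s) + M * L - W) ≤ c2 * j + c1 * (j + 1) := by
      linarith
    have h5 : φ (lam s) + M * L - W ≤ c2 * j + c1 * (j + 1) := by
      by_cases h6 : φ (lam s) + M * L - W ≤ 0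
      · exact h6.trans (by positivity)
      · push Not at h6
        nlinarith
    have h6 : (0 : ℚ) ≤ c2 := by positivity
    linarith

/-- the monomial places exist -/
theorem exists_vec {Y : Fin (d + 1) → K} (hY : IsTranscendenceBasis ℂ Y)
    (hfd : FiniteDimensional (IntermediateField.adjoin ℂ (Set.range Y)) K)
    {lam : Fin (d + 1) → ℤ} (hlam : ∃ a b : Fin (d + 1) →₀ ℕ, zwt lam a = zwt lam b + 1) :
    ∃ (P : Place ℂ K) (e : ℕ), IsDivisorial P (d + 1) ∧ 1 ≤ e ∧ vec Y P = e • lam := by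
  classical
  obtain ⟨K', iF, iA, iK, hT, G0, G, fG0, fG, hGG, a1, a2, a3, a4, b1, b2, b3, b4, Y', X', hY', hX',
    hYK, hXZ, hbX⟩ := exists_closure2 hY hY le_rfl hfd
  obtain ⟨v, hv⟩ := exists_zmono hY' lam hlam
  obtain ⟨w, e, I, hwv, -, -⟩ := exists_inertia G0 v
  obtain ⟨P, e1, e2, h1, h2, he⟩ := exists_restr (K := K) hwv
  obtain ⟨b, hb⟩ := exists_ne_of_one hlam
  refine ⟨P, e2, div_zmono hY' lam hb hv h2, h2.1, ?_⟩
  funext k
  change P.ord (Y k) = (e2 • lam) k
  have h3 := hv (MvPolynomial.X k) (X_ne_zero _)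
  rw [aeval_X, zord_X] at h3
  rw [← hYK, h2.2, h3, Pi.smul_apply, nsmul_eq_mul]

end Pool.Agent.Q57.UG
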