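import Pool.Agent.Q57.UG.Cone
import Pool.Agent.Q57.UG.Sec
import Pool.Agent.Q57.GM.Gmm

/-!
The asymptotic orders of the functions whose orders are bounded by functions of the orders of the
coordinates are computed by finitely many monomials.
-/

set_option autoImplicit false
set_option linter.overlappingInstances false
set_option linter.unusedSectionVars false
set_option maxHeartbeats 1000000

open FF MvPolynomial IntermediateField Pool.Agent.W603.LV Pool.Agent.W619.PQ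
open Pool.Agent.W619.TW Pool.Agent.W602.GT Pool.Agent.TH122.AB Pool.Agent.TH756.PN
open Pool.Agent.Y169.CH Pool.Agent.Y169.TH Pool.Agent.Q57.GM

namespace Pool.Agent.Q57.UG

variable {d p : ℕ} {ι : Type} [Fintype ι] {K : Type} [Field K] [Algebra ℂ K]

/-- **The lower bound by a monomial.** -/
theorem low_u {Y : Fin (d + 1) → K} (hY : IsTranscendenceBasis ℂ Y)
    (hfd : FiniteDimensional (IntermediateField.adjoin ℂ (Set.range Y)) K)
    (t : ι → Fin (d + 1) → ℤ) (ht : ∀ s, t s ≠ 0) (S : Finset K) :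
    ∃ c1 : ℕ, ∀ P : Place ℂ K, ∃ c2 : ℕ,
      ∀ φ : (Fin (d + 1) → ℤ) → ℚ, (∀ v (e : ℕ), 1 ≤ e → φ (e • v) = e * φ v) →
      ∀ (j : ℕ) (f : K), f ≠ 0 → SecU Y φ (pw S j) f →
      ∃ u : Fin (d + 1) → ℤ,
        (∀ s, φ (t s) - c1 * (j + 1) ≤ ((∑ k, t s k * u k : ℤ) : ℚ)) ∧
        ∑ k, P.ord (Y k) * u k ≤ P.ord f + c2 * (j + 1) := by
  classical
  choose lam n hn htl hlam using fun s => exists_prim (ht s)
  obtain ⟨N0, β, Q, c1, hQ, hstr⟩ := sec_u hY hfd lam hlam S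
  obtain ⟨nn, hnn⟩ : ∃ nn : ℕ, nn = ∑ s, n s := ⟨_, rfl⟩
  have hnle : ∀ s, n s ≤ nn := by
    intro s
    rw [hnn]
    exact Finset.single_le_sum (f := fun s => n s) (fun _ _ => Nat.zero_le _) (Finset.mem_univ s)
  refine ⟨nn * c1, fun P => ?_⟩
  obtain ⟨B, hB⟩ : ∃ B : ℤ, B = ∑ i, |P.ord (β i)| := ⟨_, rfl⟩
  have hB0 : 0 ≤ B := by
    rw [hB]
    exact Finset.sum_nonneg fun _ _ => abs_nonneg _
  have hBle : ∀ i, - B ≤ P.ord (β i) := by
    intro i
    have h1 := Finset.single_le_sum (f := fun i => |P.ord (β i)|) (fun _ _ => abs_nonneg _)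
      (Finset.mem_univ i)
    have h2 := neg_abs_le (P.ord (β i))
    rw [hB]
    linarith
  obtain ⟨c2, hc2⟩ : ∃ c2 : ℕ, (c2 : ℤ) = B + |P.ord Q| :=
    ⟨(B + |P.ord Q|).toNat, Int.toNat_of_nonneg (by positivity)⟩
  refine ⟨c2, fun φ hφ j f hf0 hsec => ?_⟩
  obtain ⟨M, R, hR, hRs⟩ := hstr φ hφ j f hsec
  have hY0 : ∀ k, Y k ≠ 0 := fun k => hY.1.ne_zero k
  have hprod0 : (∏ k, Y k) ^ M ≠ 0 :=
    pow_ne_zero _ (Finset.prod_ne_zero_iff.2 fun k _ => hY0 k)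
  have hsum : ∑ i, aeval Y (R i) * β i ≠ 0 := by
    rw [← hR]
    exact mul_ne_zero (mul_ne_zero hf0 hprod0) (pow_ne_zero _ hQ)
  obtain ⟨i, a, ha, hia⟩ := ord_sum_low P hY0 R β hsum
  rw [← hR, P.ord_mul (mul_ne_zero hf0 hprod0) (pow_ne_zero _ hQ), P.ord_mul hf0 hprod0,
    P.ord_pow, P.ord_pow, ord_prod' P Finset.univ _ fun k _ => hY0 k] at hia
  refine ⟨fun k => (a k : ℤ) - M, fun s => ?_, ?_⟩
  · have h1 := hRs i a ha s
    have h2 : ∑ k, t s k * ((a k : ℤ) - M) = n s * ∑ k, lam s k * ((a k : ℤ) - M) := by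
      rw [Finset.mul_sum]
      refine Finset.sum_congr rfl fun k _ => ?_
      have h3 : t s k = n s * lam s k := by
        have h4 := congrFun (htl s) k
        rwa [Pi.smul_apply, nsmul_eq_mul] at h4
      rw [h3]
      ring
    rw [h2, htl s, hφ _ _ (hn s), Int.cast_mul, Int.cast_natCast]
    obtain ⟨W, hW⟩ : ∃ W : ℤ, W = ∑ k, lam s k * ((a k : ℤ) - M) := ⟨_, rfl⟩
    rw [← hW] at h1 ⊢
    have h3 : (0 : ℚ) ≤ n s := by positivity
    have h4 := mul_le_mul_of_nonneg_left h1 h3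
    have h5 : (n s : ℚ) ≤ nn := by exact_mod_cast hnle s
    have h6 : (n s : ℚ) * (c1 * (j + 1)) ≤ nn * (c1 * (j + 1)) :=
      mul_le_mul_of_nonneg_right h5 (by positivity)
    push_cast
    linarith
  · have h1 : ∑ k, P.ord (Y k) * ((a k : ℤ) - M) =
        ∑ b, (a b : ℤ) * P.ord (Y b) - M * ∑ b, P.ord (Y b) := by
      rw [Finset.mul_sum, ← Finset.sum_sub_distrib]
      exact Finset.sum_congr rfl fun k _ => by ring
    rw [h1]
    have h2 := hBle i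
    have h3 : ((j + 1 : ℕ) : ℤ) * P.ord Q ≤ (j + 1) * |P.ord Q| := by
      push_cast
      exact mul_le_mul_of_nonneg_left (le_abs_self _) (by positivity)
    have h4 : B ≤ B * (j + 1) := by
      have : (0 : ℤ) ≤ B * j := by positivity
      linarith
    rw [hc2]
    linarith

/-- the monomial -/
noncomputable def mnU (Y : Fin (d + 1) → K) (u : Fin (d + 1) → ℤ) : K := ∏ k, Y k ^ u k

theorem mnU_ne {Y : Fin (d + 1) → K} (hY : ∀ k, Y k ≠ 0) (u : Fin (d + 1) → ℤ) :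
    mnU Y u ≠ 0 := Finset.prod_ne_zero_iff.2 fun k _ => zpow_ne_zero _ (hY k)

theorem ord_mnU {Y : Fin (d + 1) → K} (hY : ∀ k, Y k ≠ 0) (u : Fin (d + 1) → ℤ)
    (P : Place ℂ K) : P.ord (mnU Y u) = ∑ k, P.ord (Y k) * u k := by
  unfold mnU
  rw [ord_prod' P Finset.univ _ fun k _ => zpow_ne_zero _ (hY k)]
  exact Finset.sum_congr rfl fun k _ => by rw [P.ord_zpow]; ring

/-- **The asymptotic orders.** -/
theorem geo_u {Y : Fin (d + 1) → K} (hY : IsTranscendenceBasis ℂ Y)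
    (hfd : FiniteDimensional (IntermediateField.adjoin ℂ (Set.range Y)) K)
    {t : ι → Fin (d + 1) → ℤ} (ht : ∀ s, t s ≠ 0) {a : Fin p → ι → ℚ} {N0 : ℕ}
    {g : Fin N0 → Fin p →₀ ℕ} {U : Fin N0 → Fin (d + 1) → ℤ} (happ : Approx t a g U)
    {φ : Fin p → (Fin (d + 1) → ℤ) → ℚ} (hφ : ∀ i v (e : ℕ), 1 ≤ e → φ i (e • v) = e * φ i v)
    (ha : ∀ i s, φ i (t s) = a i s) (P : Place ℂ K) (S : Finset K) :
    ∃ C1 : ℕ, ∀ (μ : Fin p → ℕ) (j : ℕ) (f : K), f ≠ 0 →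
      SecU Y (fun v => ∑ i, (μ i : ℚ) * φ i v) (pw S j) f →
      ∃ e : Fin N0 → ℕ, (∀ i, |∑ b, (e b : ℤ) * g b i - μ i| ≤ C1 * (j + 1)) ∧
        ∑ b, (e b : ℤ) * P.ord (mnU Y (U b)) ≤ P.ord f + C1 * (j + 1) := by
  classical
  obtain ⟨c1, hc1⟩ := low_u hY hfd t ht S
  obtain ⟨c2, hc2⟩ := hc1 P
  obtain ⟨C, hC⟩ := happ c1 (fun k => P.ord (Y k))
  refine ⟨C + c2, fun μ j f hf hsec => ?_⟩
  obtain ⟨u, hu1, hu2⟩ := hc2 _ (fun v e he => by
    rw [Finset.mul_sum]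
    exact Finset.sum_congr rfl fun i _ => by rw [hφ i v e he]; ring) j f hf hsec
  obtain ⟨e, he1, he2⟩ := hC μ u j fun s => by
    refine le_trans (le_of_eq ?_) (hu1 s)
    congr 1
    exact Finset.sum_congr rfl fun i _ => by rw [ha]
  refine ⟨e, fun i => (he1 i).trans ?_, ?_⟩
  · push_cast
    have : (0 : ℤ) ≤ c2 * (j + 1) := by positivity
    linarith
  · have h1 : ∑ b, (e b : ℤ) * P.ord (mnU Y (U b)) =
        ∑ b, (e b : ℤ) * ∑ k, P.ord (Y k) * U b k :=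
      Finset.sum_congr rfl fun b _ => by rw [ord_mnU fun k => hY.1.ne_zero k]
    rw [h1]
    have h2 := (abs_le.1 he2).2
    push_cast
    linarith

end Pool.Agent.Q57.UG
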