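import Pool.Agent.Q57.UG.Pol
import Pool.Agent.Q57.UG.Form

/-!
The numerical dimension: the number of sections is bounded by the number of lattice points.
-/

set_option autoImplicit false
set_option linter.overlappingInstances false
set_option linter.unusedSectionVars false
set_option maxHeartbeats 1000000

open FF MvPolynomial Pool.Agent.W603.LV Pool.Agent.W619.PQ
open Pool.Agent.W602.GT Pool.Agent.TH122.AB Pool.Agent.Q57.TP Pool.Agent.Q57.FG Pool.Agent.Q57.GG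
open Pool.Agent.Y169.CH Pool.Agent.Y169.CH.Cvr

namespace Pool.Agent.Q57.UG

variable {d p : ℕ} {ι : Type} [Fintype ι] {K : Type} [Field K] [Algebra ℂ K]

/-- **Functions with bounded poles.** -/
theorem fun_num {Y : Fin (d + 1) → K} (hY : IsTranscendenceBasis ℂ Y)
    (hfd : FiniteDimensional (IntermediateField.adjoin ℂ (Set.range Y)) K)
    {t : ι → Fin (d + 1) → ℤ} (ht : ∀ s, t s ≠ 0)
    (hspan : ∀ u : Fin (d + 1) → ℤ, (∀ s, 0 ≤ ∑ k, t s k * u k) → u = 0)
    {φ : (Fin (d + 1) → ℤ) → ℚ} (hφ : ∀ v (e : ℕ), 1 ≤ e → φ (e • v) = e * φ v)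
    (hne : (Pol t fun s => φ (t s)).Nonempty) (S : Finset K) :
    ∃ C : ℕ, ∀ (m M0 : ℕ), 1 ≤ m → ∀ f : Fin M0 → K, LinearIndependent ℂ f →
      (∀ l, SecU Y (fun v => m * φ v) S (f l)) →
        M0 ≤ C * m ^ Module.finrank ℚ (vectorSpan ℚ (Pol t fun s => φ (t s))) := by
  classical
  choose lam n hn htl hlam using fun s => exists_prim (ht s)
  obtain ⟨N0, β, Q, c1, hQ, hstr⟩ := sec_u hY hfd lam hlam S
  obtain ⟨nn, hnn⟩ : ∃ nn : ℕ, nn = ∑ s, n s := ⟨_, rfl⟩
  have hnle : ∀ s, n s ≤ nn := by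
    intro s
    rw [hnn]
    exact Finset.single_le_sum (f := fun s => n s) (fun _ _ => Nat.zero_le _) (Finset.mem_univ s)
  obtain ⟨c, hc⟩ : ∃ c : ℕ, c = nn * (c1 * 2) := ⟨_, rfl⟩
  obtain ⟨C1, hC1⟩ := pol_count hspan hne c
  have hY0 : ∀ k, Y k ≠ 0 := fun k => hY.1.ne_zero k
  refine ⟨N0 * C1, fun m M0 hm f hlin hsec => ?_⟩
  obtain ⟨A, hA⟩ : ∃ A : Finset (Fin (d + 1) → ℤ), ∀ a, a ∈ A ↔
      ∀ s, φ (t s) * m - c ≤ ((∑ k, t s k * a k : ℤ) : ℚ) := by
    refine ⟨(pol_finite hspan (fun s => φ (t s)) m c).toFinset, fun a => ?_⟩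
    rw [Set.Finite.mem_toFinset]
    rfl
  obtain ⟨F, hF⟩ : ∃ F : Fin N0 × A → K, F = fun x => mnU Y x.2.1 * β x.1 := ⟨_, rfl⟩
  have hmem : ∀ l, f l * Q ^ 2 ∈ Submodule.span ℂ (Set.range F) := by
    intro l
    obtain ⟨M, R, hR, hRs⟩ := hstr (fun v => m * φ v) (fun v e he => by rw [hφ v e he]; ring) 1
      (f l) (by rw [pw_one]; exact hsec l)
    have hprod0 : (∏ k, Y k) ^ M ≠ 0 :=
      pow_ne_zero _ (Finset.prod_ne_zero_iff.2 fun k _ => hY0 k)
    have h1 : f l * Q ^ 2 = ∑ i, ∑ a ∈ (R i).support,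
        (coeff a (R i)) • (mnU Y (fun k => (a k : ℤ) - M) * β i) := by
      have h2 : f l * Q ^ 2 = (∑ i, aeval Y (R i) * β i) / (∏ k, Y k) ^ M := by
        rw [eq_div_iff hprod0, ← hR]
        ring
      rw [h2, Finset.sum_div]
      refine Finset.sum_congr rfl fun i _ => ?_
      have h3 : aeval Y (R i) = ∑ a ∈ (R i).support, algebraMap ℂ K (coeff a (R i)) *
          ∏ k, Y k ^ a k := by
        rw [MvPolynomial.aeval_def, MvPolynomial.eval₂_eq']
      rw [h3, Finset.sum_mul, Finset.sum_div]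
      refine Finset.sum_congr rfl fun a _ => ?_
      have h4 : mnU Y (fun k => (a k : ℤ) - M) = (∏ k, Y k ^ a k) / (∏ k, Y k) ^ M := by
        unfold mnU
        rw [← Finset.prod_pow, ← Finset.prod_div_distrib]
        exact Finset.prod_congr rfl fun k _ => by
          rw [zpow_sub₀ (hY0 k), zpow_natCast, zpow_natCast]
      rw [h4, Algebra.smul_def]
      ring
    rw [h1]
    refine Submodule.sum_mem _ fun i _ => Submodule.sum_mem _ fun a ha =>
      Submodule.smul_mem _ _ (Submodule.subset_span ?_)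
    refine ⟨(i, ⟨fun k => (a k : ℤ) - M, (hA _).2 fun s => ?_⟩), by rw [hF]⟩
    have h5 := hRs i a ha s
    have h6 : ∑ k, t s k * ((a k : ℤ) - M) = n s * ∑ k, lam s k * ((a k : ℤ) - M) := by
      rw [Finset.mul_sum]
      refine Finset.sum_congr rfl fun k _ => ?_
      have h3 : t s k = n s * lam s k := by
        have h4 := congrFun (htl s) k
        rwa [Pi.smul_apply, nsmul_eq_mul] at h4
      rw [h3]
      ring
    rw [h6, htl s, hφ _ _ (hn s), Int.cast_mul, Int.cast_natCast]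
    obtain ⟨W, hW⟩ : ∃ W : ℤ, W = ∑ k, lam s k * ((a k : ℤ) - M) := ⟨_, rfl⟩
    rw [← hW] at h5 ⊢
    have h3 : (0 : ℚ) ≤ n s := by positivity
    have h4 := mul_le_mul_of_nonneg_left h5 h3
    have h7 : (n s : ℚ) ≤ nn := by exact_mod_cast hnle s
    have h8 : (n s : ℚ) * (c1 * 2) ≤ nn * (c1 * 2) :=
      mul_le_mul_of_nonneg_right h7 (by positivity)
    rw [hc]
    push_cast at h4 ⊢
    nlinarith
  obtain ⟨V, hV⟩ : ∃ V : Submodule ℂ K, V = Submodule.span ℂ (Set.range F) := ⟨_, rfl⟩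
  rw [← hV] at hmem
  have hfV : FiniteDimensional ℂ V := by
    rw [hV]
    exact FiniteDimensional.span_of_finite ℂ (Set.finite_range F)
  have hlin' : LinearIndependent ℂ fun l => (⟨f l * Q ^ 2, hmem l⟩ : V) := by
    refine LinearIndependent.of_comp V.subtype ?_
    have h1 : (V.subtype ∘ fun l => (⟨f l * Q ^ 2, hmem l⟩ : V)) =
        (LinearMap.mulRight ℂ (Q ^ 2)) ∘ f := by
      funext l
      rfl
    rw [h1]
    exact hlin.map' _ (LinearMap.ker_eq_bot.2 fun x y hxy => by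
      have h2 : x * Q ^ 2 = y * Q ^ 2 := hxy
      exact mul_right_cancel₀ (pow_ne_zero _ hQ) h2)
  have h1 := hlin'.fintype_card_le_finrank
  rw [Fintype.card_fin] at h1
  have h2 : Module.finrank ℂ V ≤ N0 * A.card := by
    rw [hV]
    refine (finrank_range_le_card F).trans (le_of_eq ?_)
    rw [Fintype.card_prod, Fintype.card_fin, Fintype.card_coe]
  have h3 := hC1 m hm A fun a ha => (hA a).1 ha
  calc M0 ≤ N0 * A.card := h1.trans h2
    _ ≤ N0 * (C1 * m ^ Module.finrank ℚ (vectorSpan ℚ (Pol t fun s => φ (t s)))) :=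
        Nat.mul_le_mul_left _ h3
    _ = _ := by ring

/-- **The numerical dimension.** -/
theorem num_u {Y : Fin (d + 1) → K} {t : ι → Fin (d + 1) → ℤ} {a : Fin p → ι → ℚ}
    {φ : Fin p → (Fin (d + 1) → ℤ) → ℚ} (H : Data Y t a φ)
    (hspan : ∀ u : Fin (d + 1) → ℤ, (∀ s, 0 ≤ ∑ k, t s k * u k) → u = 0)
    {Ω : (Fin (d + 1) → Derivation ℂ K K) → K} (hΩ : IsPluri 1 Ω)
    (hΩ0 : Ω ≠ 0) {G : K} (hG : G ≠ 0) {q : ℕ} (hq : 1 ≤ q) {δ : Fin p → Place ℂ K → ℚ}
    (hδ : ∀ i P, IsDivisorial P (d + 1) →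
      δ i P = - φ i (vec Y P) - moF Ω P - (P.ord G : ℚ) / q) (μ : Fin p →₀ ℕ)
    (hne : (Pol t fun s => ∑ i, (μ i : ℚ) * a i s).Nonempty) (S : Finset K) :
    ∃ C : ℕ, ∀ (m M0 : ℕ), 1 ≤ m → ∀ ω : Fin M0 → (Fin (d + 1) → Derivation ℂ K K) → K,
      LinearIndependent ℂ ω → (∀ l, ASec (d + 1) δ S (m • μ) 1 (ω l)) →
        M0 ≤ C * m ^ Module.finrank ℚ
          (vectorSpan ℚ (Pol t fun s => ∑ i, (μ i : ℚ) * a i s)) := by
  classical
  obtain ⟨φ', hφ'⟩ : ∃ φ' : (Fin (d + 1) → ℤ) → ℚ, φ' = fun v => ∑ i, (μ i : ℚ) * φ i v :=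
    ⟨_, rfl⟩
  have hpol : (fun s => φ' (t s)) = fun s => ∑ i, (μ i : ℚ) * a i s := by
    funext s
    rw [hφ']
    exact Finset.sum_congr rfl fun i _ => by rw [H.ha]
  rw [← hpol] at hne ⊢
  obtain ⟨C, hC⟩ := fun_num H.hY H.hfd H.ht hspan (φ := φ') (fun v e he => by
    rw [hφ']
    dsimp only
    rw [Finset.mul_sum]
    exact Finset.sum_congr rfl fun i _ => by rw [H.hom i v e he]; ring) hne
    (S ∪ S.image fun s => s * G)
  have hqq : (0 : ℚ) < q := by exact_mod_cast hq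
  obtain ⟨D0, hD0'⟩ := Pool.Agent.W602.GT.exists_dual H.hY
  have hD0 : ∀ i j, D0 i (Y j) = if i = j then 1 else 0 := by
    intro i j
    have h1 := congrFun (congrFun hD0' i) j
    rw [Matrix.of_apply, Matrix.one_apply] at h1
    exact h1
  have hpl : ∀ {m : ℕ} {η : (Fin (d + 1) → Derivation ℂ K K) → K}, IsPluri m η → ∀ D,
      η D = (Matrix.of fun b c => D b (Y c)).det ^ m * η D0 := fun hη D =>
    pluri_det H.hY hD0 hη D
  have hΩD0 : Ω D0 ≠ 0 := by
    intro h0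
    apply hΩ0
    funext D
    rw [hpl hΩ D, h0, mul_zero]
    rfl
  refine ⟨C, fun m M0 hm ω hlin hsec => ?_⟩
  obtain ⟨m', hm'⟩ : ∃ m' : ℕ, m' = ∑ i, (m • μ) i := ⟨_, rfl⟩
  obtain ⟨X, hX⟩ : ∃ X, X = Ω D0 ^ m' * G ^ (m' / q) := ⟨_, rfl⟩
  have hX0 : X ≠ 0 := by
    rw [hX]
    exact mul_ne_zero (pow_ne_zero _ hΩD0) (pow_ne_zero _ hG)
  have hωp : ∀ l, IsPluri m' (ω l) := by
    intro l
    rw [hm']
    exact (hsec l).1
  refine hC m M0 hm (fun l => ω l D0 / X) ?_ fun l P' hP' => ?_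
  · -- the linear independence
    rw [Fintype.linearIndependent_iff] at hlin ⊢
    intro g hg l
    refine hlin g ?_ l
    funext D
    have h1 : ∑ l, g l • ω l D0 = 0 := by
      have h2 : ∑ l, g l • (ω l D0 / X) = (∑ l, g l • ω l D0) / X := by
        rw [Finset.sum_div]
        exact Finset.sum_congr rfl fun l _ => by rw [Algebra.smul_def, Algebra.smul_def, mul_div_assoc]
      rw [h2, div_eq_zero_iff] at hg
      exact hg.resolve_right hX0
    rw [Finset.sum_apply]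
    have h3 : ∀ l, (g l • ω l) D = (Matrix.of fun b c => D b (Y c)).det ^ m' * (g l • ω l D0) := by
      intro l
      rw [Pi.smul_apply, hpl (hωp l) D, mul_smul_comm]
    rw [Finset.sum_congr rfl fun l _ => h3 l, ← Finset.mul_sum, h1, mul_zero]
    rfl
  · -- the sections
    obtain ⟨⟨D', hD'reg, hD'0, hD'mo⟩, -⟩ := frame_u H.hY H.hfd hΩ hΩ0 hP'
    by_cases hωl : ω l D0 = 0
    · left
      rw [hωl, zero_div]
    right
    have h1 := hpl hΩ D'
    rw [pow_one] at h1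
    have h2 : (Matrix.of fun b c => D' b (Y c)).det ≠ 0 := by
      intro h3
      rw [h3, zero_mul] at h1
      exact hD'0 h1
    have h3 : ω l D' = (ω l D0 / X) * (Ω D' ^ m' * G ^ (m' / q)) := by
      have h4 : Ω D' ^ m' * G ^ (m' / q) =
          (Matrix.of fun b c => D' b (Y c)).det ^ m' * X := by
        rw [h1, hX]
        ring
      rw [h4, hpl (hωp l) D', div_mul_eq_mul_div, eq_div_iff hX0]
      ring
    have h4 : ω l D' ≠ 0 := by
      rw [hpl (hωp l) D']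
      exact mul_ne_zero (pow_ne_zero _ h2) hωl
    obtain ⟨s, hs, hs0, hle⟩ := ((hsec l).2 P' hP' D' hD'reg).resolve_left h4
    have hf0 : ω l D0 / X ≠ 0 := div_ne_zero hωl hX0
    have h5 : (P'.ord (ω l D') : ℚ) = P'.ord (ω l D0 / X) + (m' * moF Ω P' +
        (m' / q : ℕ) * P'.ord G) := by
      rw [h3, P'.ord_mul hf0 (mul_ne_zero (pow_ne_zero _ hD'0) (pow_ne_zero _ hG)),
        P'.ord_mul (pow_ne_zero _ hD'0) (pow_ne_zero _ hG), P'.ord_pow, P'.ord_pow, hD'mo]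
      generalize m' / q = k
      push_cast
      ring
    have h6 : - ∑ i, (((m • μ) i : ℕ) : ℚ) * δ i P' = m * φ' (vec Y P') + m' * moF Ω P' +
        m' * ((P'.ord G : ℚ) / q) := by
      have h7 : ∀ i, (((m • μ) i : ℕ) : ℚ) * δ i P' = - (m * (μ i * φ i (vec Y P'))) -
          (((m • μ) i : ℕ) : ℚ) * (moF Ω P' + (P'.ord G : ℚ) / q) := by
        intro i
        rw [hδ i P' hP', Finsupp.smul_apply, smul_eq_mul]
        push_cast
        ring
      rw [Finset.sum_congr rfl fun i _ => h7 i, Finset.sum_sub_distrib, Finset.sum_neg_distrib,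
        ← Finset.sum_mul, ← Finset.mul_sum, hφ', hm']
      push_cast
      ring
    have h7 : (m' : ℚ) / q = (m' / q : ℕ) + ((m' % q : ℕ) : ℚ) / q := by
      have h8 : (m' : ℚ) = q * (m' / q : ℕ) + (m' % q : ℕ) := by
        exact_mod_cast (Nat.div_add_mod m' q).symm
      field_simp
      linarith
    have h8 : (m' : ℚ) * ((P'.ord G : ℚ) / q) = (m' / q : ℕ) * P'.ord G +
        (((m' % q : ℕ) : ℚ) / q) * P'.ord G := by
      rw [← add_mul, ← h7]
      ring
    have h9 : (0 : ℚ) ≤ ((m' % q : ℕ) : ℚ) / q := by positivity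
    have h10 : ((m' % q : ℕ) : ℚ) / q ≤ 1 := by
      rw [div_le_one hqq]
      exact_mod_cast (Nat.mod_lt m' hq).le
    rw [Nat.cast_one, one_mul] at hle
    by_cases hG' : 0 ≤ P'.ord G
    · refine ⟨s, Finset.mem_union_left _ hs, hs0, ?_⟩
      have h11 : (0 : ℚ) ≤ (((m' % q : ℕ) : ℚ) / q) * P'.ord G :=
        mul_nonneg h9 (by exact_mod_cast hG')
      linarith
    · push Not at hG'
      refine ⟨s * G, Finset.mem_union_right _ (Finset.mem_image_of_mem _ hs),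
        mul_ne_zero hs0 hG, ?_⟩
      rw [P'.ord_mul hs0 hG]
      have h11 : (P'.ord G : ℚ) ≤ (((m' % q : ℕ) : ℚ) / q) * P'.ord G := by
        have h12 : (P'.ord G : ℚ) ≤ 0 := by exact_mod_cast hG'.le
        nlinarith
      push_cast
      linarith

end Pool.Agent.Q57.UG
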