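import Pool.Agent.Q57.UG.KodLp
import Pool.Agent.Q57.UG.Num

/-!
The Kodaira dimension is attained by the sections of a uniform multiple.
-/

set_option autoImplicit false
set_option linter.overlappingInstances false
set_option linter.unusedSectionVars false
set_option maxHeartbeats 1000000

open FF MvPolynomial Pool.Agent.W602.GT Pool.Agent.Q57.TP Pool.Agent.Q57.GM Pool.Agent.Q57.FG
open Pool.Agent.Q57.GG Pool.Agent.Q57.GC Pool.Agent.Y169.TH

namespace Pool.Agent.Q57.UG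

variable {d p N : ℕ} {ι : Type} [Fintype ι] {K : Type} [Field K] [Algebra ℂ K]

/-- the sections of the divisor define a map whose image has dimension at least `h` -/
def ImGe (N : ℕ) (δ : Fin p → Place ℂ K → ℚ) (μ : Fin p →₀ ℕ) (h : ℕ) : Prop :=
  ∃ ω : Fin (h + 1) → (Fin N → Derivation ℂ K K) → K, (∀ b, MSec N δ μ (ω b)) ∧
    ∃ D, ω 0 D ≠ 0 ∧ AlgebraicIndependent ℂ (fun b : Fin h => ω b.succ D / ω 0 D)

/-- **The Kodaira dimension.** -/
theorem kod_u {Y : Fin (d + 1) → K} {t : ι → Fin (d + 1) → ℤ} {a : Fin p → ι → ℚ}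
    {φ : Fin p → (Fin (d + 1) → ℤ) → ℚ} (H : Data Y t a φ) {N0 : ℕ}
    {g : Fin N0 → Fin p →₀ ℕ} {U : Fin N0 → Fin (d + 1) → ℤ}
    {Ω : (Fin (d + 1) → Derivation ℂ K K) → K} (hΩ : IsPluri 1 Ω)
    (hΩ0 : Ω ≠ 0) {G : K} (hG : G ≠ 0) {q : ℕ} (hq : 1 ≤ q) {δ : Fin p → Place ℂ K → ℚ}
    (hms : ∀ b, q • g b ≠ 0 ∧ MSec (d + 1) δ (q • g b) (omU Y Ω G q (g b) (U b)))
    (hex : Exact t a g U) {n T : ℕ} {h : Fin n → Fin p → ℚ}
    (hfo : FormsOK (fun b => q • g b) n h T) (μ : Fin p →₀ ℕ)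
    (hne : (Pol t fun s => ∑ i, (μ i : ℚ) * a i s).Nonempty) :
    ImGe (d + 1) δ (T • μ) (Module.finrank ℚ
      (vectorSpan ℚ (Pol t fun s => ∑ i, (μ i : ℚ) * a i s))) := by
  classical
  obtain ⟨e0, e, he0, he, hlin⟩ := kod_lp (fun b => (hms b).1) hex hq hfo (fun i => μ i) hne rfl
  obtain ⟨k0, hk0⟩ : ∃ k0, k0 = Module.finrank ℚ
    (vectorSpan ℚ (Pol t fun s => ∑ i, (μ i : ℚ) * a i s)) := ⟨_, rfl⟩
  rw [← hk0]
  revert e
  rw [← hk0]
  intro e he hlin
  obtain ⟨D0, hD0'⟩ := Pool.Agent.W602.GT.exists_dual H.hY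
  have hD0 : ∀ i j, D0 i (Y j) = if i = j then 1 else 0 := by
    intro i j
    have h1 := congrFun (congrFun hD0' i) j
    rw [Matrix.of_apply, Matrix.one_apply] at h1
    exact h1
  have hΩD0 : Ω D0 ≠ 0 := by
    intro h0
    apply hΩ0
    funext D
    rw [pluri_det H.hY hD0 hΩ D, h0, mul_zero]
    rfl
  obtain ⟨ee, hee⟩ : ∃ ee : Fin (k0 + 1) → Fin N0 → ℕ, ee = Fin.cases e0 e := ⟨_, rfl⟩
  have hee0 : ee 0 = e0 := by rw [hee]; rfl
  have hees : ∀ i : Fin k0, ee i.succ = e i := fun i => by rw [hee]; rfl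
  have heeT : ∀ j i, T * μ i = ∑ b, ee j b * (q • g b) i := by
    intro j
    refine Fin.cases ?_ (fun j => ?_) j
    · rw [hee0]
      exact he0
    · rw [hees]
      exact he j
  have hmono : ∀ j, ∑ b, ee j b • (q • g b) = T • μ := by
    intro j
    ext i
    rw [Finsupp.finsetSum_apply, Finsupp.smul_apply, smul_eq_mul, heeT j i]
    exact Finset.sum_congr rfl fun b _ => by rw [Finsupp.smul_apply, smul_eq_mul]
  have hdeg : ∀ j, ∑ b, ee j b * (q * ∑ i, g b i) = T * ∑ i, μ i := by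
    intro j
    rw [Finset.mul_sum, Finset.sum_congr rfl fun i _ => heeT j i, Finset.sum_comm]
    refine Finset.sum_congr rfl fun b _ => ?_
    rw [Finset.mul_sum, Finset.mul_sum]
    refine Finset.sum_congr rfl fun i _ => ?_
    rw [Finsupp.smul_apply, smul_eq_mul]
  obtain ⟨X, hX⟩ : ∃ X, X = Ω D0 ^ q * G := ⟨_, rfl⟩
  have hX0 : X ≠ 0 := by
    rw [hX]
    exact mul_ne_zero (pow_ne_zero _ hΩD0) hG
  obtain ⟨Sg, hSg⟩ : ∃ Sg : Fin (k0 + 1) → ℕ, Sg = fun j => ∑ b, ee j b * ∑ i, g b i := ⟨_, rfl⟩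
  have hS : ∀ j j', Sg j = Sg j' := by
    intro j j'
    have h1 := hdeg j
    have h2 := hdeg j'
    have h3 : ∀ j, ∑ b, ee j b * (q * ∑ i, g b i) = q * Sg j := by
      intro j
      rw [hSg]
      dsimp only
      rw [Finset.mul_sum]
      exact Finset.sum_congr rfl fun b _ => by ring
    rw [h3] at h1 h2
    exact Nat.eq_of_mul_eq_mul_left (by omega) (h1.trans h2.symm)
  obtain ⟨V, hV⟩ : ∃ V : Fin (k0 + 1) → Fin (d + 1) → ℤ,
    V = fun j k => q * ∑ b, (ee j b : ℤ) * U b k := ⟨_, rfl⟩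
  have hval : ∀ j, ∏ b, omU Y Ω G q (g b) (U b) D0 ^ ee j b = mnU Y (V j) * X ^ Sg j := by
    intro j
    unfold omU
    rw [← hX]
    simp only [mul_pow]
    rw [Finset.prod_mul_distrib]
    congr 1
    · unfold mnU
      simp only [← Finset.prod_pow]
      rw [Finset.prod_comm]
      refine Finset.prod_congr rfl fun k _ => ?_
      have h1 : ∀ b, ((Y k ^ U b k) ^ q) ^ ee j b = Y k ^ ((q : ℤ) * ((ee j b : ℤ) * U b k)) := by
        intro b
        rw [← zpow_natCast, ← zpow_natCast, ← zpow_mul, ← zpow_mul]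
        congr 1
        ring
      rw [Finset.prod_congr rfl fun b _ => h1 b, prod_zpow_sum (H.Y0 k), hV]
      dsimp only
      rw [Finset.mul_sum]
    · simp only [← pow_mul]
      rw [Finset.prod_pow_eq_pow_sum, hSg]
      dsimp only
      congr 1
      exact Finset.sum_congr rfl fun b _ => by ring
  refine ⟨fun j D => ∏ b, omU Y Ω G q (g b) (U b) D ^ ee j b, fun j => ?_, D0, ?_, ?_⟩
  · have h1 := msec_prod (fun b => (hms b).2) (ee j)
    rw [hmono] at h1
    exact h1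
  · dsimp only
    rw [hval]
    exact mul_ne_zero (mnU_ne H.Y0 _) (pow_ne_zero _ hX0)
  · have hratio : ∀ b : Fin k0, (∏ c, omU Y Ω G q (g c) (U c) D0 ^ ee b.succ c) /
        (∏ c, omU Y Ω G q (g c) (U c) D0 ^ ee 0 c) =
        ∏ k, Y k ^ (V b.succ k - V 0 k) := by
      intro b
      rw [hval, hval, hS b.succ 0, mul_div_mul_right _ _ (pow_ne_zero _ hX0)]
      unfold mnU
      rw [← Finset.prod_div_distrib]
      exact Finset.prod_congr rfl fun k _ => by rw [zpow_sub₀ (H.Y0 k)]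
    dsimp only
    rw [funext hratio]
    refine laurent_ind H.hY.1 H.Y0 _ ?_
    have hqq : (q : ℚ) ≠ 0 := by
      have : q ≠ 0 := by omega
      exact_mod_cast this
    have h1 : (fun b : Fin k0 => fun k => ((V b.succ k - V 0 k : ℤ) : ℚ)) =
        fun b => (Units.mk0 (q : ℚ) hqq) • (uv U (e b) - uv U e0) := by
      funext b k
      rw [Pi.smul_apply, Pi.sub_apply, hV]
      dsimp only
      rw [hees, hee0, Units.smul_def, Units.val_mk0, smul_eq_mul]
      unfold uv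
      push_cast
      ring
    rw [h1]
    exact hlin.units_smul _

end Pool.Agent.Q57.UG
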