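import Pool.Agent.Q57.UG.Setup
import Pool.Agent.Q57.GC.Main

/-!
The chambers of the combinations of log canonical divisors, with the linear forms and the multiple
depending only on the degrees of the sections.
-/

set_option autoImplicit false
set_option linter.overlappingInstances false
set_option linter.unusedSectionVars false
set_option maxHeartbeats 1000000

open FF MvPolynomial Pool.Agent.W602.GT Pool.Agent.Q57.TP Pool.Agent.Q57.GM Pool.Agent.Q57.FG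
open Pool.Agent.Q57.GG Pool.Agent.Q57.GC

namespace Pool.Agent.Q57.UG

variable {p N : ℕ} {K : Type} [Field K] [Algebra ℂ K] {δ : Fin p → Place ℂ K → ℚ}

/-- the linear forms and the multiple are those of the degrees `g` -/
def FormsOK {N0 : ℕ} (g : Fin N0 → Fin p →₀ ℕ) (n : ℕ) (h : Fin n → Fin p → ℚ) (T : ℕ) : Prop :=
  1 ≤ T ∧
  (∀ (o : Fin N0 → ℝ) (lam lam' : Fin p → ℝ), (Feas (mat g) lam).Nonempty →
    (∀ i, (0 ≤ pair (h i) lam → 0 ≤ pair (h i) lam') ∧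
      (pair (h i) lam ≤ 0 → pair (h i) lam' ≤ 0)) →
    ∃ t ∈ Feas (mat g) lam, (∀ t' ∈ Feas (mat g) lam, cost o t ≤ cost o t') ∧
      ∃ t' ∈ Feas (mat g) lam', ∀ b, t b = 0 → t' b = 0) ∧
  (∀ (o : Fin N0 → ℝ) (lam lam' : Fin p → ℝ),
    (Feas (mat g) lam).Nonempty → (Feas (mat g) lam').Nonempty →
    (∀ i, 0 ≤ pair (h i) lam * pair (h i) lam') →
    val (mat g) o (lam + lam') = val (mat g) o lam + val (mat g) o lam') ∧
  ∀ (o : Fin N0 → ℝ) (μ : Fin p → ℕ), (Feas (mat g) fun i => (μ i : ℝ)).Nonempty →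
    ∃ e : Fin N0 → ℕ, (∀ i, (T : ℝ) * μ i = ∑ b, (e b : ℝ) * mat g b i) ∧
      ∑ b, (e b : ℝ) * o b = T * val (mat g) o fun i => (μ i : ℝ)

theorem exists_formsOK {N0 : ℕ} {g : Fin N0 → Fin p →₀ ℕ} (hg : ∀ b, g b ≠ 0) :
    ∃ (n : ℕ) (h : Fin n → Fin p → ℚ) (T : ℕ), FormsOK g n h T :=
  exists_forms (mat_pos hg)

/-- the chambers -/
def ChambersOf (N : ℕ) (δ : Fin p → Place ℂ K → ℚ) (T : ℕ) {n : ℕ} (h : Fin n → Fin p → ℚ) :
    Prop :=
      (∀ lam lam' : Fin p → ℝ, (∀ i, 0 ≤ lam i) → PsefR N δ lam → Cell h lam lam' →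
        (∀ i, 0 ≤ lam' i) ∧ PsefR N δ lam' ∧ (NefR N δ lam → NefR N δ lam')) ∧
      (∀ μ : Fin p →₀ ℕ, NefR N δ (fun i => (μ i : ℝ)) → ∀ P : Place ℂ K, Divisorial N P →
        ∃ η, MSec N δ (T • μ) η ∧ NV N δ (T • μ) η P) ∧
      ∀ (P : Place ℂ K) (D : Fin N → Derivation ℂ K K),
        (∃ (S : Finset K) (μ : Fin p →₀ ℕ) (j : ℕ) (η : (Fin N → Derivation ℂ K K) → K), μ ≠ 0 ∧
          ASec N δ S μ j η ∧ η D ≠ 0) →
        ∃ σ : (Fin p → ℝ) → ℝ,
          (∀ lam, (∀ i, 0 ≤ lam i) → PsefR N δ lam → AsOrd N δ P D lam (σ lam)) ∧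
          (∀ lam (c : ℝ), (∀ i, 0 ≤ lam i) → PsefR N δ lam → 0 ≤ c →
            σ (c • lam) = c * σ lam) ∧
          (∀ lam lam1 lam2, (∀ i, 0 ≤ lam i) → PsefR N δ lam → Cell h lam lam1 →
            Cell h lam lam2 → σ (lam1 + lam2) = σ lam1 + σ lam2) ∧
          ∀ μ : Fin p →₀ ℕ, PsefR N δ (fun i => (μ i : ℝ)) →
            ∃ η, MSec N δ (T • μ) η ∧ η D ≠ 0 ∧
              (P.ord (η D) : ℝ) = T * σ fun i => (μ i : ℝ)

/-- **The chambers**, with given linear forms. -/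
theorem chambers_of {w : (Fin N → Derivation ℂ K K) → K} {u : K} (hu : u ≠ 0)
    {D0 : Fin N → Derivation ℂ K K}
    (hpl : ∀ (m : ℕ) (η : (Fin N → Derivation ℂ K K) → K), IsPluri m η →
      ∀ D, η D * u ^ m = w D ^ m * η D0)
    {N0 : ℕ} {g : Fin N0 → Fin p →₀ ℕ} {ω : Fin N0 → (Fin N → Derivation ℂ K K) → K}
    (hg : ∀ b, g b ≠ 0 ∧ MSec N δ (g b) (ω b))
    (hD0 : ∀ b, ω b D0 ≠ 0) (hdv : ∃ P : Place ℂ K, Divisorial N P)
    (hord : ∀ (P : Place ℂ K) (S : Finset K) (D : Fin N → Derivation ℂ K K), ∃ C1 : ℕ,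
        ∀ (μ : Fin p →₀ ℕ) (j : ℕ) (η : (Fin N → Derivation ℂ K K) → K), μ ≠ 0 →
          ASec N δ S μ j η → η D = 0 ∨ ((∀ b, ω b D ≠ 0) ∧
            ∃ e : Fin N0 → ℕ,
              (∀ i, |∑ b, (e b : ℤ) * g b i - μ i| ≤ C1 * (j + 1)) ∧
              ∑ b, (e b : ℤ) * P.ord (ω b D) ≤ P.ord (η D) + C1 * (j + 1)))
    {n T : ℕ} {h : Fin n → Fin p → ℚ} (hfo : FormsOK g n h T) : ChambersOf N δ T h := by
  classical
  have hpos : Pos (mat g) := mat_pos fun b => (hg b).1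
  have hdet : ∀ (m : ℕ) (η : (Fin N → Derivation ℂ K K) → K), IsPluri m η → η ≠ 0 →
      η D0 ≠ 0 := by
    intro m η hη h0 h5
    apply h0
    funext D
    have h6 := hpl m η hη D
    rw [h5, mul_zero] at h6
    exact (mul_eq_zero.1 h6).resolve_right (pow_ne_zero _ hu)
  obtain ⟨P0, -⟩ := hdv
  have hpsef : ∀ lam : Fin p → ℝ, (∀ i, 0 ≤ lam i) →
      (PsefR N δ lam ↔ (Feas (mat g) lam).Nonempty) := by
    intro lam hlam
    rw [psefR_iff hg (P := P0) hD0 hdet (fun S => by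
      obtain ⟨C1, hC1⟩ := hord P0 S D0
      refine ⟨C1, fun μ j η hμ hη => (hC1 μ j η hμ hη).imp id fun h => ?_⟩
      obtain ⟨-, e, he, -⟩ := h
      exact ⟨e, he⟩) lam hlam]
    exact exists_congr fun t => mem_feas.symm
  have hfe0 : ∀ lam : Fin p → ℝ, (Feas (mat g) lam).Nonempty → ∀ i, 0 ≤ lam i := by
    rintro lam ⟨t, ht⟩ i
    rw [(mem_feas.1 ht).2 i]
    exact Finset.sum_nonneg fun b _ => mul_nonneg (ht.1 b) (Nat.cast_nonneg _)
  obtain ⟨hT, hcl, hadd, hint⟩ := hfo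
  have hmono : ∀ (e : Fin N0 → ℕ) (μ : Fin p →₀ ℕ),
      (∀ i, (T : ℝ) * (μ i : ℝ) = ∑ b, (e b : ℝ) * ((mat g b i : ℚ) : ℝ)) →
        ∑ b, e b • g b = T • μ := by
    intro e μ he
    ext i
    have h1 := he i
    simp only [mat_cast] at h1
    rw [Finsupp.finsetSum_apply, Finsupp.smul_apply, smul_eq_mul]
    have h2 : ∀ b, (e b • g b) i = e b * g b i := fun b => by
      rw [Finsupp.smul_apply, smul_eq_mul]
    rw [Finset.sum_congr rfl fun b _ => h2 b]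
    have h3 : ((∑ b, e b * g b i : ℕ) : ℝ) = ((T * μ i : ℕ) : ℝ) := by
      push_cast
      exact h1.symm
    exact_mod_cast h3
  refine ⟨fun lam lam' hlam hps hcell => ?_, fun μ hnef P hP => ?_,
    fun P D hnd => ?_⟩
  · have hfe := (hpsef lam hlam).1 hps
    obtain ⟨-, -, -, t', ht', -⟩ := hcl 0 lam lam' hfe hcell
    have hlam' := hfe0 lam' ⟨t', ht'⟩
    refine ⟨hlam', (hpsef lam' hlam').2 ⟨t', ht'⟩, fun hn => nefR_of hu hpl hg lam' fun P hP => ?_⟩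
    obtain ⟨t0, ht0, hlt0, hnv0'⟩ := semi_of_nefR hu hpl hg hord lam hlam hn P hP
    have hnv0 : ∀ b, t0 b ≠ 0 → NV N δ (g b) (ω b) P := hnv0'
    obtain ⟨o, ho⟩ : ∃ o : Fin N0 → ℝ, ∀ b, o b = if NV N δ (g b) (ω b) P then 0 else 1 :=
      ⟨_, fun _ => rfl⟩
    obtain ⟨t, ht, hopt, t'', ht'', hz⟩ := hcl o lam lam' hfe hcell
    have h0 : cost o t ≤ 0 := by
      refine (hopt t0 (mem_feas.2 ⟨ht0, hlt0⟩)).trans (le_of_eq ?_)
      refine Finset.sum_eq_zero fun b _ => ?_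
      by_cases hb : t0 b = 0
      · rw [hb, zero_mul]
      · rw [ho, if_pos (hnv0 b hb), mul_zero]
    have ho0 : ∀ b, 0 ≤ o b := by
      intro b
      rw [ho]
      split_ifs
      · exact le_rfl
      · exact zero_le_one
    have hb0 : ∀ b, ¬ NV N δ (g b) (ω b) P → t b = 0 := by
      intro b hb
      have h1 : t b * o b ≤ cost o t := Finset.single_le_sum (f := fun b => t b * o b)
        (fun b _ => mul_nonneg (ht.1 b) (ho0 b)) (Finset.mem_univ b)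
      rw [ho, if_neg hb, mul_one] at h1
      exact le_antisymm (h1.trans h0) (ht.1 b)
    refine ⟨t'', ht''.1, (mem_feas.1 ht'').2, fun b hb => ?_⟩
    by_contra hcon
    exact hb (hz b (hb0 b hcon))
  · obtain ⟨t0, ht0, hlt0, hnv0'⟩ := semi_of_nefR hu hpl hg hord (fun i => (μ i : ℝ))
      (fun i => Nat.cast_nonneg _) hnef P hP
    have hnv0 : ∀ b, t0 b ≠ 0 → NV N δ (g b) (ω b) P := hnv0'
    obtain ⟨o, ho⟩ : ∃ o : Fin N0 → ℝ, ∀ b, o b = if NV N δ (g b) (ω b) P then 0 else 1 :=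
      ⟨_, fun _ => rfl⟩
    have hfe : t0 ∈ Feas (mat g) (fun i => (μ i : ℝ)) := mem_feas.2 ⟨ht0, hlt0⟩
    obtain ⟨e, he1, he2⟩ := hint o (fun i => μ i) ⟨_, hfe⟩
    have ho0 : ∀ b, 0 ≤ o b := by
      intro b
      rw [ho]
      split_ifs
      · exact le_rfl
      · exact zero_le_one
    have hval : val (mat g) o (fun i => (μ i : ℝ)) ≤ 0 := by
      refine (val_le hpos hfe).trans (le_of_eq ?_)
      refine Finset.sum_eq_zero fun b _ => ?_
      by_cases hb : t0 b = 0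
      · rw [hb, zero_mul]
      · rw [ho, if_pos (hnv0 b hb), mul_zero]
    have hsum : ∑ b, (e b : ℝ) * o b ≤ 0 := by
      rw [he2]
      exact mul_nonpos_of_nonneg_of_nonpos (Nat.cast_nonneg _) hval
    have heNV : ∀ b, e b ≠ 0 → NV N δ (g b) (ω b) P := by
      intro b hb
      by_contra hcon
      have h1 : (e b : ℝ) * o b ≤ ∑ b, (e b : ℝ) * o b :=
        Finset.single_le_sum (f := fun b => (e b : ℝ) * o b)
          (fun b _ => mul_nonneg (Nat.cast_nonneg _) (ho0 b)) (Finset.mem_univ b)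
      rw [ho, if_neg hcon, mul_one] at h1
      have h2 : (1 : ℝ) ≤ e b := by exact_mod_cast Nat.one_le_iff_ne_zero.2 hb
      linarith
    have h1 := hmono e μ he1
    have h2 := nv_prod hu hpl hg hP heNV
    have h3 := msec_prod (fun b => (hg b).2) e
    rw [h1] at h2 h3
    exact ⟨_, h3, h2⟩
  · obtain ⟨S, μ, j, η, hμ, hη, h0⟩ := hnd
    have hD : ∀ b, ω b D ≠ 0 := by
      obtain ⟨C1, hC1⟩ := hord P S D
      exact ((hC1 μ j η hμ hη).resolve_left h0).1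
    refine ⟨val (mat g) (fun b => (P.ord (ω b D) : ℝ)), fun lam hlam hps => ?_,
      fun lam c hlam hps hc => ?_, fun lam lam1 lam2 hlam hps h1 h2 => ?_, fun μ hps => ?_⟩
    · refine asOrd hg hD (fun S => ?_) ((hpsef lam hlam).1 hps)
      obtain ⟨C1, hC1⟩ := hord P S D
      exact ⟨C1, fun μ j η hμ hη => (hC1 μ j η hμ hη).imp id fun h => h.2⟩
    · exact val_smul hpos _ ((hpsef lam hlam).1 hps) hc
    · have hfe := (hpsef lam hlam).1 hps
      obtain ⟨-, -, -, t1, ht1, -⟩ := hcl 0 lam lam1 hfe h1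
      obtain ⟨-, -, -, t2, ht2, -⟩ := hcl 0 lam lam2 hfe h2
      refine hadd _ lam1 lam2 ⟨t1, ht1⟩ ⟨t2, ht2⟩ fun i => ?_
      rcases le_total 0 (pair (h i) lam) with h3 | h3
      · exact mul_nonneg ((h1 i).1 h3) ((h2 i).1 h3)
      · exact mul_nonneg_of_nonpos_of_nonpos ((h1 i).2 h3) ((h2 i).2 h3)
    · obtain ⟨e, he1, he2⟩ := hint (fun b => (P.ord (ω b D) : ℝ)) (fun i => μ i)
        ((hpsef _ fun i => Nat.cast_nonneg _).1 hps)
      have h1 := hmono e μ he1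
      have h3 := msec_prod (fun b => (hg b).2) e
      rw [h1] at h3
      refine ⟨_, h3, Finset.prod_ne_zero_iff.2 fun b _ => pow_ne_zero _ (hD b), ?_⟩
      rw [ord_prod P hD, ← he2]
      push_cast
      rfl

end Pool.Agent.Q57.UG
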