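import Pool.Agent.Q57.TP.LP
import Pool.Agent.Q57.UG.Cone

/-!
The lattice points of a rational polytope and of its multiples.
-/

set_option autoImplicit false
set_option linter.overlappingInstances false
set_option linter.unusedSectionVars false
set_option maxHeartbeats 1000000

open Pool.Agent.Q57.TP Pool.Agent.Y169.TH

namespace Pool.Agent.Q57.UG

variable {D : ℕ} {ι : Type} [Fintype ι] {t : ι → Fin D → ℤ} {b : ι → ℚ}

/-- the rational vectors -/
def tq (t : ι → Fin D → ℤ) (s : ι) : Fin D → ℚ := fun k => (t s k : ℚ)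

theorem dot_tq (t : ι → Fin D → ℤ) (s : ι) (a : Fin D → ℤ) :
    dotL (tq t s) (fun k => (a k : ℚ)) = ((∑ k, t s k * a k : ℤ) : ℚ) := by
  rw [dotL_apply]
  unfold tq
  push_cast
  rfl

/-- the polytope -/
def Pol (t : ι → Fin D → ℤ) (b : ι → ℚ) : Set (Fin D → ℚ) := {y | ∀ s, b s ≤ dotL (tq t s) y}

theorem Pol_eq : Pol t b = Polb 0 0 (tq t) b := by
  ext y
  unfold Pol Polb
  simp only [Set.mem_ofPred_eq, dotL_apply, Pi.zero_apply, zero_mul, Finset.sum_const_zero,
    true_and]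

theorem span_q (hspan : ∀ u : Fin D → ℤ, (∀ s, 0 ≤ ∑ k, t s k * u k) → u = 0) (y : Fin D → ℚ)
    (hy : ∀ s, 0 ≤ dotL (tq t s) y) : y = 0 := by
  classical
  obtain ⟨T, hT, hden⟩ := exists_den y
  choose z hz using hden
  have hTq : (0 : ℚ) < T := by exact_mod_cast hT
  have h1 : z = 0 := by
    apply hspan
    intro s
    have h2 : ((∑ k, t s k * z k : ℤ) : ℚ) = T * dotL (tq t s) y := by
      rw [dotL_apply, Finset.mul_sum]
      push_cast
      refine Finset.sum_congr rfl fun k _ => ?_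
      rw [← hz]
      unfold tq
      ring
    have h3 : (0 : ℚ) ≤ ((∑ k, t s k * z k : ℤ) : ℚ) := by
      rw [h2]
      exact mul_nonneg hTq.le (hy s)
    exact_mod_cast h3
  funext k
  have h2 := hz k
  rw [h1] at h2
  simp only [Pi.zero_apply, Int.cast_zero] at h2
  exact (mul_eq_zero.1 h2).resolve_left hTq.ne'

/-- functionals are bounded above -/
theorem pol_ub (hspan : ∀ u : Fin D → ℤ, (∀ s, 0 ≤ ∑ k, t s k * u k) → u = 0) (u : Fin D → ℚ) :
    ∃ w : ι → ℚ, (∀ s, 0 ≤ w s) ∧ ∀ y, dotL u y = - ∑ s, w s * dotL (tq t s) y := by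
  classical
  obtain ⟨w, hw, hf⟩ := farkas_fin (fun s => - dotL (tq t s)) (dotL u) (by
    intro y hy
    have h1 : y = 0 := span_q hspan y fun s => by
      have h2 := hy s
      rw [LinearMap.neg_apply] at h2
      linarith
    rw [h1, map_zero])
  refine ⟨w, hw, fun y => ?_⟩
  rw [hf, ← Finset.sum_neg_distrib]
  exact Finset.sum_congr rfl fun s _ => by rw [LinearMap.neg_apply]; ring

theorem pol_ub' (hspan : ∀ u : Fin D → ℤ, (∀ s, 0 ≤ ∑ k, t s k * u k) → u = 0) (b : ι → ℚ)
    (u : Fin D → ℚ) : ∃ A B : ℚ, 0 ≤ A ∧ 0 ≤ B ∧ ∀ (y : Fin D → ℚ) (m c : ℚ), 0 ≤ m → 0 ≤ c →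
      (∀ s, b s * m - c ≤ dotL (tq t s) y) → dotL u y ≤ A * m + B * c := by
  classical
  obtain ⟨w, hw, hf⟩ := pol_ub hspan u
  refine ⟨∑ s, w s * |b s|, ∑ s, w s,
    Finset.sum_nonneg fun s _ => mul_nonneg (hw s) (abs_nonneg _),
    Finset.sum_nonneg fun s _ => hw s, fun y m c hm hc hy => ?_⟩
  rw [hf, Finset.sum_mul, Finset.sum_mul, ← Finset.sum_add_distrib, ← Finset.sum_neg_distrib]
  refine Finset.sum_le_sum fun s _ => ?_
  have h1 := mul_le_mul_of_nonneg_left (hy s) (hw s)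
  have h2 : -|b s| ≤ b s := neg_abs_le _
  have h3 : w s * (-|b s| * m) ≤ w s * (b s * m) :=
    mul_le_mul_of_nonneg_left (mul_le_mul_of_nonneg_right h2 hm) (hw s)
  nlinarith

/-- **The implicit equations.** -/
theorem pol_face (hspan : ∀ u : Fin D → ℤ, (∀ s, 0 ≤ ∑ k, t s k * u k) → u = 0)
    {u : Fin D → ℚ} {β : ℚ} (hu : ∀ y ∈ Pol t b, dotL u y = β) :
    ∃ A0 : ℚ, 0 ≤ A0 ∧ ∀ (y : Fin D → ℚ) (m c : ℚ), 0 ≤ m → 0 ≤ c →
      (∀ s, b s * m - c ≤ dotL (tq t s) y) → dotL u y ≤ β * m + A0 * c := by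
  classical
  let l : ι ⊕ Unit → ((Fin D → ℚ) × ℚ) →ₗ[ℚ] ℚ := Sum.elim
    (fun s => b s • LinearMap.snd ℚ _ _ - (dotL (tq t s)).comp (LinearMap.fst ℚ _ _))
    (fun _ => - LinearMap.snd ℚ _ _)
  obtain ⟨w, hw, hf⟩ := farkas_fin l
    ((dotL u).comp (LinearMap.fst ℚ _ _) - β • LinearMap.snd ℚ (Fin D → ℚ) ℚ) (by
    rintro ⟨y, r⟩ hyt
    have h1 : ∀ s, b s * r - dotL (tq t s) y ≤ 0 := fun s => hyt (Sum.inl s)
    have h4 : - r ≤ 0 := hyt (Sum.inr ())
    change dotL u y - β * r ≤ 0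
    have h0t : 0 ≤ r := by linarith
    rcases h0t.lt_or_eq with ht | ht
    · have h6 := hu (r⁻¹ • y) (fun s => by
        rw [map_smul, smul_eq_mul]
        have h3 := mul_le_mul_of_nonneg_left (show b s * r ≤ dotL (tq t s) y by linarith [h1 s])
          (inv_pos.2 ht).le
        have h4 : r⁻¹ * (b s * r) = b s := by
          field_simp
        rwa [h4] at h3)
      rw [map_smul, smul_eq_mul] at h6
      have h7 : dotL u y = β * r := by
        field_simp at h6
        linarith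
      linarith
    · have h8 : y = 0 := span_q hspan y fun s => by
        have h2 := h1 s
        rw [← ht, mul_zero] at h2
        linarith
      rw [h8, map_zero, ← ht]
      simp)
  refine ⟨∑ s, w (Sum.inl s), Finset.sum_nonneg fun s _ => hw _, fun y m c hm hc h1 => ?_⟩
  have h3 := hf (y, m)
  rw [Fintype.sum_sum_type] at h3
  simp only [l, Sum.elim_inr, Sum.elim_inl, LinearMap.smul_apply, LinearMap.sub_apply,
    LinearMap.comp_apply, LinearMap.fst_apply, LinearMap.snd_apply, smul_eq_mul,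
    LinearMap.neg_apply, Finset.univ_unique, Finset.sum_singleton] at h3
  have h4 : ∑ s, w (Sum.inl s) * (b s * m - dotL (tq t s) y) ≤ (∑ s, w (Sum.inl s)) * c := by
    rw [Finset.sum_mul]
    exact Finset.sum_le_sum fun s _ => mul_le_mul_of_nonneg_left (by linarith [h1 s]) (hw _)
  have h6 : 0 ≤ w (Sum.inr ()) * m := mul_nonneg (hw _) hm
  have h9 : dotL u y - β * m = ∑ s, w (Sum.inl s) * (b s * m - dotL (tq t s) y) -
      w (Sum.inr ()) * m := by
    rw [h3]
    have : (default : Unit) = () := rfl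
    rw [this]
    ring
  linarith

/-- the lattice points are bounded -/
theorem pol_box (hspan : ∀ u : Fin D → ℤ, (∀ s, 0 ≤ ∑ k, t s k * u k) → u = 0) (b : ι → ℚ) :
    ∃ B : ℕ, ∀ (m c : ℕ) (a : Fin D → ℤ), 
      (∀ s, b s * m - c ≤ ((∑ k, t s k * a k : ℤ) : ℚ)) → ∀ k, |a k| ≤ B * (m + c) := by
  classical
  choose A1 B1 hA1 hB1 h1 using fun k : Fin D => pol_ub' hspan b (Pi.single k 1)
  choose A2 B2 hA2 hB2 h2 using fun k : Fin D => pol_ub' hspan b (-Pi.single k 1)
  obtain ⟨B, hB⟩ := exists_nat_ge (∑ k, (A1 k + B1 k + A2 k + B2 k))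
  refine ⟨B, fun m c a ha k => ?_⟩
  have hk : A1 k + B1 k + A2 k + B2 k ≤ B := (Finset.single_le_sum
    (f := fun k => A1 k + B1 k + A2 k + B2 k) (fun k _ => by
      have := hA1 k
      have := hB1 k
      have := hA2 k
      have := hB2 k
      positivity) (Finset.mem_univ k)).trans hB
  have hs : ∀ s, b s * m - c ≤ dotL (tq t s) fun k => (a k : ℚ) := fun s => by
    rw [dot_tq]
    exact ha s
  have h3 := h1 k _ m c (by positivity) (by positivity) hs
  have h4 := h2 k _ m c (by positivity) (by positivity) hs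
  have h5 : dotL (Pi.single k 1 : Fin D → ℚ) (fun k => (a k : ℚ)) = a k := by
    rw [dotL_apply, Finset.sum_eq_single k]
    · rw [Pi.single_eq_same, one_mul]
    · intro j _ hj
      rw [Pi.single_eq_of_ne hj, zero_mul]
    · intro h
      exact absurd (Finset.mem_univ _) h
  have h6 : dotL (-Pi.single k 1 : Fin D → ℚ) (fun k => (a k : ℚ)) = - a k := by
    rw [← h5, dotL_apply, dotL_apply, ← Finset.sum_neg_distrib]
    exact Finset.sum_congr rfl fun j _ => by rw [Pi.neg_apply]; ring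
  rw [h5] at h3
  rw [h6] at h4
  have h7 : (0 : ℚ) ≤ m := by positivity
  have h8 : (0 : ℚ) ≤ c := by positivity
  have ha1 := hA1 k
  have hb1 := hB1 k
  have ha2 := hA2 k
  have hb2 := hB2 k
  have h9 : |(a k : ℚ)| ≤ B * (m + c) := by
    rw [abs_le]
    constructor <;> nlinarith
  exact_mod_cast h9

/-- **Counting the lattice points.** -/
theorem pol_count (hspan : ∀ u : Fin D → ℤ, (∀ s, 0 ≤ ∑ k, t s k * u k) → u = 0)
    (hne : (Pol t b).Nonempty) (c : ℕ) :
    ∃ C1 : ℕ, ∀ (m : ℕ), 1 ≤ m → ∀ A : Finset (Fin D → ℤ),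
      (∀ a ∈ A, ∀ s, b s * m - c ≤ ((∑ k, t s k * a k : ℤ) : ℚ)) →
        A.card ≤ C1 * m ^ Module.finrank ℚ (vectorSpan ℚ (Pol t b)) := by
  classical
  let I : Type := {s : ι // ∀ y ∈ Pol t b, dotL (tq t s) y = b s}
  have : Fintype I := Fintype.ofFinite _
  choose A0 hA00 hA0 using fun s : I => pol_face hspan s.2
  obtain ⟨J, hJ1, hJ2⟩ := exists_coords (vectorSpan ℚ (Pol t b))
  obtain ⟨B, hB⟩ := pol_box hspan b
  obtain ⟨C1, hC1⟩ := exists_nat_ge ((∑ s, A0 s) * c + c)
  refine ⟨(C1 + 1) ^ Fintype.card I * (2 * (2 * B * (1 + c)) + 1) ^ Fintype.card J,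
    fun m hm A hA => ?_⟩
  rw [← hJ1]
  have hcJ : Fintype.card J = J.card := Fintype.card_coe J
  have hmain : A.card ≤ (C1 + 1) ^ Fintype.card I *
      (2 * (2 * B * (1 + c)) + 1) ^ Fintype.card J * m ^ Fintype.card J := by
    refine countb A (fun a (s : I) => ∑ k, t s.1 k * a k)
      (fun a (k : J) => a k.1 + B * (1 + c) * m)
      (fun s => ⌈b s.1 * (m : ℚ)⌉ - c) C1 (2 * B * (1 + c)) hm (fun a ha s => ?_)
      (fun a ha k => ?_) fun a ha a' ha' h1 h2 => ?_
    · have hs := hA a ha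
      constructor
      · rw [sub_le_iff_le_add, Int.ceil_le]
        have h1 := hs s.1
        push_cast at h1 ⊢
        linarith
      · have h1 := hA0 s (fun k => (a k : ℚ)) m c (by positivity) (by positivity) (fun s' => by
          rw [dot_tq]
          exact hs s')
        rw [dot_tq] at h1
        have h2 : A0 s ≤ ∑ s, A0 s :=
          Finset.single_le_sum (f := A0) (fun s _ => hA00 s) (Finset.mem_univ s)
        have h3 : A0 s * c ≤ (∑ s, A0 s) * c := mul_le_mul_of_nonneg_right h2 (by positivity)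
        have h5 := Int.le_ceil (b s.1 * (m : ℚ))
        have h4 : ((∑ k, t s.1 k * a k : ℤ) : ℚ) ≤
            ((⌈b s.1 * (m : ℚ)⌉ - c + C1 : ℤ) : ℚ) := by
          push_cast at h1 ⊢
          linarith
        exact_mod_cast h4
    · have h1 := hB m c a (hA a ha) k.1
      have h2 : (B : ℤ) * (m + c) ≤ B * (1 + c) * m := by
        have h3 : (1 : ℤ) ≤ m := by exact_mod_cast hm
        have h4 : (0 : ℤ) ≤ B * c := by positivity
        nlinarith
      have h3 := abs_le.1 (h1.trans h2)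
      have h4 : (0 : ℤ) ≤ 2 * B * (1 + c) := by positivity
      constructor
      · push_cast
        linarith [h3.1]
      · push_cast
        linarith [h3.2]
    · have h3 : (fun k => (a k : ℚ)) - (fun k => (a' k : ℚ)) ∈ vectorSpan ℚ (Pol t b) := by
        rw [Pol_eq, vectorSpan_eqb (by rw [← Pol_eq]; exact hne)]
        refine ⟨?_, fun s hs => ?_⟩
        · rw [dotL_apply]
          simp
        · rw [← Pol_eq] at hs
          have h4 := congrFun h1 ⟨s, hs⟩
          dsimp only at h4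
          rw [map_sub, dot_tq, dot_tq, h4, sub_self]
      have h4 := hJ2 _ h3 fun k hk => by
        have h5 := congrFun h2 ⟨k, hk⟩
        dsimp only at h5
        rw [add_left_inj] at h5
        rw [Pi.sub_apply, h5, sub_self]
      funext i
      have h5 := congrFun h4 i
      rw [Pi.sub_apply, Pi.zero_apply, sub_eq_zero] at h5
      exact_mod_cast h5
  refine hmain.trans (le_of_eq ?_)
  rw [hcJ]

/-- the lattice points of the multiples -/
theorem pol_finite (hspan : ∀ u : Fin D → ℤ, (∀ s, 0 ≤ ∑ k, t s k * u k) → u = 0) (b : ι → ℚ)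
    (m c : ℕ) : {a : Fin D → ℤ | ∀ s, b s * m - c ≤ ((∑ k, t s k * a k : ℤ) : ℚ)}.Finite := by
  classical
  obtain ⟨B, hB⟩ := pol_box hspan b
  refine (Fintype.piFinset fun _ : Fin D =>
    Finset.Icc (-((B : ℤ) * (m + c))) (B * (m + c))).finite_toSet.subset fun a ha => ?_
  rw [Finset.mem_coe, Fintype.mem_piFinset]
  intro k
  rw [Finset.mem_Icc, ← abs_le]
  exact hB m c a ha k

end Pool.Agent.Q57.UG
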