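import Pool.Agent.Q57.UG.Gen2
import Pool.Agent.Q57.UG.Pol
import Pool.Agent.Q57.UG.Main

/-!
Independent lattice points in a uniform multiple of the polytope.
-/

set_option autoImplicit false
set_option linter.overlappingInstances false
set_option linter.unusedSectionVars false
set_option maxHeartbeats 1000000

open FF MvPolynomial Pool.Agent.W602.GT Pool.Agent.Q57.TP Pool.Agent.Q57.GM Pool.Agent.Q57.FG
open Pool.Agent.Q57.GG Pool.Agent.Q57.GC Pool.Agent.Y169.TH

namespace Pool.Agent.Q57.UG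

variable {d p : ℕ} {ι : Type} [Fintype ι]

/-- the exact property of the generators -/
def Exact {N0 : ℕ} (t : ι → Fin (d + 1) → ℤ) (a : Fin p → ι → ℚ) (g : Fin N0 → Fin p →₀ ℕ)
    (U : Fin N0 → Fin (d + 1) → ℤ) : Prop :=
  ∀ (μ : Fin p → ℕ) (u : Fin (d + 1) → ℤ),
    (∀ s, ∑ i, (μ i : ℚ) * a i s ≤ ((∑ k, t s k * u k : ℤ) : ℚ)) →
      ∃ e : Fin N0 → ℕ, (∀ i, ∑ b, e b * g b i = μ i) ∧ ∀ k, ∑ b, (e b : ℤ) * U b k = u k

/-- the vector of the exponents -/
def uv {N0 : ℕ} (U : Fin N0 → Fin (d + 1) → ℤ) (e : Fin N0 → ℕ) (k : Fin (d + 1)) : ℚ :=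
  ((∑ b, (e b : ℤ) * U b k : ℤ) : ℚ)

variable {t : ι → Fin (d + 1) → ℤ} {a : Fin p → ι → ℚ} {N0 : ℕ} {g : Fin N0 → Fin p →₀ ℕ}
  {U : Fin N0 → Fin (d + 1) → ℤ} {q : ℕ}

/-- points of the polytope are combinations -/
theorem exists_feas (hex : Exact t a g U) (hq : 1 ≤ q) (μ : Fin p → ℕ) {y : Fin (d + 1) → ℚ}
    (hy : y ∈ Pol t fun s => ∑ i, (μ i : ℚ) * a i s) :
    ∃ tt : Fin N0 → ℝ, tt ∈ Feas (mat fun b => q • g b) (fun i => (μ i : ℝ)) ∧
      ∀ ℓ : Fin (d + 1) → ℚ,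
        (q : ℝ) * cost (fun b => ((∑ k, ℓ k * U b k : ℚ) : ℝ)) tt = ((dotL ℓ y : ℚ) : ℝ) := by
  classical
  obtain ⟨n, hn, hden⟩ := exists_den y
  choose u hu using hden
  have hnq : (0 : ℚ) < n := by exact_mod_cast hn
  obtain ⟨e, he1, he2⟩ := hex (fun i => n * μ i) u fun s => by
    have h1 := mul_le_mul_of_nonneg_left (hy s) hnq.le
    have h2 : (n : ℚ) * dotL (tq t s) y = ((∑ k, t s k * u k : ℤ) : ℚ) := by
      rw [dotL_apply, Finset.mul_sum]
      push_cast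
      refine Finset.sum_congr rfl fun k _ => ?_
      rw [← hu]
      unfold tq
      ring
    rw [h2, Finset.mul_sum] at h1
    refine le_trans (le_of_eq (Finset.sum_congr rfl fun i _ => ?_)) h1
    push_cast
    ring
  have hnr : (0 : ℝ) < n := by exact_mod_cast hn
  have hqr : (0 : ℝ) < q := by exact_mod_cast hq
  refine ⟨fun b => (e b : ℝ) / (n * q), mem_feas.2 ⟨fun b => by positivity, fun i => ?_⟩,
    fun ℓ => ?_⟩
  · have h1 : ((∑ b, e b * g b i : ℕ) : ℝ) = n * μ i := by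
      rw [he1]
      push_cast
      ring
    push_cast at h1
    have h2 : ∑ b, (e b : ℝ) / (n * q) * ((q • g b) i : ℕ) = (∑ b, (e b : ℝ) * g b i) / n := by
      rw [Finset.sum_div]
      refine Finset.sum_congr rfl fun b _ => ?_
      rw [Finsupp.smul_apply, smul_eq_mul]
      push_cast
      field_simp
    rw [h2, h1]
    field_simp
  · unfold cost
    rw [Finset.mul_sum, dotL_apply]
    have h1 : ∀ k, (n : ℝ) * (y k : ℝ) = ∑ b, (e b : ℝ) * U b k := by
      intro k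
      have h2 : ((n : ℚ) * y k : ℚ) = ((∑ b, (e b : ℤ) * U b k : ℤ) : ℚ) := by
        rw [he2, hu]
      have h3 : (((n : ℚ) * y k : ℚ) : ℝ) = (((∑ b, (e b : ℤ) * U b k : ℤ) : ℚ) : ℝ) := by
        rw [h2]
      push_cast at h3
      exact h3
    have h2 : ∀ k, (y k : ℝ) = ∑ b, (e b : ℝ) / n * U b k := by
      intro k
      have h3 := h1 k
      have h4 : ∑ b, (e b : ℝ) / n * U b k = (∑ b, (e b : ℝ) * U b k) / n := by
        rw [Finset.sum_div]
        exact Finset.sum_congr rfl fun b _ => by ring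
      rw [h4, ← h3]
      field_simp
    push_cast
    simp only [h2, Finset.mul_sum]
    rw [Finset.sum_comm]
    refine Finset.sum_congr rfl fun k _ => Finset.sum_congr rfl fun b _ => ?_
    field_simp

/-- **Independent points.** -/
theorem kod_lp (hg : ∀ b, q • g b ≠ 0) (hex : Exact t a g U) (hq : 1 ≤ q) {n T : ℕ}
    {h : Fin n → Fin p → ℚ} (hfo : FormsOK (fun b => q • g b) n h T) (μ : Fin p → ℕ)
    (hne : (Pol t fun s => ∑ i, (μ i : ℚ) * a i s).Nonempty) {k0 : ℕ}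
    (hk : Module.finrank ℚ (vectorSpan ℚ (Pol t fun s => ∑ i, (μ i : ℚ) * a i s)) = k0) :
    ∃ (e0 : Fin N0 → ℕ) (e : Fin k0 → Fin N0 → ℕ),
      (∀ i, T * μ i = ∑ b, e0 b * (q • g b) i) ∧ (∀ j i, T * μ i = ∑ b, e j b * (q • g b) i) ∧
      LinearIndependent ℚ fun j => uv U (e j) - uv U e0 := by
  classical
  obtain ⟨hT, -, -, hint⟩ := hfo
  have hpos := mat_pos hg
  obtain ⟨y0, hy0⟩ := hne
  have hfe : (Feas (mat fun b => q • g b) fun i => (μ i : ℝ)).Nonempty := by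
    obtain ⟨tt, htt, -⟩ := exists_feas hex hq μ hy0
    exact ⟨tt, htt⟩
  obtain ⟨E, hE⟩ : ∃ E : Set (Fin N0 → ℕ), E = {e | ∀ i, T * μ i = ∑ b, e b * (q • g b) i} :=
    ⟨_, rfl⟩
  have hint' : ∀ ℓ : Fin (d + 1) → ℚ, ∃ e ∈ E,
      ((dotL ℓ (uv U e) : ℚ) : ℝ) =
        T * val (mat fun b => q • g b) (fun b => ((∑ k, ℓ k * U b k : ℚ) : ℝ))
          fun i => (μ i : ℝ) := by
    intro ℓ
    obtain ⟨e, he1, he2⟩ := hint (fun b => ((∑ k, ℓ k * U b k : ℚ) : ℝ)) μ hfe
    refine ⟨e, ?_, ?_⟩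
    · rw [hE]
      intro i
      have h1 := he1 i
      simp only [mat_cast] at h1
      exact_mod_cast h1
    · rw [← he2, dotL_apply]
      unfold uv
      push_cast
      simp only [Finset.mul_sum]
      rw [Finset.sum_comm]
      refine Finset.sum_congr rfl fun k _ => Finset.sum_congr rfl fun b _ => ?_
      ring
  obtain ⟨e0, he0, -⟩ := hint' 0
  obtain ⟨W, hW⟩ : ∃ W : Set (Fin (d + 1) → ℚ), W = (fun e => uv U e - uv U e0) '' E := ⟨_, rfl⟩
  have hle : vectorSpan ℚ (Pol t fun s => ∑ i, (μ i : ℚ) * a i s) ≤ Submodule.span ℚ W := by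
    rw [vectorSpan_def, Submodule.span_le]
    rintro z ⟨y, hy, y', hy', rfl⟩
    change y - y' ∈ _
    by_contra hcon
    obtain ⟨f, hf0, hfW⟩ := Submodule.exists_le_ker_of_notMem hcon
    obtain ⟨ℓ, hℓ⟩ : ∃ ℓ : Fin (d + 1) → ℚ, ℓ = fun k => f (Pi.single k 1) := ⟨_, rfl⟩
    have hfd : ∀ x, f x = dotL ℓ x := by
      intro x
      have h1 : x = ∑ k, x k • (Pi.single k 1 : Fin (d + 1) → ℚ) := by
        funext j
        rw [Finset.sum_apply, Finset.sum_eq_single j]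
        · rw [Pi.smul_apply, Pi.single_eq_same, smul_eq_mul, mul_one]
        · intro k _ hk
          rw [Pi.smul_apply, Pi.single_eq_of_ne hk.symm, smul_zero]
        · intro h
          exact absurd (Finset.mem_univ _) h
      conv_lhs => rw [h1]
      rw [map_sum, dotL_apply, hℓ]
      exact Finset.sum_congr rfl fun k _ => by rw [map_smul, smul_eq_mul]; ring
    have hconst : ∀ e ∈ E, dotL ℓ (uv U e) = dotL ℓ (uv U e0) := by
      intro e he
      have h1 : uv U e - uv U e0 ∈ Submodule.span ℚ W := by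
        refine Submodule.subset_span ?_
        rw [hW]
        exact ⟨e, he, rfl⟩
      have h2 := hfW h1
      rw [LinearMap.mem_ker, map_sub, sub_eq_zero, hfd, hfd] at h2
      exact h2
    have hval : ∀ y ∈ (Pol t fun s => ∑ i, (μ i : ℚ) * a i s),
        (T : ℝ) * ((dotL ℓ y : ℚ) : ℝ) = q * ((dotL ℓ (uv U e0) : ℚ) : ℝ) := by
      intro y hy
      obtain ⟨tt, htt, hc⟩ := exists_feas hex hq μ hy
      obtain ⟨e1, he1, h1⟩ := hint' ℓ
      obtain ⟨e2, he2, h2⟩ := hint' (-ℓ)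
      have h3 := val_le hpos (o := fun b => ((∑ k, ℓ k * U b k : ℚ) : ℝ)) htt
      have h4 := val_le hpos (o := fun b => ((∑ k, (-ℓ) k * U b k : ℚ) : ℝ)) htt
      rw [hconst e1 he1] at h1
      have h5 : ∀ x, dotL (-ℓ) x = - dotL ℓ x := by
        intro x
        rw [dotL_apply, dotL_apply, ← Finset.sum_neg_distrib]
        exact Finset.sum_congr rfl fun k _ => by rw [Pi.neg_apply]; ring
      rw [h5, hconst e2 he2] at h2
      have h6 := hc ℓ
      have h7 := hc (-ℓ)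
      rw [h5] at h7
      have hqr : (0 : ℝ) < q := by exact_mod_cast hq
      have hTr : (0 : ℝ) ≤ T := by positivity
      have h8 := mul_le_mul_of_nonneg_left h3 (mul_nonneg hqr.le hTr)
      have h9 := mul_le_mul_of_nonneg_left h4 (mul_nonneg hqr.le hTr)
      have h10 : (q : ℝ) * T * cost (fun b => ((∑ k, ℓ k * U b k : ℚ) : ℝ)) tt =
          T * (q * cost (fun b => ((∑ k, ℓ k * U b k : ℚ) : ℝ)) tt) := by ring
      have h11 : (q : ℝ) * T * cost (fun b => ((∑ k, (-ℓ) k * U b k : ℚ) : ℝ)) tt =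
          T * (q * cost (fun b => ((∑ k, (-ℓ) k * U b k : ℚ) : ℝ)) tt) := by ring
      rw [h10, h6, mul_assoc, ← h1] at h8
      rw [h11, h7, mul_assoc, ← h2] at h9
      push_cast at h8 h9 ⊢
      apply le_antisymm
      · linarith
      · linarith
    apply hf0
    have h1 := hval y hy
    have h2 := hval y' hy'
    have hTr : (0 : ℝ) < T := by exact_mod_cast hT
    have h3 : (T : ℝ) * ((dotL ℓ y : ℚ) : ℝ) = T * ((dotL ℓ y' : ℚ) : ℝ) := by rw [h1, h2]
    have h4 : dotL ℓ y = dotL ℓ y' := by exact_mod_cast mul_left_cancel₀ hTr.ne' h3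
    rw [hfd, map_sub, h4, sub_self]
  have hk' : k0 ≤ Module.finrank ℚ (Submodule.span ℚ W) := by
    rw [← hk]
    exact Submodule.finrank_mono hle
  obtain ⟨f, hf1, -, hf3⟩ := Submodule.exists_fun_fin_finrank_span_eq ℚ W
  have h1 : ∀ j : Fin k0, ∃ e ∈ E, uv U e - uv U e0 = f (Fin.castLE hk' j) := by
    intro j
    obtain ⟨e, he, h2⟩ := (Set.ext_iff.1 hW _).1 (hf1 (Fin.castLE hk' j))
    exact ⟨e, he, h2⟩
  choose e he1 he2 using h1
  rw [hE] at he0
  refine ⟨e0, e, he0, fun j i => ?_, ?_⟩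
  · have h2 := he1 j
    rw [hE] at h2
    exact h2 i
  · have h2 : (fun j => uv U (e j) - uv U e0) = f ∘ Fin.castLE hk' := funext he2
    rw [h2]
    exact hf3.comp _ (Fin.castLE_injective hk')

end Pool.Agent.Q57.UG
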