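import Pool.Agent.Q57.TP.Mak
import Pool.Agent.W603.LV.Ord

/-!
Forms without common zeros on a projective variety, given by its generic point.
-/

set_option autoImplicit false
set_option linter.unusedSectionVars false
set_option maxHeartbeats 1000000

open FF MvPolynomial Pool.Agent.W603.LV Pool.Agent.Q57.TP

namespace Pool.Agent.Q57.UG

variable {K : Type} [Field K] [Algebra ℂ K] {M n : ℕ}

/-- the scaled generic point -/
noncomputable def scl (x : Fin (M + 1) → K) : MvPolynomial (Fin (M + 1)) ℂ →ₐ[ℂ] Polynomial K :=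
  aeval fun j => Polynomial.C (x j) * Polynomial.X

theorem scl_monomial (x : Fin (M + 1) → K) (a : Fin (M + 1) →₀ ℕ) (c : ℂ) :
    scl x (monomial a c) = Polynomial.C (algebraMap ℂ K c * ∏ j, x j ^ a j) *
      Polynomial.X ^ (∑ j, a j) := by
  unfold scl
  rw [aeval_monomial, Finsupp.prod_fintype _ _ fun i => pow_zero _]
  simp only [mul_pow, Finset.prod_mul_distrib, ← map_pow, ← map_prod]
  rw [Finset.prod_pow_eq_pow_sum, map_mul, mul_assoc]
  rfl

theorem scl_hom (x : Fin (M + 1) → K) {G : MvPolynomial (Fin (M + 1)) ℂ} {m : ℕ}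
    (hG : G.IsHomogeneous m) : scl x G = Polynomial.C (aeval x G) * Polynomial.X ^ m := by
  conv_lhs => rw [G.as_sum, map_sum]
  conv_rhs => rw [G.as_sum, map_sum, map_sum, Finset.sum_mul]
  refine Finset.sum_congr rfl fun a ha => ?_
  rw [scl_monomial, aeval_monomial, Finsupp.prod_fintype _ _ fun i => pow_zero _]
  congr 2
  have h1 := hG (mem_support_iff.1 ha)
  rw [← h1, Finsupp.weight_apply, Finsupp.sum_fintype _ _ (by simp)]
  simp

/-- the coefficients of the scaled polynomials -/
theorem ge_coeff (x : Fin (M + 1) → K) (P : Place ℂ K) (B : MvPolynomial (Fin (M + 1)) ℂ)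
    (l : ℕ) : Ge P (l * minO x P) ((scl x B).coeff l) := by
  classical
  rw [B.as_sum, map_sum, Polynomial.finsetSum_coeff]
  refine Ge.sum _ _ fun a _ => ?_
  rw [scl_monomial, Polynomial.coeff_C_mul, Polynomial.coeff_X_pow]
  split_ifs with h
  · rw [mul_one]
    have h1 : Ge P (∑ j, (a j : ℤ) * minO x P) (∏ j, x j ^ a j) := by
      have h2 : ∀ s : Finset (Fin (M + 1)), Ge P (∑ j ∈ s, (a j : ℤ) * minO x P)
          (∏ j ∈ s, x j ^ a j) := by
        intro s
        induction s using Finset.induction_on with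
        | empty => simpa using (Ge.one (P := P))
        | insert j s hj ih =>
          rw [Finset.sum_insert hj, Finset.prod_insert hj]
          refine Ge.mul ?_ ih
          by_cases h0 : x j ^ a j = 0
          · exact Or.inl h0
          · right
            rw [P.ord_pow]
            exact mul_le_mul_of_nonneg_left (minO_le x P j) (by positivity)
      exact h2 Finset.univ
    have h3 := (Ge.const (P := P) (coeff a B)).mul h1
    rw [← Finset.sum_mul, zero_add] at h3
    refine h3.mono (le_of_eq ?_)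
    rw [h]
    push_cast
    rfl
  · rw [mul_zero]
    exact Or.inl rfl

/-- homogeneous forms -/
theorem ge_hom (x : Fin (M + 1) → K) (P : Place ℂ K) {G : MvPolynomial (Fin (M + 1)) ℂ} {m : ℕ}
    (hG : G.IsHomogeneous m) : Ge P (m * minO x P) (aeval x G) := by
  have h1 := ge_coeff x P G m
  rw [scl_hom x hG, Polynomial.coeff_C_mul, Polynomial.coeff_X_pow, if_pos rfl, mul_one] at h1
  exact h1

/-- **No common zeros**: the order of one of the forms is minimal. -/
theorem exists_min {x : Fin (M + 1) → K} (hx : ∀ j, x j ≠ 0)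
    {F : Fin (n + 1) → MvPolynomial (Fin (M + 1)) ℂ} {d : Fin (n + 1) → ℕ}
    (hF : ∀ k, (F k).IsHomogeneous (d k)) (hF0 : ∀ k, aeval x (F k) ≠ 0)
    (hno : ∀ y : Fin (M + 1) → ℂ, y ≠ 0 →
      (∀ (G : MvPolynomial (Fin (M + 1)) ℂ) (m : ℕ), G.IsHomogeneous m → aeval x G = 0 →
        eval y G = 0) → ∃ k, eval y (F k) ≠ 0) (P : Place ℂ K) :
    ∃ k, P.ord (aeval x (F k)) = d k * minO x P := by
  classical
  by_contra hcon
  push Not at hcon
  have hgt : ∀ k, d k * minO x P + 1 ≤ P.ord (aeval x (F k)) := by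
    intro k
    have h1 := (ge_hom x P (hF k)).resolve_left (hF0 k)
    have h2 := hcon k
    omega
  -- the ideal
  let I : Ideal (MvPolynomial (Fin (M + 1)) ℂ) :=
    RingHom.ker (scl x).toRingHom ⊔ Ideal.span (Set.range F)
  have hFI : ∀ k, F k ∈ I := fun k => Ideal.mem_sup_right (Ideal.subset_span ⟨k, rfl⟩)
  obtain ⟨l, -, hl⟩ := Finset.exists_mem_eq_inf' (Finset.univ_nonempty (α := Fin (M + 1)))
    fun j => P.ord (x j)
  have hl' : minO x P = P.ord (x l) := hl
  have hXl : (X l : MvPolynomial (Fin (M + 1)) ℂ) ∈ I.radical := by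
    rw [← vanishingIdeal_zeroLocus_eq_radical (K := ℂ) I]
    intro y hy
    rw [aeval_X]
    by_contra hyl
    obtain ⟨k, hk⟩ := hno y (fun h => hyl (by rw [h]; rfl)) fun G m hG hG0 => by
      have h1 : G ∈ I := by
        refine Ideal.mem_sup_left ?_
        change scl x G = 0
        rw [scl_hom x hG, hG0, map_zero, zero_mul]
      exact hy G h1
    exact hk (hy _ (hFI k))
  obtain ⟨m, hm⟩ := hXl
  obtain ⟨A, hA, B, hB, hAB⟩ := Submodule.mem_sup.1 hm
  have hA' : scl x A = 0 := hA
  obtain ⟨c, hc⟩ := Ideal.mem_span_range_iff_exists_fun.1 hB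
  have h1 : scl x (X l ^ m) = ∑ k, scl x (c k) * (Polynomial.C (aeval x (F k)) *
      Polynomial.X ^ d k) := by
    rw [← hAB, map_add, hA', zero_add, ← hc, map_sum]
    refine Finset.sum_congr rfl fun k _ => ?_
    rw [map_mul, scl_hom x (hF k)]
  have h2 : scl x (X l ^ m) = Polynomial.C (x l ^ m) * Polynomial.X ^ m := by
    have h3 : (X l ^ m : MvPolynomial (Fin (M + 1)) ℂ).IsHomogeneous m := by
      have h4 := (isHomogeneous_X (R := ℂ) l).pow m
      simpa using h4
    rw [scl_hom x h3, map_pow, aeval_X]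
  have h3 := congrArg (fun p => Polynomial.coeff p m) h1
  simp only [h2, Polynomial.coeff_C_mul, Polynomial.coeff_X_pow, if_true, mul_one,
    Polynomial.finsetSum_coeff] at h3
  have h4 : Ge P (m * minO x P + 1) (x l ^ m) := by
    rw [h3]
    refine Ge.sum _ _ fun k _ => ?_
    have h5 : scl x (c k) * (Polynomial.C (aeval x (F k)) * Polynomial.X ^ d k) =
        Polynomial.C (aeval x (F k)) * (scl x (c k) * Polynomial.X ^ d k) := by ring
    rw [h5, Polynomial.coeff_C_mul, Polynomial.coeff_mul_X_pow']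
    split_ifs with hd
    · have h6 := ge_coeff x P (c k) (m - d k)
      have h7 : Ge P (d k * minO x P + 1) (aeval x (F k)) := Or.inr (hgt k)
      refine (h7.mul h6).mono (le_of_eq ?_)
      have h8 : ((m - d k : ℕ) : ℤ) = m - d k := by
        push_cast [hd]
        ring
      rw [h8]
      ring
    · rw [mul_zero]
      exact Or.inl rfl
  have h5 := h4.resolve_left (pow_ne_zero _ (hx l))
  rw [P.ord_pow, hl'] at h5
  omega

end Pool.Agent.Q57.UG
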