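import Pool.Agent.Q57.GM.Str

/-!
The structure of the functions with bounded poles, for a field which is finite over the field of
rational functions in `Y` (following `Pool.Agent.Q57.GM.Str`).
-/

set_option autoImplicit false
set_option linter.overlappingInstances false
set_option linter.unusedSectionVars false
set_option maxHeartbeats 1000000

open FF MvPolynomial IntermediateField Pool.Agent.W603.LV Pool.Agent.W619.PQ
open Pool.Agent.TH122.AB Pool.Agent.TH756.PN Pool.Agent.Y169.CH Pool.Agent.Y169.TH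

namespace Pool.Agent.Q57.UG

section

variable {k K : Type} [Field k] [CharZero k] [Field K] [Algebra k K] {d : ℕ}

/-- **The structure.** -/
theorem one_str (G0 : Subgroup (K ≃ₐ[k] K)) [Finite G0]
    {Y : Fin (d + 1) → fixedField G0} (hY : Gens (k := k) Y)
    (hbY : IsTranscendenceBasis k fun j => (Y j : K))
    {ι : Type} [Fintype ι] (lam : ι → Fin (d + 1) → ℤ) {vs : ι → Place k (fixedField G0)}
    (hvs : ∀ s, ∀ P : MvPolynomial (Fin (d + 1)) k, P ≠ 0 →
      (vs s).ord (aeval Y P) = zord (lam s) P)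
    {ws : ι → Place k K} {es : ι → ℕ} (hs : ∀ s, Over (ws s) (vs s) (es s)) (S : Finset K) :
    ∃ (δ : ℕ) (b' : Fin δ → K) (Q : MvPolynomial (Fin (d + 1)) k) (c : ℕ), Q ≠ 0 ∧
      ∀ (j : ℕ) (M : ι → ℤ) (f : K), Fine G0 Y (pw S j) f →
      (∀ s, ∀ g ∈ G0, Ge (ws s) (M s) (g f)) →
      ∃ R : Fin δ → MvPolynomial (Fin (d + 1)) k,
        f * aeval (fun j => (Y j : K)) Q ^ (j + 1) =
          ∑ i, ((aeval Y (R i) : fixedField G0) : K) * b' i ∧
        ∀ i, ∀ a ∈ (R i).support, ∀ s, M s - c * (j + 1) ≤ es s * zwt (lam s) a := by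
  classical
  have hGal : IsGaloisGroup G0 (fixedField G0) K := isGaloisGroup_fixed G0
  have hfd : FiniteDimensional (fixedField G0) K := IsGaloisGroup.finiteDimensional G0 _ K
  have hfix : ∀ g ∈ G0, ∀ z : fixedField G0, g (z : K) = z := fun g hg z => z.2 ⟨g, hg⟩
  have hcK : CharZero K := charZero_of_injective_algebraMap (algebraMap k K).injective
  let Z : Fin (d + 1) → K := fun j => (Y j : K)
  have hXZ : ∀ P : MvPolynomial (Fin (d + 1)) k, ((aeval Y P : fixedField G0) : K) = aeval Z P :=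
    fun P => (aeval_fix Y P).symm
  let b := Module.finBasis (fixedField G0) K
  let δ := Module.finrank (fixedField G0) K
  obtain ⟨b', hb'⟩ := Pool.Agent.Q57.GM.exists_dual_tr G0 b
  -- a common denominator
  obtain ⟨Q, hQ0, hQS, hQb⟩ : ∃ Q : MvPolynomial (Fin (d + 1)) k, Q ≠ 0 ∧
      (∀ s ∈ S, ∀ g ∈ G0, ∀ w : Place k K,
        (∀ P : MvPolynomial (Fin (d + 1)) k, w.Reg (aeval Z P)) → w.Reg (aeval Z Q * g s)) ∧
      (∀ i, ∀ g ∈ G0, ∀ w : Place k K,
        (∀ P : MvPolynomial (Fin (d + 1)) k, w.Reg (aeval Z P)) →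
        w.Reg (aeval Z Q * g (b i))) := by
    have hGfin : (G0 : Set (K ≃ₐ[k] K)).Finite := Set.toFinite _
    let T : Finset K := (hGfin.toFinset.biUnion fun g => S.image fun s => g s) ∪
      (hGfin.toFinset.biUnion fun g => Finset.univ.image fun i => g (b i))
    choose q hq0 hq using fun z : K => exists_mult hbY z
    have hmain : ∀ z ∈ T, ∀ w : Place k K,
        (∀ P : MvPolynomial (Fin (d + 1)) k, w.Reg (aeval Z P)) →
        w.Reg (aeval Z (∏ t ∈ T, q t) * z) := by
      intro z hz w hw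
      rw [← Finset.mul_prod_erase T q hz, map_mul, mul_comm (aeval Z (q z)), mul_assoc]
      exact w.reg_mul (hw _) (reg_of_int hw (hq z))
    refine ⟨∏ t ∈ T, q t, Finset.prod_ne_zero_iff.2 fun t _ => hq0 t, ?_, ?_⟩
    · intro s hs g hg w hw
      refine hmain _ ?_ w hw
      refine Finset.mem_union_left _ (Finset.mem_biUnion.2 ⟨g, by simpa using hg, ?_⟩)
      exact Finset.mem_image_of_mem _ hs
    · intro i g hg w hw
      refine hmain _ ?_ w hw
      refine Finset.mem_union_right _ (Finset.mem_biUnion.2 ⟨g, by simpa using hg, ?_⟩)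
      exact Finset.mem_image_of_mem _ (Finset.mem_univ i)
  have hQK : aeval Z Q ≠ 0 := by
    rw [← hXZ]
    have := hY.ne hQ0
    simpa using this
  have hgQ : ∀ g ∈ G0, g (aeval Z Q) = aeval Z Q := by
    intro g hg
    rw [← hXZ]
    exact hfix g hg _
  -- the constants at the places
  obtain ⟨c0, hc0'⟩ : ∃ c0 : ℕ,
      ∀ s, ∀ g ∈ G0, Ge (ws s) (- (c0 : ℤ)) (g (aeval Z Q)) ∧
      ∀ i, Ge (ws s) (- (c0 : ℤ)) (g (b i)) := by
    have hG0fin : (G0 : Set (K ≃ₐ[k] K)).Finite := Set.toFinite _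
    let T : Finset K := hG0fin.toFinset.biUnion fun g =>
      insert (g (aeval Z Q)) (Finset.univ.image fun i => g (b i))
    let W : Finset (Place k K) := Finset.univ.image ws
    obtain ⟨c0, hc0⟩ : ∃ c0 : ℕ, c0 = (∑ w ∈ W, ∑ z ∈ T, |w.ord z|).toNat := ⟨_, rfl⟩
    have hmain : ∀ w ∈ W, ∀ z ∈ T, Ge w (- (c0 : ℤ)) z := by
      intro w hw z hz
      right
      have h1 : |w.ord z| ≤ ∑ z ∈ T, |w.ord z| :=
        Finset.single_le_sum (f := fun z => |w.ord z|) (fun _ _ => abs_nonneg _) hz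
      have h2 : ∑ z ∈ T, |w.ord z| ≤ ∑ w ∈ W, ∑ z ∈ T, |w.ord z| :=
        Finset.single_le_sum (f := fun w => ∑ z ∈ T, |w.ord z|)
          (fun _ _ => Finset.sum_nonneg fun _ _ => abs_nonneg _) hw
      have h3 := neg_abs_le (w.ord z)
      have h4 := Int.self_le_toNat (∑ w ∈ W, ∑ z ∈ T, |w.ord z|)
      rw [hc0]
      linarith
    have hT1 : ∀ g ∈ G0, g (aeval Z Q) ∈ T := fun g hg =>
      Finset.mem_biUnion.2 ⟨g, by simpa using hg, Finset.mem_insert_self _ _⟩
    have hT2 : ∀ g ∈ G0, ∀ i, g (b i) ∈ T := fun g hg i =>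
      Finset.mem_biUnion.2 ⟨g, by simpa using hg, Finset.mem_insert_of_mem
        (Finset.mem_image_of_mem _ (Finset.mem_univ i))⟩
    have hW2 : ∀ s, ws s ∈ W := fun s => Finset.mem_image_of_mem _ (Finset.mem_univ s)
    exact ⟨c0, fun s g hg => ⟨hmain _ (hW2 s) _ (hT1 g hg), fun i => hmain _ (hW2 s) _ (hT2 g hg i)⟩⟩
  refine ⟨δ, b', Q, 2 * c0, hQ0, fun j M f hfine htest => ?_⟩
  have hpow : ∀ (w : Place k K) (z : K), Ge w (- (c0 : ℤ)) z → ∀ i : ℕ,
      Ge w (- (i * c0 : ℤ)) (z ^ i) := by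
    intro w z hz i
    induction i with
    | zero => simpa using (Ge.one (P := w))
    | succ i ih =>
      rw [pow_succ]
      refine (ih.mul hz).mono (le_of_eq ?_)
      push_cast
      ring
  -- the traces
  have hmem : ∀ i, ∃ R : MvPolynomial (Fin (d + 1)) k,
      tr G0 (f * (aeval Z Q ^ (j + 1) * b i)) = ((aeval Y R : fixedField G0) : K) ∧
      ∀ a ∈ R.support, ∀ s, M s - (2 * c0 : ℕ) * (j + 1) ≤ es s * zwt (lam s) a := by
    intro i
    obtain ⟨z, hz⟩ : ∃ z, z = f * (aeval Z Q ^ (j + 1) * b i) := ⟨_, rfl⟩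
    rw [← hz]
    have hgz : ∀ g ∈ G0, g z = (aeval Z Q ^ j * g f) * (aeval Z Q * g (b i)) := by
      intro g hg
      rw [hz, map_mul, map_mul, map_pow, hgQ g hg]
      ring
    obtain ⟨t, ht⟩ : ∃ t : fixedField G0, (t : K) = tr G0 z := ⟨⟨_, tr_fix G0 z⟩, rfl⟩
    have hreg : ∃ P : MvPolynomial (Fin (d + 1)) k, t = aeval Y P := by
      refine poly_of_reg hY fun p hp v hv1 hv2 => ?_
      obtain ⟨w, e, hwv, hdom⟩ := hfine p hp v hv1 hv2
      have hwZ : ∀ P : MvPolynomial (Fin (d + 1)) k, w.Reg (aeval Z P) := by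
        intro P
        rw [← hXZ]
        refine hwv.reg.2 ?_
        by_cases hP : P = 0
        · rw [hP, map_zero]
          exact v.reg_zero
        · exact Or.inr (hv2 P hP).1
      have h1 : w.Reg (t : K) := by
        rw [ht]
        refine tr_ge G0 (N := 0) fun g hg => ?_
        rw [hgz g hg]
        refine w.reg_mul ?_ (hQb i g hg w hwZ)
        rcases hdom g hg with h3 | ⟨s', hs', hs0, hle⟩
        · rw [h3, map_zero, mul_zero]
          exact w.reg_zero
        · obtain ⟨s, hsS, rfl⟩ := mem_pw.1 hs'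
          by_cases hf0 : f = 0
          · rw [hf0, map_zero, mul_zero]
            exact w.reg_zero
          have hgf : g f ≠ 0 := by simpa using hf0
          have hgs : g (s ^ j) ≠ 0 := by simpa using hs0
          have h4 : w.Reg (aeval Z Q ^ j * g (s ^ j)) := by
            rw [map_pow, ← mul_pow]
            exact reg_pow' w (hQS s hsS g hg w hwZ) j
          have h5 := h4.resolve_left (mul_ne_zero (pow_ne_zero _ hQK) hgs)
          right
          rw [w.ord_mul (pow_ne_zero _ hQK) hgf]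
          rw [w.ord_mul (pow_ne_zero _ hQK) hgs] at h5
          linarith
      exact hwv.reg.1 h1
    obtain ⟨R, hR⟩ := hreg
    refine ⟨R, by rw [← ht, hR], fun a ha s => ?_⟩
    have hR0 : R ≠ 0 := by
      rintro rfl
      simp at ha
    have h1 : Ge (ws s) (M s - (j + 2) * c0) (tr G0 z) := by
      refine tr_ge G0 fun g hg => ?_
      have h2 : g z = g f * (g (aeval Z Q) ^ (j + 1) * g (b i)) := by
        rw [hz, map_mul, map_mul, map_pow]
      rw [h2]
      have h3 := hpow (ws s) _ ((hc0' s g hg).1) (j + 1)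
      refine ((htest s g hg).mul (h3.mul ((hc0' s g hg).2 i))).mono (le_of_eq ?_)
      push_cast
      ring
    have h2 : tr G0 z ≠ 0 := by
      rw [← ht, hR]
      have := hY.ne hR0
      simpa using this
    have h3 := h1.resolve_left h2
    rw [← ht, hR] at h3
    have h4 : (ws s).ord ((aeval Y R : fixedField G0) : K) = es s * (vs s).ord (aeval Y R) :=
      (hs s).2 _
    rw [h4, hvs s _ hR0] at h3
    have h6 : (es s : ℤ) * zord (lam s) R ≤ es s * zwt (lam s) a :=
      mul_le_mul_of_nonneg_left (zord_le (lam s) ha) (by positivity)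
    have h7 : ((j : ℤ) + 2) * c0 ≤ (2 * c0 : ℕ) * (j + 1) := by
      push_cast
      have : (0 : ℤ) ≤ (j : ℤ) * c0 := by positivity
      nlinarith
    linarith
  choose R hR hRs using hmem
  refine ⟨R, ?_, hRs⟩
  rw [hb' (f * aeval (fun j => (Y j : K)) Q ^ (j + 1))]
  refine Finset.sum_congr rfl fun i _ => ?_
  rw [← hR, mul_assoc]

end

end Pool.Agent.Q57.UG
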