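import Pool.Agent.Q57.UG.Main
import Pool.Agent.Q57.GG.NefC

/-!
The statements: the cones, the orders, and the chambers, with constants which depend only on the
degrees and on the functions of the log discrepancies.
-/

set_option autoImplicit false
set_option linter.overlappingInstances false
set_option linter.unusedSectionVars false
set_option maxHeartbeats 1000000

open FF MvPolynomial Pool.Agent.W602.GT Pool.Agent.Q57.TP Pool.Agent.Q57.GM Pool.Agent.Q57.FG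
open Pool.Agent.Q57.GG Pool.Agent.Q57.GC

namespace Pool.Agent.Q57.UG

variable {r p N : ℕ} {n : Fin r → ℕ}

/-- **The top theorem.** -/
theorem top_u (hn : ∀ i, 1 ≤ n i) (hN1 : 1 ≤ N) (hN : N = ∑ i, n i) {dg : Hyp n → ℕ}
    (hd : ∀ b, 1 ≤ dg b) (κ : Fin r → ℤ) {ψ : Fin p → (Hyp n → ℕ) → ℚ}
    (hψ : ∃ T, PL ψ T) :
    ∃ (N0 : ℕ) (g : Fin N0 → Fin p →₀ ℕ) (s : ℕ) (h : Fin s → Fin p → ℚ) (T : ℕ),
      (∀ b, g b ≠ 0) ∧ 1 ≤ T ∧
      ∀ (K : Type) [Field K] [Algebra ℂ K] [Algebra.EssFiniteType ℂ K] (M : Fin r → ℕ)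
        (F : ∀ b : Hyp n, MvPolynomial (Fin (M b.1 + 1)) ℂ) (x : ∀ i, Fin (M i + 1) → K)
        (Ω : (Fin N → Derivation ℂ K K) → K) (δ : Fin p → Place ℂ K → ℚ),
        (∀ b, (F b).IsHomogeneous (dg b)) → (∀ i j, x i j ≠ 0) → NoZ F x →
        IsTranscendenceBasis ℂ (rat F dg x) → IsPluri 1 Ω → Ω ≠ 0 →
        (∀ i P, δ i P = 1 - ψ i (mulU F dg x P) - lDU F dg κ x Ω P) →
        (∃ ω : Fin N0 → (Fin N → Derivation ℂ K K) → K,
          (∀ b, ω b ≠ 0 ∧ MSec N δ (g b) (ω b)) ∧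
          (∀ (P : Place ℂ K) (S : Finset K) (D : Fin N → Derivation ℂ K K), ∃ C1 : ℕ,
            ∀ (μ : Fin p →₀ ℕ) (j : ℕ) (η : (Fin N → Derivation ℂ K K) → K), μ ≠ 0 →
              ASec N δ S μ j η → η D = 0 ∨ ((∀ b, ω b D ≠ 0) ∧
                ∃ e : Fin N0 → ℕ,
                  (∀ i, |∑ b, (e b : ℤ) * g b i - μ i| ≤ C1 * (j + 1)) ∧
                  ∑ b, (e b : ℤ) * P.ord (ω b D) ≤ P.ord (η D) + C1 * (j + 1))) ∧
          (∀ lam : Fin p → ℝ, (∀ i, 0 ≤ lam i) →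
            (PsefR N δ lam ↔ ∃ t : Fin N0 → ℝ, (∀ b, 0 ≤ t b) ∧
              ∀ i, lam i = ∑ b, t b * g b i)) ∧
          ∀ lam : Fin p → ℝ, (∀ i, 0 ≤ lam i) → (NefR N δ lam ↔
            ∀ P : Place ℂ K, Divisorial N P →
            ∃ t : Fin N0 → ℝ, (∀ b, 0 ≤ t b) ∧ (∀ i, lam i = ∑ b, t b * g b i) ∧
              ∀ b, t b ≠ 0 → NV N δ (g b) (ω b) P)) ∧
        ChambersOf N δ T h := by
  classical
  obtain ⟨N0, g, hg0, H⟩ := main_u hn hN1 hN hd κ hψ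
  obtain ⟨s, h, T, hfo⟩ := exists_formsOK hg0
  refine ⟨N0, g, s, h, T, hg0, hfo.1, ?_⟩
  intro K _ _ _ M F x Ω δ hF hx hno hbas hΩ hΩ0 hδ
  obtain ⟨ω, h1, h2, h3, w, u, D0, hu, hD0, hpl⟩ := H K M F x Ω δ hF hx hno hbas hΩ hΩ0 hδ
  have hdet : ∀ (m : ℕ) (η : (Fin N → Derivation ℂ K K) → K), IsPluri m η → η ≠ 0 →
      η D0 ≠ 0 := by
    intro m η hη h0 h5
    apply h0
    funext D
    have h6 := hpl m η hη D
    rw [h5, mul_zero] at h6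
    exact (mul_eq_zero.1 h6).resolve_right (pow_ne_zero _ hu)
  refine ⟨⟨ω, fun b => ⟨fun h0 => hD0 b (by rw [h0]; rfl), (h1 b).2⟩, h2, fun lam hlam => ?_,
    fun lam hlam => ⟨fun hnef P hP => ?_, fun h => ?_⟩⟩,
    chambers_of hu hpl h1 hD0 h3 h2 hfo⟩
  · obtain ⟨P0, -⟩ := h3
    refine psefR_iff h1 (P := P0) hD0 hdet (fun S => ?_) lam hlam
    obtain ⟨C1, hC1⟩ := h2 P0 S D0
    refine ⟨C1, fun μ j η hμ hη => (hC1 μ j η hμ hη).imp id fun h => ?_⟩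
    obtain ⟨-, e, he, -⟩ := h
    exact ⟨e, he⟩
  · obtain ⟨t, h4, h5, h6⟩ := semi_of_nefR hu hpl h1 h2 lam hlam hnef P hP
    exact ⟨t, h4, h5, h6⟩
  · exact nefR_of hu hpl h1 lam h

end Pool.Agent.Q57.UG
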