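import Pool.Agent.Q57.UG.Kod
import Pool.Agent.Q57.UG.Setup

/-!
The Kodaira dimension and the numerical dimension of the integral combinations.
-/

set_option autoImplicit false
set_option linter.overlappingInstances false
set_option linter.unusedSectionVars false
set_option maxHeartbeats 1000000

open FF MvPolynomial Pool.Agent.W603.LV Pool.Agent.W619.PQ
open Pool.Agent.W602.GT Pool.Agent.TH122.AB Pool.Agent.Q57.TP Pool.Agent.Q57.GM Pool.Agent.Q57.FG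
open Pool.Agent.Q57.GG Pool.Agent.Q57.GC Pool.Agent.Y169.TH

namespace Pool.Agent.Q57.UG

variable {r p N : ℕ} {n : Fin r → ℕ}

/-- the polytope of the exponents -/
def Pty (dg : Hyp n → ℕ) (κ : Fin r → ℤ) (ψ : Fin p → (Hyp n → ℕ) → ℚ) (μ : Fin p →₀ ℕ) :
    Set (Hyp n → ℚ) :=
  {y | (∀ i, ∑ k, (dg ⟨i, k⟩ : ℚ) * y ⟨i, k⟩ =
      (∑ j, (μ j : ℚ)) * ((κ i : ℚ) + ∑ k, (dg ⟨i, k⟩ : ℚ))) ∧
    ∀ v, Face v → ∑ j, (μ j : ℚ) * ψ j v ≤ ∑ b, (v b : ℚ) * y b}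

section

variable {d : ℕ} (e : Coo n ≃ Fin (d + 1)) (dg : Hyp n → ℕ)

/-- the linear part of the map of the polytopes -/
def Llin : (Fin (d + 1) → ℚ) →ₗ[ℚ] (Hyp n → ℚ) where
  toFun u b := Fin.cases (- ∑ k : Fin (n b.1), (dg ⟨b.1, k.succ⟩ : ℚ) * u (e ⟨b.1, k⟩))
    (fun k => (dg ⟨b.1, 0⟩ : ℚ) * u (e ⟨b.1, k⟩)) b.2
  map_add' u v := by
    funext b
    obtain ⟨i, k⟩ := b
    refine Fin.cases ?_ (fun k => ?_) k
    · simp only [Fin.cases_zero, Pi.add_apply, mul_add, Finset.sum_add_distrib]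
      ring
    · simp only [Fin.cases_succ, Pi.add_apply, mul_add]
  map_smul' c u := by
    funext b
    obtain ⟨i, k⟩ := b
    refine Fin.cases ?_ (fun k => ?_) k
    · simp only [Fin.cases_zero, Pi.smul_apply, smul_eq_mul, RingHom.id_apply]
      rw [mul_neg, Finset.mul_sum, neg_inj]
      exact Finset.sum_congr rfl fun k _ => by ring
    · simp only [Fin.cases_succ, Pi.smul_apply, smul_eq_mul, RingHom.id_apply]
      ring

theorem Llin_zero (u : Fin (d + 1) → ℚ) (i : Fin r) : Llin e dg u ⟨i, 0⟩ =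
    - ∑ k : Fin (n i), (dg ⟨i, k.succ⟩ : ℚ) * u (e ⟨i, k⟩) := rfl

theorem Llin_succ (u : Fin (d + 1) → ℚ) (i : Fin r) (k : Fin (n i)) : Llin e dg u ⟨i, k.succ⟩ =
    (dg ⟨i, 0⟩ : ℚ) * u (e ⟨i, k⟩) := rfl

theorem Llin_inj {dg : Hyp n → ℕ} (hd : ∀ b, 1 ≤ dg b) : Function.Injective (Llin e dg) := by
  rw [injective_iff_map_eq_zero]
  intro u hu
  funext k
  obtain ⟨b, rfl⟩ := e.surjective k
  have h1 := congrFun hu ⟨b.1, b.2.succ⟩
  rw [Llin_succ] at h1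
  have h2 : (dg ⟨b.1, 0⟩ : ℚ) ≠ 0 := by
    have := hd ⟨b.1, 0⟩
    have h3 : dg ⟨b.1, 0⟩ ≠ 0 := by omega
    exact_mod_cast h3
  exact (mul_eq_zero.1 h1).resolve_left h2

/-- the constant part -/
def Lcst (κ : Fin r → ℤ) (m : ℚ) : Hyp n → ℚ :=
  fun b => Fin.cases (m * (1 + (κ b.1 : ℚ) / dg ⟨b.1, 0⟩)) (fun _ => m) b.2

theorem Lcst_zero (κ : Fin r → ℤ) (m : ℚ) (i : Fin r) :
    Lcst dg κ m ⟨i, 0⟩ = m * (1 + (κ i : ℚ) / dg ⟨i, 0⟩) := rfl

theorem Lcst_succ (κ : Fin r → ℤ) (m : ℚ) (i : Fin r) (k : Fin (n i)) :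
    Lcst dg κ m ⟨i, k.succ⟩ = m := rfl

theorem sum_hyp (f : Hyp n → ℚ) : ∑ b, f b = ∑ i, (f ⟨i, 0⟩ + ∑ k : Fin (n i), f ⟨i, k.succ⟩) := by
  rw [Fintype.sum_sigma]
  exact Finset.sum_congr rfl fun i _ => by rw [Fin.sum_univ_succ]

theorem sum_coo (f : Coo n → ℚ) : ∑ b, f b = ∑ i, ∑ k : Fin (n i), f ⟨i, k⟩ :=
  Fintype.sum_sigma _

/-- the inequality of a vector -/
theorem dot_L (hd : ∀ b, 1 ≤ dg b) (κ : Fin r → ℤ) (m : ℚ) (v : Hyp n → ℕ)
    (u : Fin (d + 1) → ℚ) :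
    ∑ b, (v b : ℚ) * (Llin e dg u + Lcst dg κ m) b =
      ∑ b : Coo n, ((Lv dg v b : ℤ) : ℚ) * u (e b) + m * lin dg κ fun b => (v b : ℚ) := by
  unfold lin
  rw [sum_hyp, sum_coo, sum_hyp (fun b => (v b : ℚ)), ← Finset.sum_add_distrib, Finset.mul_sum,
    ← Finset.sum_add_distrib]
  refine Finset.sum_congr rfl fun i _ => ?_
  simp only [Pi.add_apply, Llin_zero, Llin_succ, Lcst_zero, Lcst_succ]
  have h0 : (dg ⟨i, 0⟩ : ℚ) ≠ 0 := by
    have := hd ⟨i, 0⟩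
    have h3 : dg ⟨i, 0⟩ ≠ 0 := by omega
    exact_mod_cast h3
  have h1 : ∀ k : Fin (n i), ((Lv dg v ⟨i, k⟩ : ℤ) : ℚ) * u (e ⟨i, k⟩) =
      (v ⟨i, k.succ⟩ : ℚ) * ((dg ⟨i, 0⟩ : ℚ) * u (e ⟨i, k⟩)) -
        (v ⟨i, 0⟩ : ℚ) * ((dg ⟨i, k.succ⟩ : ℚ) * u (e ⟨i, k⟩)) := by
    intro k
    unfold Lv
    push_cast
    ring
  simp only [h1, mul_add, Finset.sum_add_distrib, Finset.sum_sub_distrib, ← Finset.mul_sum,
    ← Finset.sum_mul]
  field_simp
  ring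

/-- **The two polytopes.** -/
theorem pty_eq {dg : Hyp n → ℕ} (hd : ∀ b, 1 ≤ dg b) (κ : Fin r → ℤ)
    {ψ : Fin p → (Hyp n → ℕ) → ℚ} {T : Finset (Hyp n → ℕ)} (hψ : PL ψ T) (μ : Fin p →₀ ℕ) :
    Pty dg κ ψ μ = (fun u => Llin e dg u + Lcst dg κ (∑ j, (μ j : ℚ))) ''
      Pol (tv e dg T) (fun s => ∑ i, (μ i : ℚ) * (ψ i s.1 - lin dg κ fun b => (s.1 b : ℚ))) := by
  classical
  have hq0 : ∀ i, (dg ⟨i, 0⟩ : ℚ) ≠ 0 := by
    intro i
    have := hd ⟨i, 0⟩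
    have h3 : dg ⟨i, 0⟩ ≠ 0 := by omega
    exact_mod_cast h3
  have hdot : ∀ (s : T) (u : Fin (d + 1) → ℚ), dotL (tq (tv e dg T) s) u =
      ∑ b, (s.1 b : ℚ) * (Llin e dg u + Lcst dg κ (∑ j, (μ j : ℚ))) b -
        (∑ j, (μ j : ℚ)) * lin dg κ fun b => (s.1 b : ℚ) := by
    intro s u
    rw [dot_L e dg hd, add_sub_cancel_right, dotL_apply, ← Equiv.sum_comp e]
    refine Finset.sum_congr rfl fun b _ => ?_
    unfold tq tv
    rw [e.symm_apply_apply]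
  have hb : ∀ s : T, ∑ i, (μ i : ℚ) * (ψ i s.1 - lin dg κ fun b => (s.1 b : ℚ)) =
      ∑ i, (μ i : ℚ) * ψ i s.1 - (∑ j, (μ j : ℚ)) * lin dg κ fun b => (s.1 b : ℚ) := by
    intro s
    rw [Finset.sum_mul, ← Finset.sum_sub_distrib]
    exact Finset.sum_congr rfl fun i _ => by ring
  ext y
  constructor
  · rintro ⟨h1, h2⟩
    obtain ⟨z, hz⟩ : ∃ z : Coo n → ℚ, z = fun b =>
      (y ⟨b.1, b.2.succ⟩ - ∑ j, (μ j : ℚ)) / dg ⟨b.1, 0⟩ := ⟨_, rfl⟩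
    have hze : ∀ b : Coo n, (fun k => z (e.symm k)) (e b) = z b := by
      intro b
      dsimp only
      rw [e.symm_apply_apply]
    have hL : (Llin e dg fun k => z (e.symm k)) + Lcst dg κ (∑ j, (μ j : ℚ)) = y := by
      funext b
      obtain ⟨i, k⟩ := b
      rw [Pi.add_apply]
      refine Fin.cases ?_ (fun k => ?_) k
      · rw [Llin_zero, Lcst_zero]
        simp only [hze]
        rw [hz]
        have h3 := h1 i
        rw [Fin.sum_univ_succ, Fin.sum_univ_succ (f := fun k => (dg ⟨i, k⟩ : ℚ))] at h3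
        have h4 : ∀ k : Fin (n i), (dg ⟨i, k.succ⟩ : ℚ) *
            ((y ⟨i, k.succ⟩ - ∑ j, (μ j : ℚ)) / dg ⟨i, 0⟩) =
            ((dg ⟨i, k.succ⟩ : ℚ) * y ⟨i, k.succ⟩ - (dg ⟨i, k.succ⟩ : ℚ) * ∑ j, (μ j : ℚ)) /
              dg ⟨i, 0⟩ := fun k => by ring
        rw [Finset.sum_congr rfl fun k _ => h4 k, ← Finset.sum_div, Finset.sum_sub_distrib,
          ← Finset.sum_mul]
        have h5 := hq0 i
        field_simp
        linarith
      · rw [Llin_succ, Lcst_succ, e.symm_apply_apply, hz]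
        dsimp only
        rw [mul_div_cancel₀ _ (hq0 i), sub_add_cancel]
    refine ⟨fun k => z (e.symm k), fun s => ?_, hL⟩
    dsimp only
    rw [hb, hdot, hL]
    linarith [h2 s.1 (hψ.face s.1 s.2).1]
  · rintro ⟨u, hu, rfl⟩
    refine ⟨fun i => ?_, fun v hv => ?_⟩
    · dsimp only
      rw [Fin.sum_univ_succ, Fin.sum_univ_succ (f := fun k => (dg ⟨i, k⟩ : ℚ))]
      simp only [Pi.add_apply, Llin_zero, Llin_succ, Lcst_zero, Lcst_succ]
      have h5 := hq0 i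
      simp only [mul_add, Finset.sum_add_distrib, ← Finset.sum_mul]
      have h6 : ∑ x : Fin (n i), (dg ⟨i, x.succ⟩ : ℚ) * ((dg ⟨i, 0⟩ : ℚ) * u (e ⟨i, x⟩)) =
          dg ⟨i, 0⟩ * ∑ x : Fin (n i), (dg ⟨i, x.succ⟩ : ℚ) * u (e ⟨i, x⟩) := by
        rw [Finset.mul_sum]
        exact Finset.sum_congr rfl fun k _ => by ring
      rw [h6]
      field_simp
      ring
    · obtain ⟨w, hw, hwv, hwψ⟩ := hψ.gen v hv
      have h1 : ∀ s ∈ T, ∑ i, (μ i : ℚ) * ψ i s ≤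
          ∑ b, (s b : ℚ) * (Llin e dg u + Lcst dg κ (∑ j, (μ j : ℚ))) b := by
        intro s hs
        have h2 := hu ⟨s, hs⟩
        dsimp only at h2
        have h3 := hb ⟨s, hs⟩
        dsimp only at h3
        rw [h3, hdot] at h2
        linarith
      calc ∑ j, (μ j : ℚ) * ψ j v ≤ ∑ j, (μ j : ℚ) * ∑ s ∈ T, w s * ψ j s :=
            Finset.sum_le_sum fun j _ => mul_le_mul_of_nonneg_left (hwψ j) (by positivity)
        _ = ∑ s ∈ T, w s * ∑ j, (μ j : ℚ) * ψ j s := by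
            simp only [Finset.mul_sum]
            rw [Finset.sum_comm]
            exact Finset.sum_congr rfl fun _ _ => Finset.sum_congr rfl fun _ _ => by ring
        _ ≤ ∑ s ∈ T, w s * ∑ b, (s b : ℚ) *
              (Llin e dg u + Lcst dg κ (∑ j, (μ j : ℚ))) b :=
            Finset.sum_le_sum fun s hs => mul_le_mul_of_nonneg_left (h1 s hs) (hw s)
        _ = ∑ b, (v b : ℚ) * (Llin e dg u + Lcst dg κ (∑ j, (μ j : ℚ))) b := by
            simp only [hwv, Finset.mul_sum, Finset.sum_mul]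
            rw [Finset.sum_comm]
            exact Finset.sum_congr rfl fun _ _ => Finset.sum_congr rfl fun _ _ => by ring

theorem pty_rank {dg : Hyp n → ℕ} (hd : ∀ b, 1 ≤ dg b) (κ : Fin r → ℤ)
    {ψ : Fin p → (Hyp n → ℕ) → ℚ} {T : Finset (Hyp n → ℕ)} (hψ : PL ψ T) (μ : Fin p →₀ ℕ) :
    Module.finrank ℚ (vectorSpan ℚ (Pty dg κ ψ μ)) = Module.finrank ℚ (vectorSpan ℚ
      (Pol (tv e dg T)
        (fun s => ∑ i, (μ i : ℚ) * (ψ i s.1 - lin dg κ fun b => (s.1 b : ℚ))))) := by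
  classical
  obtain ⟨f, hf⟩ : ∃ f : (Fin (d + 1) → ℚ) →ᵃ[ℚ] (Hyp n → ℚ),
    f = (Llin e dg).toAffineMap + AffineMap.const ℚ _ (Lcst dg κ (∑ j, (μ j : ℚ))) := ⟨_, rfl⟩
  have h1 : (fun u => Llin e dg u + Lcst dg κ (∑ j, (μ j : ℚ))) = f := by
    rw [hf]
    rfl
  have h2 : f.linear = Llin e dg := by
    rw [hf, AffineMap.add_linear, AffineMap.const_linear, add_zero, LinearMap.toAffineMap_linear]
  rw [pty_eq e hd κ hψ, h1, ← AffineMap.map_vectorSpan, h2]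
  exact (Submodule.equivMapOfInjective _ (Llin_inj e hd) _).finrank_eq.symm

end

/-- the numerical dimension is at most `h` -/
def NumLeU {K : Type} [Field K] [Algebra ℂ K] (N : ℕ) (δ : Fin p → Place ℂ K → ℚ)
    (μ : Fin p →₀ ℕ) (h : ℕ) : Prop :=
  ∀ S : Finset K, ∃ C : ℕ, ∀ m M0 : ℕ, 1 ≤ m →
    (∃ ω : Fin M0 → (Fin N → Derivation ℂ K K) → K, LinearIndependent ℂ ω ∧
      ∀ l, ASec N δ S (m • μ) 1 (ω l)) → M0 ≤ C * m ^ h

/-- **Weak abundance.** -/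
theorem top_k (hn : ∀ i, 1 ≤ n i) (hN1 : 1 ≤ N) (hN : N = ∑ i, n i) {dg : Hyp n → ℕ}
    (hd : ∀ b, 1 ≤ dg b) (κ : Fin r → ℤ) {ψ : Fin p → (Hyp n → ℕ) → ℚ}
    (hψ : ∃ T, PL ψ T) :
    ∃ T : ℕ, 1 ≤ T ∧
      ∀ (K : Type) [Field K] [Algebra ℂ K] [Algebra.EssFiniteType ℂ K] (M : Fin r → ℕ)
        (F : ∀ b : Hyp n, MvPolynomial (Fin (M b.1 + 1)) ℂ) (x : ∀ i, Fin (M i + 1) → K)
        (Ω : (Fin N → Derivation ℂ K K) → K) (δ : Fin p → Place ℂ K → ℚ),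
        (∀ b, (F b).IsHomogeneous (dg b)) → (∀ i j, x i j ≠ 0) → NoZ F x →
        IsTranscendenceBasis ℂ (rat F dg x) → IsPluri 1 Ω → Ω ≠ 0 →
        (∀ i P, δ i P = 1 - ψ i (mulU F dg x P) - lDU F dg κ x Ω P) →
        ∀ μ : Fin p →₀ ℕ,
          (PsefR N δ (fun i => (μ i : ℝ)) ↔ (Pty dg κ ψ μ).Nonempty) ∧
          ((Pty dg κ ψ μ).Nonempty →
            ImGe N δ (T • μ) (Module.finrank ℚ (vectorSpan ℚ (Pty dg κ ψ μ))) ∧
            NumLeU N δ μ (Module.finrank ℚ (vectorSpan ℚ (Pty dg κ ψ μ)))) := by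
  classical
  obtain ⟨T0, hψ⟩ := hψ
  obtain ⟨d, rfl⟩ : ∃ d, N = d + 1 := ⟨N - 1, by omega⟩
  let e : Coo n ≃ Fin (d + 1) := finSigmaFinEquiv.trans (finCongr (by omega))
  have hspan := tv_span e hd hψ
  obtain ⟨N0, g, U, hg0, hgU, happ, hex⟩ := exists_gen2 (tv e dg T0)
    (fun i (s : T0) => ψ i s.1 - lin dg κ fun b => (s.1 b : ℚ)) hspan
  have hq : 1 ≤ qq dg := by
    have h0 : 0 < qq dg := Finset.prod_pos fun i _ => hd ⟨i, 0⟩
    exact h0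
  have hqg : ∀ b, qq dg • g b ≠ 0 := by
    intro b h0
    apply hg0 b
    ext i
    have h1 := DFunLike.congr_fun h0 i
    rw [Finsupp.smul_apply, smul_eq_mul] at h1
    rcases Nat.mul_eq_zero.1 h1 with h2 | h2
    · omega
    · exact h2
  obtain ⟨s, h, T, hfo⟩ := exists_formsOK hqg
  refine ⟨T, hfo.1, ?_⟩
  intro K _ _ _ M F x Ω δ hF hx hno hbas hΩ hΩ0 hδ μ
  obtain ⟨H, G, hG, hGδ⟩ := setup_u (p := p) e hn hd κ hψ hF hx hno hbas
  have hδ' : ∀ i P, IsDivisorial P (d + 1) →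
      δ i P = - phi e dg κ (ψ i) (vec (fun k => rat F dg x (e.symm k)) P) - moF Ω P -
        (P.ord G : ℚ) / qq dg := fun i P _ => by rw [hδ, hGδ]
  obtain ⟨h1, h2, ⟨P0, hP0⟩, w, u, D0, hu, hD0, hpl⟩ :=
    form_u H hg0 hgU happ hΩ hΩ0 hG hq hδ'
  have hdet : ∀ (m : ℕ) (η : (Fin (d + 1) → Derivation ℂ K K) → K), IsPluri m η → η ≠ 0 →
      η D0 ≠ 0 := by
    intro m η hη h0 h5
    apply h0
    funext D
    have h6 := hpl m η hη D
    rw [h5, mul_zero] at h6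
    exact (mul_eq_zero.1 h6).resolve_right (pow_ne_zero _ hu)
  have hpne : (Pty dg κ ψ μ).Nonempty ↔ (Pol (tv e dg T0)
      (fun s => ∑ i, (μ i : ℚ) * (ψ i s.1 - lin dg κ fun b => (s.1 b : ℚ)))).Nonempty := by
    rw [pty_eq e hd κ hψ, Set.image_nonempty]
  refine ⟨?_, fun hne => ?_⟩
  · rw [psefR_iff h1 (P := P0) hD0 hdet (fun S => by
      obtain ⟨C1, hC1⟩ := h2 P0 S D0
      refine ⟨C1, fun μ j η hμ hη => (hC1 μ j η hμ hη).imp id fun h => ?_⟩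
      obtain ⟨-, e, he, -⟩ := h
      exact ⟨e, he⟩) _ (fun i => by positivity), hpne]
    constructor
    · rintro ⟨t, ht, hlt⟩
      have hfe : (Feas (mat fun b => qq dg • g b) fun i => (μ i : ℝ)).Nonempty :=
        ⟨t, mem_feas.2 ⟨ht, hlt⟩⟩
      obtain ⟨ee, he1, -⟩ := hfo.2.2.2 0 μ hfe
      have he2 : ∀ i, T * μ i = ∑ b, ee b * (qq dg • g b) i := by
        intro i
        have h3 := he1 i
        simp only [mat_cast] at h3
        exact_mod_cast h3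
      have hT : (0 : ℚ) < T := by exact_mod_cast hfo.1
      refine ⟨((qq dg : ℚ) / T) • uv U ee, fun s => ?_⟩
      rw [map_smul, smul_eq_mul]
      unfold uv
      rw [dot_tq]
      have h3 : (T : ℚ) * ∑ i, (μ i : ℚ) * (ψ i s.1 - lin dg κ fun b => (s.1 b : ℚ)) =
          qq dg * ∑ b, (ee b : ℚ) * ∑ i, (g b i : ℚ) *
            (ψ i s.1 - lin dg κ fun b => (s.1 b : ℚ)) := by
        simp only [Finset.mul_sum]
        rw [Finset.sum_comm]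
        refine Finset.sum_congr rfl fun i _ => ?_
        have h4 : (T : ℚ) * μ i = ∑ b, (ee b : ℚ) * (qq dg * g b i) := by
          have h5 := he2 i
          simp only [Finsupp.smul_apply, smul_eq_mul] at h5
          exact_mod_cast h5
        rw [← mul_assoc, h4, Finset.sum_mul]
        exact Finset.sum_congr rfl fun b _ => by ring
      have h4 : ∑ b, (ee b : ℚ) * ∑ i, (g b i : ℚ) *
          (ψ i s.1 - lin dg κ fun b => (s.1 b : ℚ)) ≤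
          ((∑ k, tv e dg T0 s k * ∑ b, (ee b : ℤ) * U b k : ℤ) : ℚ) := by
        have h5 : ((∑ k, tv e dg T0 s k * ∑ b, (ee b : ℤ) * U b k : ℤ) : ℚ) =
            ∑ b, (ee b : ℚ) * ((∑ k, tv e dg T0 s k * U b k : ℤ) : ℚ) := by
          push_cast
          simp only [Finset.mul_sum]
          rw [Finset.sum_comm]
          exact Finset.sum_congr rfl fun _ _ => Finset.sum_congr rfl fun _ _ => by ring
        rw [h5]
        exact Finset.sum_le_sum fun b _ => mul_le_mul_of_nonneg_left (hgU b s) (by positivity)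
      have hqq : (0 : ℚ) < qq dg := by exact_mod_cast hq
      have h5 := mul_le_mul_of_nonneg_left h4 hqq.le
      rw [← h3] at h5
      rw [div_mul_eq_mul_div, le_div_iff₀ hT, mul_comm]
      exact h5
    · rintro ⟨y, hy⟩
      obtain ⟨tt, htt, -⟩ := exists_feas hex hq (fun i => μ i) hy
      exact ⟨tt, mem_feas.1 htt⟩
  · have hne' := hpne.1 hne
    rw [pty_rank e hd κ hψ]
    exact ⟨kod_u H hΩ hΩ0 hG hq h1 hex hfo μ hne', fun S => by
      obtain ⟨C, hC⟩ := num_u H hspan hΩ hΩ0 hG hq hδ' μ hne' S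
      exact ⟨C, fun m M0 hm ⟨ω, hlin, hsec⟩ => hC m M0 hm ω hlin hsec⟩⟩

end Pool.Agent.Q57.UG
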